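import Mathlib
import Pool.Agent.NH29.GN.Int
import Pool.Agent.NH29.GN.Ncz
import Pool.Agent.NH29.GN.Alg

/-!
The coordinates of a point are algebraic over the quotients of general forms.
-/

set_option autoImplicit false

namespace Pool.Agent.U582.NP

open MvPolynomial
open Pool.Agent.NH29.GN (Idx Mon val fv NoZero)

theorem alg_coord {k0 κ E Λ : Type} [Field k0] [CharZero k0] [Field κ] [Field E] [Field Λ]
    [Algebra k0 κ] [Algebra κ E] [Algebra E Λ] [Algebra κ Λ] [IsScalarTower κ E Λ]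
    {M n q : ℕ} {V : Set (MvPolynomial (Fin (M + 1)) k0)} (hV : ∀ H ∈ V, ∃ e, H.IsHomogeneous e)
    {ℓ : Fin (n + 1) → MvPolynomial (Fin (M + 1)) k0} (hℓ : ∀ j, (ℓ j).IsHomogeneous 1)
    (hZ : NoZero V ℓ) (hq : n + 1 ≤ q) {d : Fin q → ℕ} (hd : ∀ i, 1 ≤ d i) {t : Idx M d → κ}
    (ht : AlgebraicIndependent k0 t) {C : Finset (Fin q)} (hC : C ≠ Finset.univ)
    {x : Fin (M + 1) → Λ}
    (hxV : ∀ H ∈ V, eval₂ ((algebraMap κ Λ).comp (algebraMap k0 κ)) x H = 0)
    (hxC : ∀ c ∈ C, fv t x c = 0) (hxb : ∀ b, b ∉ C → fv t x b ≠ 0)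
    (hr : ∀ b b', b ∉ C → b' ∉ C → IsAlgebraic E (fv t x b ^ d b' / fv t x b' ^ d b))
    (i j : Fin (M + 1)) (hj : x j ≠ 0) : IsAlgebraic E (x i / x j) := by
  classical
  let K : IntermediateField E (AlgebraicClosure Λ) := algebraicClosure E (AlgebraicClosure Λ)
  have hKc : IsAlgClosed K :=
    (inferInstance : IsAlgClosure E (algebraicClosure E (AlgebraicClosure Λ))).isAlgClosed
  let f0 : κ →+* K := (algebraMap E K).comp (algebraMap κ E)
  let _ : Algebra κ K := f0.toAlgebra
  let _ : Algebra k0 K := (f0.comp (algebraMap k0 κ)).toAlgebra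
  have hst2 : IsScalarTower k0 κ K := IsScalarTower.of_algebraMap_eq fun _ => rfl
  have hK : ∀ a : κ, algebraMap K (AlgebraicClosure Λ) (algebraMap κ K a) = algebraMap Λ (AlgebraicClosure Λ) (algebraMap κ Λ a) := by
    intro a
    rw [IsScalarTower.algebraMap_apply κ E Λ a,
      ← IsScalarTower.algebraMap_apply E Λ (AlgebraicClosure Λ)]
    rfl
  have ht' : AlgebraicIndependent k0 fun p => algebraMap κ K (t p) :=
    ht.map' (f := IsScalarTower.toAlgHom k0 κ K) (algebraMap κ K).injective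
  have hfv : ∀ b, fv (fun p => algebraMap κ K (t p)) (fun l => algebraMap Λ (AlgebraicClosure Λ) (x l)) b =
      algebraMap Λ (AlgebraicClosure Λ) (fv t x b) := by
    intro b
    unfold fv val
    rw [map_sum]
    refine Finset.sum_congr rfl fun β _ => ?_
    rw [map_mul, map_prod, hK]
    congr 1
    refine Finset.prod_congr rfl fun l _ => ?_
    rw [map_pow]
  obtain ⟨c, y, hy⟩ := Pool.Agent.NH29.GN.int
    (Pool.Agent.NH29.GN.ncz Pool.Agent.NH29.GN.alg) Pool.Agent.NH29.GN.alg k0 K (AlgebraicClosure Λ) M n q V hV ℓ hℓ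
    hZ hq d hd (fun p => algebraMap κ K (t p)) ht' C hC (fun l => algebraMap Λ (AlgebraicClosure Λ) (x l)) (by
      intro H hH
      have h1 := hxV H hH
      have h2 := congrArg (algebraMap Λ (AlgebraicClosure Λ)) h1
      rw [map_zero, hom_eval₂] at h2
      rw [← h2]
      congr 1
      ext a
      exact hK _) (by
      intro c hc
      rw [hfv, hxC c hc, map_zero]) (by
      intro b hb
      rw [hfv]
      exact (map_ne_zero _).2 (hxb b hb)) (by
      intro b b' hb hb'
      rw [hfv, hfv, ← map_pow, ← map_pow, ← map_div₀]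
      have h1 : IsAlgebraic E (algebraMap Λ (AlgebraicClosure Λ) (fv t x b ^ d b' / fv t x b' ^ d b)) :=
        (hr b b' hb hb').algebraMap
      exact ⟨⟨_, mem_algebraicClosure_iff'.2 h1.isIntegral⟩, rfl⟩)
  have h1 : algebraMap Λ (AlgebraicClosure Λ) (x i / x j) = algebraMap K (AlgebraicClosure Λ) (y i / y j) := by
    have hi := congrFun hy i
    have hj' := congrFun hy j
    have hc : c ≠ 0 := by
      rintro rfl
      rw [zero_mul] at hj'
      exact hj ((map_eq_zero _).1 hj')
    rw [map_div₀, map_div₀, hi, hj', mul_div_mul_left _ _ hc]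
  have h2 : IsAlgebraic E (algebraMap K (AlgebraicClosure Λ) (y i / y j)) := by
    have h3 : IsAlgebraic E (y i / y j) := Algebra.IsAlgebraic.isAlgebraic _
    exact h3.algebraMap
  rw [← h1] at h2
  exact (isAlgebraic_algebraMap_iff (algebraMap Λ (AlgebraicClosure Λ)).injective).1 h2

end Pool.Agent.U582.NP
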