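import Mathlib
import Pool.Agent.W603.PV.Hgt
import Pool.Agent.W602.GT.Defs

/-!
The boundary in terms of finitely many functions.
-/

set_option autoImplicit false

namespace Pool.Agent.U582.NP

open FF Pool.Agent.W603.LV Pool.Agent.W603.PV
open Pool.Agent.W602.GT (LogGeneralType)

theorem lgt_mono {κ K : Type} [Field κ] [Field K] [Algebra κ K] {w : ℕ}
    {B B' : Place κ K → Prop} (h : ∀ P, B P → B' P) (hL : LogGeneralType κ K w B) :
    LogGeneralType κ K w B' := by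
  obtain ⟨htr, N, hN0, ω, hpl, hlog, hreg, D, hD0, hind⟩ := hL
  exact ⟨htr, N, hN0, ω, hpl, hlog, fun P hP h1 => hreg P hP fun h2 => h1 (h P h2), D, hD0, hind⟩

theorem bd_pos {κ K : Type} [Field κ] [Field K] [Algebra κ K] {M : ℕ} {ι : Type}
    {y : Fin (M + 1) → K} (hy : ∃ l, y l ≠ 0) (d : ι → ℕ) (v : ι → K)
    (b : ι) (hv : v b ≠ 0) {Q : Place κ K} (h : d b * pord Q y < Q.ord (v b)) :
    ∃ l, y l ≠ 0 ∧ (∀ j, Q.Reg (y j / y l)) ∧ Ge Q 1 (v b / y l ^ d b) := by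
  obtain ⟨l, hl, hlo⟩ := exists_pord Q hy
  refine ⟨l, hl, fun j => ?_, ?_⟩
  · by_cases hj : y j = 0
    · exact Or.inl (by rw [hj, zero_div])
    · right
      rw [Q.ord_div hj hl]
      have := pord_le Q hj
      omega
  · right
    rw [Q.ord_div hv (pow_ne_zero _ hl), Q.ord_pow]
    rw [hlo]
    omega

/-- conversely -/
theorem bd_neg {κ K : Type} [Field κ] [Field K] [Algebra κ K] {M : ℕ}
    {y : Fin (M + 1) → K} {d : ℕ} {v : K} (hv : v ≠ 0) {Q : Place κ K} {l : Fin (M + 1)}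
    (hl : y l ≠ 0) (hR : ∀ j, Ge Q 0 (y j / y l)) (hG : Ge Q 1 (v / y l ^ d)) :
    d * pord Q y < Q.ord v := by
  have h1 : pord Q y = Q.ord (y l) := by
    apply le_antisymm (pord_le Q hl)
    obtain ⟨j, hj, hjo⟩ := exists_pord Q ⟨l, hl⟩
    rw [← hjo]
    have h2 := (hR j).resolve_left (div_ne_zero hj hl)
    rw [Q.ord_div hj hl] at h2
    omega
  have h3 := hG.resolve_left (div_ne_zero hv (pow_ne_zero _ hl))
  rw [Q.ord_div hv (pow_ne_zero _ hl), Q.ord_pow] at h3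
  rw [h1]
  omega

end Pool.Agent.U582.NP
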