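import Mathlib
import Pool.Agent.N131.FM.Kf
import Pool.Agent.NH29.GN.Stb

/-!
The ultraproduct of the constants in the field of sequences.
-/

set_option autoImplicit false

namespace Pool.Agent.U582.NP

open FF Filter MvPolynomial Pool.Agent.W603.LV Pool.Agent.W603.PV
open Pool.Agent.N131 Pool.Agent.N131.FM
open Pool.Agent.N131.FM.Fam (SmS rp po hp ObE SmE mem_obf mem_smf smf_le_obf)
open Pool.Agent.NH29.GN (Idx Mon val fv)
open Pool.Agent.NH29.GN.Stb (pr pr_surj pr_eq)

variable {k F : Type} [Field k] [Field F] [Algebra k F]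

/-- the field of the sequences of constants -/
abbrev CF (S : Fam k F) : Type := (S.U : Filter S.I).Germ k

/-- the embedding of the sequences of constants -/
noncomputable def cst0 (S : Fam k F) (a : CF S) : S.MF :=
  S.mf fun i => algebraMap k (S.L i) ((pr_surj S.U a).choose i)

theorem cst0_pr (S : Fam k F) (f : S.I → k) :
    cst0 S (pr S.U k f) = S.mf fun i => algebraMap k (S.L i) (f i) := by
  have h1 := (pr_surj S.U (pr S.U k f)).choose_spec
  rw [pr_eq] at h1
  exact S.mf_eq.2 (h1.mono fun i hi => by rw [hi])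

/-- the embedding of the sequences of constants -/
noncomputable def cst (S : Fam k F) : CF S →+* S.MF where
  toFun := cst0 S
  map_one' := by
    rw [← map_one (pr S.U k), cst0_pr, ← map_one S.mf]
    congr 1
    funext i
    exact map_one _
  map_zero' := by
    rw [← map_zero (pr S.U k), cst0_pr, ← map_zero S.mf]
    congr 1
    funext i
    exact map_zero _
  map_mul' := by
    intro a b
    obtain ⟨f, rfl⟩ := pr_surj S.U a
    obtain ⟨g, rfl⟩ := pr_surj S.U b
    rw [← map_mul, cst0_pr, cst0_pr, cst0_pr, ← map_mul]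
    congr 1
    funext i
    exact map_mul _ _ _
  map_add' := by
    intro a b
    obtain ⟨f, rfl⟩ := pr_surj S.U a
    obtain ⟨g, rfl⟩ := pr_surj S.U b
    rw [← map_add, cst0_pr, cst0_pr, cst0_pr, ← map_add]
    congr 1
    funext i
    exact map_add _ _ _

theorem cst_pr (S : Fam k F) (f : S.I → k) :
    cst S (pr S.U k f) = S.mf fun i => algebraMap k (S.L i) (f i) := cst0_pr S f

/-- sums of sequences -/
theorem mf_sum (S : Fam k F) {ι : Type} (T : Finset ι) (a : ι → S.Sq) :
    S.mf (fun i => ∑ j ∈ T, a j i) = ∑ j ∈ T, S.mf (a j) := by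
  rw [← map_sum]
  congr 1
  funext i
  rw [Finset.sum_apply]

/-- products of sequences -/
theorem mf_prod (S : Fam k F) {ι : Type} (T : Finset ι) (a : ι → S.Sq) :
    S.mf (fun i => ∏ j ∈ T, a j i) = ∏ j ∈ T, S.mf (a j) := by
  rw [← map_prod]
  congr 1
  funext i
  rw [Finset.prod_apply]

/-- the value of a form with constant coefficients -/
theorem mf_fv (S : Fam k F) [Algebra (CF S) S.MF]
    (halg : ∀ a, algebraMap (CF S) S.MF a = cst S a) {M q : ℕ} {d : Fin q → ℕ}
    (t : S.I → Idx M d → k) (x : ∀ i, Fin (M + 1) → S.L i) (b : Fin q) :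
    fv (fun p => pr S.U k fun i => t i p) (fun j => S.mf fun i => x i j) b =
      S.mf fun i => fv (t i) (x i) b := by
  unfold fv val
  rw [mf_sum]
  refine Finset.sum_congr rfl fun β _ => ?_
  rw [halg, cst_pr]
  have h1 : (fun i => algebraMap k (S.L i) (t i ⟨b, β⟩) * ∏ j, x i j ^ β.1 j) =
      (fun i => algebraMap k (S.L i) (t i ⟨b, β⟩)) * fun i => ∏ j, x i j ^ β.1 j := rfl
  rw [h1, map_mul, mf_prod]
  congr 1

/-- the value of a form with fixed coefficients -/
theorem mf_eval (S : Fam k F) {M : ℕ} {R : Type} [CommRing R] (f : R →+* k)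
    (G : MvPolynomial (Fin (M + 1)) R) (x : ∀ i, Fin (M + 1) → S.L i) (φ : R →+* S.MF)
    (hφ : ∀ a, φ a = S.mf fun i => algebraMap k (S.L i) (f a)) :
    eval₂ φ (fun j => S.mf fun i => x i j) G =
      S.mf fun i => eval₂ ((algebraMap k (S.L i)).comp f) (x i) G := by
  have h1 : (fun i => eval₂ ((algebraMap k (S.L i)).comp f) (x i) G) =
      eval₂ (((RingHom.pi fun i => algebraMap k (S.L i)) : k →+* S.Sq).comp f)
        (fun j i => x i j) G := by
    funext i
    have h2 := MvPolynomial.hom_eval₂ G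
      (((RingHom.pi fun i => algebraMap k (S.L i)) : k →+* S.Sq).comp f)
      (Pi.evalRingHom (fun i => S.L i) i) (fun j i => x i j)
    exact h2.symm
  rw [h1, MvPolynomial.hom_eval₂]
  congr 1
  ext a
  exact hφ a

variable [IsAlgClosed k] [CharZero k] [IsFF k F]

theorem cst_sm (S : Fam k F) (a : CF S) : cst S a ∈ S.smf := by
  obtain ⟨f, rfl⟩ := pr_surj S.U a
  rw [cst_pr, mem_smf]
  refine Fam.Sm.mono Fam.Sm.zero (Eventually.of_forall fun n => ?_)
  exact (hgt_algebraic (isAlgebraic_algebraMap _)).le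

end Pool.Agent.U582.NP
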