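import Mathlib

/-!
Degrees of extensions generated by roots of polynomials of bounded degrees.
-/

set_option autoImplicit false

namespace Pool.Agent.U582.NP

open IntermediateField

theorem finrank_adjoin_simple_le {E L : Type} [Field E] [Field L] [Algebra E L] {y : L} {N : ℕ}
    {q : Polynomial E} (hq : q ≠ 0) (hN : q.natDegree ≤ N) (h0 : Polynomial.aeval y q = 0) :
    FiniteDimensional E E⟮y⟯ ∧ Module.finrank E E⟮y⟯ ≤ N := by
  have hint : IsIntegral E y := (show IsAlgebraic E y from ⟨q, hq, h0⟩).isIntegral
  refine ⟨adjoin.finiteDimensional hint, ?_⟩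
  rw [adjoin.finrank hint]
  exact (minpoly.natDegree_le_of_ne_zero' hq h0).trans hN
where
  minpoly.natDegree_le_of_ne_zero' {E L : Type} [Field E] [Field L] [Algebra E L] {y : L}
      {q : Polynomial E} (hq : q ≠ 0) (h0 : Polynomial.aeval y q = 0) :
      (minpoly E y).natDegree ≤ q.natDegree :=
    Polynomial.natDegree_le_of_dvd (minpoly.dvd E y h0) hq

theorem finrank_adjoin_le {E L : Type} [Field E] [Field L] [Algebra E L] {J : Type} [Fintype J]
    (y : J → L) (N : J → ℕ)
    (h : ∀ j, ∃ q : Polynomial E, q ≠ 0 ∧ q.natDegree ≤ N j ∧ Polynomial.aeval (y j) q = 0) :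
    FiniteDimensional E (adjoin E (Set.range y)) ∧
      Module.finrank E (adjoin E (Set.range y)) ≤ ∏ j, N j := by
  classical
  have key : ∀ T : Finset J, FiniteDimensional E (adjoin E (y '' (T : Set J))) ∧
      Module.finrank E (adjoin E (y '' (T : Set J))) ≤ ∏ j ∈ T, N j := by
    intro T
    induction T using Finset.induction_on with
    | empty =>
      rw [Finset.coe_empty, Set.image_empty, adjoin_empty, Finset.prod_empty]
      refine ⟨inferInstance, ?_⟩
      rw [IntermediateField.finrank_bot]
    | insert j T hj ih =>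
      obtain ⟨q, hq, hN, h0⟩ := h j
      obtain ⟨h1, h2⟩ := finrank_adjoin_simple_le hq hN h0
      obtain ⟨h3, h4⟩ := ih
      have h5 : adjoin E (y '' ((insert j T : Finset J) : Set J)) =
          E⟮y j⟯ ⊔ adjoin E (y '' (T : Set J)) := by
        rw [Finset.coe_insert, Set.image_insert_eq, Set.insert_eq, adjoin_union]
      rw [h5, Finset.prod_insert hj]
      refine ⟨IntermediateField.finiteDimensional_sup _ _, ?_⟩
      exact (IntermediateField.finrank_sup_le _ _).trans (Nat.mul_le_mul h2 h4)
  have h1 := key Finset.univ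
  rw [Finset.coe_univ, Set.image_univ] at h1
  exact h1

end Pool.Agent.U582.NP
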