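import Mathlib
import Pool.Agent.U582.NP.Cst
import Pool.Agent.U582.NP.Dg
import Pool.Agent.W602.GT.SpDefs
import Pool.Agent.NH29.GN.Int

/-!
Sequences of curves on a curve over the constants.
-/

set_option autoImplicit false

namespace Pool.Agent.U582.NP

open FF Filter Pool.Agent.W603.LV Pool.Agent.W603.PV
open Pool.Agent.N131 Pool.Agent.N131.FM
open Pool.Agent.W602.GT (coords)
open Pool.Agent.N131.FM.Fam (SmS rp po hp ObE SmE mem_obf mem_smf smf_le_obf)
open Pool.Agent.NH29.GN.Stb (pr pr_surj pr_eq pr_eq_zero)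
open scoped IntermediateField

variable {k F : Type} [Field k] [IsAlgClosed k] [CharZero k] [Field F] [Algebra k F] [IsFF k F]

omit [CharZero k] [IsFF k F] in
/-- elements which are not constant are transcendental at almost all indices -/
theorem ev_transcendental (S : Fam k F) (u : S.Sq) (hu : ∀ a, S.mf u ≠ cst S a) :
    ∀ᶠ i in (S.U : Filter S.I), Transcendental k (u i) := by
  classical
  by_contra hcon
  rw [← Ultrafilter.eventually_not] at hcon
  have h1 : ∀ i, ¬ Transcendental k (u i) → ∃ a : k, algebraMap k (S.L i) a = u i := by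
    intro i hi
    have h2 : IsAlgebraic k (u i) := not_not.1 hi
    obtain ⟨b, hb⟩ := Pool.Agent.NH29.GN.IntP.mem_of_integral (u i) h2.isIntegral
    exact ⟨b, hb.symm⟩
  choose! a ha using h1
  refine hu (pr S.U k a) ?_
  rw [cst_pr, S.mf_eq]
  exact hcon.mono fun i hi => (ha i hi).symm

omit [IsAlgClosed k] [CharZero k] [IsFF k F] in
/-- representatives of polynomials with constant coefficients -/
theorem exists_rep (S : Fam k F) [Algebra (CF S) S.MF]
    (halg : ∀ a, algebraMap (CF S) S.MF a = cst S a) (f : Polynomial (CF S)) (u : S.Sq) :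
    ∃ p : S.I → Polynomial k,
      Polynomial.aeval (S.mf u) f = S.mf (fun i => Polynomial.aeval (u i) (p i)) ∧
      (f ≠ 0 → ∀ᶠ i in (S.U : Filter S.I), p i ≠ 0) := by
  choose c hc using fun s : ℕ => pr_surj S.U (f.coeff s)
  refine ⟨fun i => ∑ s ∈ Finset.range (f.natDegree + 1), Polynomial.monomial s (c s i), ?_, ?_⟩
  · rw [Polynomial.aeval_eq_sum_range]
    have h1 : (fun i => Polynomial.aeval (u i)
        (∑ s ∈ Finset.range (f.natDegree + 1), Polynomial.monomial s (c s i))) =
        fun i => ∑ s ∈ Finset.range (f.natDegree + 1),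
          (algebraMap k (S.L i) (c s i) * u i ^ s) := by
      funext i
      rw [map_sum]
      refine Finset.sum_congr rfl fun s _ => ?_
      rw [Polynomial.aeval_monomial]
    rw [h1, mf_sum]
    refine Finset.sum_congr rfl fun s _ => ?_
    rw [Algebra.smul_def, halg, hc s, cst_pr, ← map_pow, ← map_mul]
    rfl
  · intro hf
    have h1 : f.coeff f.natDegree ≠ 0 := by
      rw [Polynomial.coeff_natDegree]
      exact Polynomial.leadingCoeff_ne_zero.2 hf
    rw [hc, Ne, pr_eq_zero, ← Ultrafilter.eventually_not] at h1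
    refine h1.mono fun i hi h0 => hi ?_
    have h2 := congrArg (fun q : Polynomial k => q.coeff f.natDegree) h0
    simp only [Polynomial.finsetSum_coeff, Polynomial.coeff_monomial, Polynomial.coeff_zero] at h2
    rw [Finset.sum_ite_eq' (Finset.range (f.natDegree + 1)) f.natDegree] at h2
    simpa using h2

/-- the bound at one index -/
theorem hgt_le_prod {L : Type} [Field L] [Algebra k L] [IsFF k L] {u : L}
    (htr : Transcendental k u) {J : Type} [Fintype J] (v : J → L) (hu : ∃ j, v j = u)
    (E0 : IntermediateField k L)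
    (htop : IntermediateField.adjoin k (Set.range v) = E0) (N : J → ℕ)
    (p : ∀ j, Fin (N j + 1) → Polynomial k) (hp : ∀ j, p j (Fin.last _) ≠ 0)
    (h0 : ∀ j, ∑ r, Polynomial.aeval u (p j r) * v j ^ (r : ℕ) = 0) :
    hgt k u ≤ ((∏ j, N j : ℕ) : ℤ) * Module.finrank E0 L := by
  classical
  rw [hgt_eq_finrank (k := k) htr]
  obtain ⟨g, hg⟩ : ∃ g : k⟮u⟯, g = IntermediateField.AdjoinSimple.gen k u := ⟨_, rfl⟩
  have hgu : algebraMap k⟮u⟯ L g = u := by
    rw [hg, IntermediateField.AdjoinSimple.algebraMap_gen]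
  have hgen0 : Transcendental k g := by
    intro h
    apply htr
    have h5 := h.algebraMap (A := L)
    rwa [hgu] at h5
  have hq : ∀ j, ∃ q : Polynomial k⟮u⟯, q ≠ 0 ∧ q.natDegree ≤ N j ∧
      Polynomial.aeval (v j) q = 0 := by
    intro j
    refine ⟨∑ r : Fin (N j + 1), Polynomial.monomial (r : ℕ) (Polynomial.aeval g (p j r)),
      ?_, ?_, ?_⟩
    · intro h0
      have h7 := congrArg (fun q => Polynomial.coeff q (N j)) h0
      simp only [Polynomial.finsetSum_coeff, Polynomial.coeff_monomial,
        Polynomial.coeff_zero] at h7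
      rw [Finset.sum_eq_single (Fin.last (N j))] at h7
      · rw [Fin.val_last, if_pos rfl] at h7
        exact hp j ((transcendental_iff.1 hgen0) _ h7)
      · intro r _ hr
        rw [if_neg]
        intro h8
        exact hr (Fin.ext h8)
      · intro h8
        exact absurd (Finset.mem_univ _) h8
    · refine Polynomial.natDegree_sum_le_of_forall_le _ _ fun r _ => ?_
      exact (Polynomial.natDegree_monomial_le _).trans (Nat.lt_succ_iff.1 r.2)
    · rw [map_sum, ← h0 j]
      refine Finset.sum_congr rfl fun r _ => ?_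
      rw [Polynomial.aeval_monomial, ← Polynomial.aeval_algebraMap_apply, hgu]
  obtain ⟨h5, h6⟩ := finrank_adjoin_le (E := k⟮u⟯) (L := L) v N hq
  have h7 : (IntermediateField.adjoin k⟮u⟯ (Set.range v)).restrictScalars k = E0 := by
    rw [← htop]
    apply le_antisymm
    · have hku : k⟮u⟯ ≤ IntermediateField.adjoin k (Set.range v) := by
        rw [IntermediateField.adjoin_le_iff, Set.singleton_subset_iff]
        obtain ⟨j, rfl⟩ := hu
        exact IntermediateField.subset_adjoin _ _ ⟨j, rfl⟩
      intro w hw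
      have h8 : IntermediateField.adjoin k⟮u⟯ (Set.range v) ≤
          IntermediateField.extendScalars hku := by
        rw [IntermediateField.adjoin_le_iff]
        intro w hw
        exact IntermediateField.subset_adjoin k _ hw
      exact h8 hw
    · rw [IntermediateField.adjoin_le_iff]
      intro w hw
      exact IntermediateField.subset_adjoin k⟮u⟯ _ hw
  have h8 : Module.finrank (IntermediateField.adjoin k⟮u⟯ (Set.range v)) L =
      Module.finrank E0 L := by
    rw [← h7]
    rfl
  have h9 := Module.finrank_mul_finrank k⟮u⟯ (IntermediateField.adjoin k⟮u⟯ (Set.range v)) L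
  rw [h8] at h9
  rw [← h9]
  push_cast
  refine mul_le_mul_of_nonneg_right ?_ (Int.natCast_nonneg _)
  exact_mod_cast h6

omit [IsAlgClosed k] [CharZero k] in
theorem adjoin_div {L : Type} [Field L] [Algebra k L] {M : ℕ} {x : Fin (M + 1) → L}
    {l0 : Fin (M + 1)} (hl0 : x l0 ≠ 0) :
    IntermediateField.adjoin k (Set.range fun j => x j / x l0) = coords k x := by
  unfold coords
  apply le_antisymm
  · rw [IntermediateField.adjoin_le_iff]
    rintro _ ⟨j, rfl⟩
    exact IntermediateField.subset_adjoin _ _ ⟨j, l0, hl0, rfl⟩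
  · rw [IntermediateField.adjoin_le_iff]
    rintro _ ⟨a, b, hb, rfl⟩
    have h10 : x a / x b = (x a / x l0) / (x b / x l0) := by
      rw [div_div_div_cancel_right₀ hl0]
    rw [h10]
    exact div_mem (IntermediateField.subset_adjoin _ _ ⟨a, rfl⟩)
      (IntermediateField.subset_adjoin _ _ ⟨b, rfl⟩)

/-- **The curve case.** -/
theorem curve_small (S : Fam k F) [Algebra (CF S) S.MF]
    (halg : ∀ a, algebraMap (CF S) S.MF a = cst S a) {M : ℕ} (x : ∀ i, Fin (M + 1) → S.L i)
    (hx1 : S.Sm fun i => (Module.finrank (coords k (x i)) (S.L i) : ℤ)) {l0 : Fin (M + 1)}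
    (hl0 : ∀ᶠ i in (S.U : Filter S.I), x i l0 ≠ 0) (j1 : Fin (M + 1))
    (hu : ∀ a, S.mf (fun i => x i j1 / x i l0) ≠ cst S a) (N : Fin (M + 1) → ℕ)
    (f : ∀ j, Fin (N j + 1) → Polynomial (CF S)) (hf0 : ∀ j, f j (Fin.last _) ≠ 0)
    (hf : ∀ j, ∑ r, Polynomial.aeval (S.mf fun i => x i j1 / x i l0) (f j r) *
      (S.mf fun i => x i j / x i l0) ^ (r : ℕ) = 0) :
    SmE (S := S) fun i => x i j1 / x i l0 := by
  classical
  choose p hp1 hp2 using fun j r => exists_rep S halg (f j r) fun i => x i j1 / x i l0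
  have h1 : ∀ j, ∀ᶠ i in (S.U : Filter S.I),
      ∑ r, Polynomial.aeval (x i j1 / x i l0) (p j r i) * (x i j / x i l0) ^ (r : ℕ) = 0 := by
    intro j
    have h2 := hf j
    have h3 : ∑ r, Polynomial.aeval (S.mf fun i => x i j1 / x i l0) (f j r) *
        (S.mf fun i => x i j / x i l0) ^ (r : ℕ) = S.mf fun i => ∑ r : Fin (N j + 1),
          Polynomial.aeval (x i j1 / x i l0) (p j r i) * (x i j / x i l0) ^ (r : ℕ) := by
      rw [mf_sum]
      refine Finset.sum_congr rfl fun r _ => ?_
      rw [hp1, ← map_pow, ← map_mul]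
      rfl
    rw [h3, S.mf_eq_zero] at h2
    exact h2
  have h2 : ∀ᶠ i in (S.U : Filter S.I), hgt k (x i j1 / x i l0) ≤
      ((∏ j, N j : ℕ) : ℤ) * Module.finrank (coords k (x i)) (S.L i) := by
    filter_upwards [eventually_all.2 h1, eventually_all.2 fun j => hp2 j (Fin.last _) (hf0 j),
      ev_transcendental S _ hu, hl0] with i hi1 hi2 htr hi4
    exact hgt_le_prod htr (fun j => x i j / x i l0) ⟨j1, rfl⟩ _ (adjoin_div hi4) N
      (fun j r => p j r i) hi2 hi1
  exact Fam.Sm.mono (Fam.Sm.mul hx1 (∏ j, N j)) h2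

end Pool.Agent.U582.NP
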