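import Mathlib

/-!
Relations between functions on a curve.
-/

set_option autoImplicit false

namespace Pool.Agent.U582.NP

open Cardinal

theorem exists_rel {κ K : Type} [Field κ] [Field K] [Algebra κ K] {J : Type} (y : J → K)
    (hgen : IntermediateField.adjoin κ (Set.range y) = ⊤) (htr : Algebra.trdeg κ K = (1 : ℕ)) :
    ∃ j1, Transcendental κ (y j1) ∧
      Algebra.IsAlgebraic (IntermediateField.adjoin κ {y j1}) K ∧
      ∀ j, ∃ (N : ℕ) (f : Fin (N + 1) → Polynomial κ), f (Fin.last N) ≠ 0 ∧
        ∑ r, Polynomial.aeval (y j1) (f r) * y j ^ (r : ℕ) = 0 := by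
  classical
  obtain ⟨j1, hj1⟩ : ∃ j1, Transcendental κ (y j1) := by
    by_contra hcon
    push Not at hcon
    have h1 : Algebra.IsAlgebraic κ (IntermediateField.adjoin κ (Set.range y)) := by
      apply IntermediateField.isAlgebraic_adjoin
      rintro _ ⟨j, rfl⟩
      exact (not_not.1 (hcon j)).isIntegral
    have h2 : Algebra.IsAlgebraic κ K := by
      refine ⟨fun v => ?_⟩
      have h3 : v ∈ IntermediateField.adjoin κ (Set.range y) := by
        rw [hgen]
        exact IntermediateField.mem_top
      exact (h1.isAlgebraic ⟨v, h3⟩).algebraMap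
    have h4 := (_root_.trdeg_eq_zero_iff (R := κ) (A := K)).2 h2
    rw [h4] at htr
    norm_num at htr
  have hind : AlgebraicIndependent κ (fun _ : Fin 1 => y j1) :=
    algebraicIndependent_unique_type_iff.2 hj1
  have htb : IsTranscendenceBasis κ (fun _ : Fin 1 => y j1) := by
    refine hind.isTranscendenceBasis_of_trdeg_le_of_finite ?_
    rw [htr]
    simp
  have hrg : Set.range (fun _ : Fin 1 => y j1) = {y j1} := Set.range_const
  refine ⟨j1, hj1, ?_, fun j => ?_⟩
  · have h1 := htb.isAlgebraic_field
    rwa [hrg] at h1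
  · have h1 := htb.isAlgebraic
    rw [hrg] at h1
    obtain ⟨q, hq, h0⟩ := h1.isAlgebraic (y j)
    have h2 : ∀ r, ∃ f : Polynomial κ, Polynomial.aeval (y j1) f = (q.coeff r : K) := by
      intro r
      have h3 : ∀ w : K, w ∈ Algebra.adjoin κ {y j1} → ∃ f : Polynomial κ,
          Polynomial.aeval (y j1) f = w := by
        intro w hw
        rw [Algebra.adjoin_singleton_eq_range_aeval] at hw
        exact hw
      exact h3 _ (q.coeff r).2
    choose f hf using h2
    refine ⟨q.natDegree, fun r => f r, ?_, ?_⟩
    · intro h3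
      have h4 := hf q.natDegree
      change f ((Fin.last q.natDegree : Fin (q.natDegree + 1)) : ℕ) = 0 at h3
      rw [Fin.val_last] at h3
      rw [h3, map_zero] at h4
      apply hq
      rw [← Polynomial.leadingCoeff_eq_zero]
      exact Subtype.ext h4.symm
    · rw [Polynomial.aeval_eq_sum_range, Finset.sum_range] at h0
      rw [← h0]
      refine Finset.sum_congr rfl fun r _ => ?_
      rw [hf, Algebra.smul_def]
      rfl

end Pool.Agent.U582.NP
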