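import Mathlib
import Pool.Agent.N131.FM.Asm

/-!
The main estimate for sequences of points of a variety over a field of small elements.
-/

set_option autoImplicit false

namespace Pool.Agent.U582.NP

open FF Filter MvPolynomial Pool.Agent.W603.LV Pool.Agent.W603.PV
open Pool.Agent.N131 Pool.Agent.N131.FM
open Pool.Agent.N131.MV (PV gen1 W1 R0 Inv Ri RegP LogP)
open Pool.Agent.N131.SV (S_KEY)
open Pool.Agent.W602.GT (Divisorial IsPluri RegAt LogAt)
open Pool.Agent.N131.FM.Fam (SmS rp po hp ObE SmE mem_obf mem_smf DM_obf DM_smf)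

variable {k F : Type} [Field k] [IsAlgClosed k] [CharZero k] [Field F] [Algebra k F] [IsFF k F]

/-- **The main estimate.** -/
theorem main_seq0 (hBAL : MV.S_BAL) (hCAL : MV.S_CAL) (hSMS : S_SMS) (hFRB : S_FRB)
    (hFLD : S_FLD) (hZG : S_ZG) (hPRX : S_PRX) (hGPT : S_GPT) (hKEY : S_KEY)
    (S : Fam k F) {n : ℕ} {g : Fin (n + 1) → S.Sq}
    (hg : ∀ i, LinearIndependent k fun j => g j i)
    (hOB : ∀ i j, ObE (S := S) fun m => g i m / g j m)
    (hN : SmS S fun i => FV.osc k fun j => g j i)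
    {κ₀ : Type} [Field κ₀] [Algebra κ₀ S.smf]
    {K : Type} [Field K] [Algebra κ₀ K] {w : ℕ} (hw : 0 < w) (htr : Algebra.trdeg κ₀ K = w)
    (ψ : K →+* S.MF)
    (hψ0 : ∀ c : κ₀, ψ (algebraMap κ₀ K c) = ((algebraMap κ₀ S.smf c : S.smf) : S.MF))
    (X : Finset K) (hX : IntermediateField.adjoin κ₀ (X : Set K) = ⊤)
    (hXob : ∀ x ∈ X, ψ x ∈ S.obf)
    (hXalg : ∀ x ∈ X, IsAlgebraic (IntermediateField.adjoin S.smf
      (Set.range fun j => S.mf (g j) / S.mf (g 0))) (ψ x))
    {N : ℕ} {ι J : Type} [Finite ι] [Finite J] (ω : ι → (Fin w → Derivation κ₀ K K) → K)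
    (Pos Neg : J → Finset K) (hpl : ∀ i, IsPluri N (ω i))
    (hlog : ∀ P : Place κ₀ K, Divisorial w P → ∀ i, LogAt P (ω i))
    (hreg : ∀ P : Place κ₀ K, Divisorial w P →
      (¬ ∃ j, (∀ x ∈ Pos j, P.Reg x) ∧ ∀ x ∈ Neg j, Ge P 1 x) → ∀ i, RegAt P (ω i))
    (Z : ∀ i, Set (Place k (S.L i))) (hZ : ∀ z : ∀ i, Place k (S.L i),
      (∃ j, (∀ x ∈ Pos j, ψ x ∈ hp z) ∧
      ∀ x ∈ Neg j, ψ x ∈ (hp z).nonunits) → ∀ᶠ i in (S.U : Filter S.I), z i ∈ Z i)
    {x : Fin w → K} (hx : IsTranscendenceBasis κ₀ x) {E : Fin w → Derivation κ₀ K K}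
    (hE : ∀ i j, E i (x j) = if i = j then 1 else 0) :
    ∃ (G : ι → S.MF) (δ : S.MF), δ ≠ 0 ∧ (∀ i, G i = ψ (ω i E) * δ) ∧
      ∃ (C r : ℕ) (c : Fin r → S.MF) (B : ∀ i, Set (Place k (S.L i))),
        (∀ l, c l ∈ S.smf) ∧ SmS S B ∧
        ∀ᶠ i in (S.U : Filter S.I), ∀ P i',
          -((N : ℤ) * (Z i).indicator (1 : Place k (S.L i) → ℤ) P +
            C * (B i).indicator (1 : Place k (S.L i) → ℤ) P + C * |vo P (S.D i)| +
            C * ∑ l, po (c l) i P) ≤ P.ord (rp (G i') i) := by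
  classical
  obtain ⟨Fd, D, U', ρ', ℓ', A, hPV, hcoe, hXF, hFob, hess, hgen⟩ :=
    pvdata hSMS hFRB hFLD S hg hOB hN (X.image ψ) (by
      intro y hy
      obtain ⟨x, hx, rfl⟩ := Finset.mem_image.1 hy
      exact hXob x hx) (by
      intro y hy
      obtain ⟨x, hx, rfl⟩ := Finset.mem_image.1 hy
      exact hXalg x hx)
  have hψF : ∀ x : K, ψ x ∈ Fd := by
    intro x
    let T : IntermediateField κ₀ K :=
      { carrier := {x | ψ x ∈ Fd}
        mul_mem' := fun {a b} ha hb => by
          change ψ (a * b) ∈ Fd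
          rw [map_mul]
          exact mul_mem ha hb
        one_mem' := by
          change ψ 1 ∈ Fd
          rw [map_one]
          exact one_mem _
        add_mem' := fun {a b} ha hb => by
          change ψ (a + b) ∈ Fd
          rw [map_add]
          exact add_mem ha hb
        zero_mem' := by
          change ψ 0 ∈ Fd
          rw [map_zero]
          exact zero_mem _
        algebraMap_mem' := fun c => by
          change ψ (algebraMap κ₀ K c) ∈ Fd
          rw [hψ0]
          exact Fd.algebraMap_mem _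
        inv_mem' := fun a ha => by
          change ψ a⁻¹ ∈ Fd
          rw [map_inv₀]
          exact inv_mem ha }
    have h1 : IntermediateField.adjoin κ₀ (X : Set K) ≤ T := by
      rw [IntermediateField.adjoin_le_iff]
      intro y hy
      exact hXF _ (Finset.mem_image_of_mem ψ hy)
    have h2 : x ∈ T := by
      apply h1
      rw [hX]
      exact IntermediateField.mem_top
    exact h2
  let φ : K →+* Fd :=
    { toFun := fun x => ⟨ψ x, hψF x⟩
      map_one' := Subtype.ext (map_one ψ)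
      map_mul' := fun x y => Subtype.ext (map_mul ψ x y)
      map_zero' := Subtype.ext (map_zero ψ)
      map_add' := fun x y => Subtype.ext (map_add ψ x y) }
  let _ : Algebra K Fd := φ.toAlgebra
  have hφ : ∀ x : K, ((algebraMap K Fd x : Fd) : S.MF) = ψ x := fun x => rfl
  let _ : Algebra κ₀ Fd := ((algebraMap S.smf Fd).comp (algebraMap κ₀ S.smf)).toAlgebra
  have : IsScalarTower κ₀ S.smf Fd := IsScalarTower.of_algebraMap_eq fun c => rfl
  have : IsScalarTower κ₀ K Fd := IsScalarTower.of_algebraMap_eq fun c => Subtype.ext (by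
    rw [hφ, hψ0]
    rfl)
  have hessK : Algebra.EssFiniteType κ₀ K := IntermediateField.fg_top_iff.1 ⟨X, hX⟩
  have hFc : CharZero F := charZero_of_injective_algebraMap (algebraMap k F).injective
  have hκc : CharZero κ₀ :=
    ⟨fun a b h => by
      have h1 := congrArg (algebraMap κ₀ S.smf) h
      rw [map_natCast, map_natCast] at h1
      have hsc : CharZero S.smf :=
        charZero_of_injective_algebraMap (algebraMap F S.smf).injective
      exact Nat.cast_injective h1⟩
  have hsc : CharZero S.smf := charZero_of_injective_algebraMap (algebraMap F S.smf).injective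
  have hFdc : CharZero Fd := charZero_of_injective_algebraMap (algebraMap S.smf Fd).injective
  have := hess
  obtain ⟨hmono, hunion, hempty, hpoles, -, hbad⟩ := hSMS k F S
  obtain ⟨d, hd⟩ : ∃ d : ℕ, Algebra.trdeg S.smf Fd = d :=
    Cardinal.lt_aleph0.1 (trdeg_lt_aleph0 S.smf Fd)
  rcases d with - | m
  · -- the algebraic case
    have halg : Algebra.IsAlgebraic S.smf Fd := by
      rw [← _root_.trdeg_eq_zero_iff, hd]
      simp
    have hsm : ∀ y : Fd, (y : S.MF) ∈ S.smf := by
      intro y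
      obtain ⟨c, hc⟩ := hPV.alg y (halg.isAlgebraic y)
      rw [← hc]
      exact c.2
    have hsm' : ∀ i, ψ (ω i E) ∈ S.smf := fun i => hsm (algebraMap K Fd (ω i E))
    obtain ⟨r, ⟨e⟩⟩ := Finite.exists_equiv_fin ι
    refine ⟨fun i => ψ (ω i E), 1, one_ne_zero, fun i => (mul_one _).symm, 1, r,
      fun l => ψ (ω (e.symm l) E), fun _ => ∅, fun l => hsm' _, hempty, ?_⟩
    refine Eventually.of_forall fun k' P i => ?_
    have h1 := le_po (ψ (ω i E)) k' P
    have h2 : po (ψ (ω i E)) k' P ≤ ∑ l, po (ψ (ω (e.symm l) E)) k' P := by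
      have h3 := Finset.single_le_sum (f := fun l => po (ψ (ω (e.symm l) E)) k' P)
        (fun l _ => po_nonneg _ k' P) (Finset.mem_univ (e i))
      simpa using h3
    have h3 : (0 : ℤ) ≤ (N : ℤ) * (Z k').indicator (1 : Place k (S.L k') → ℤ) P :=
      mul_nonneg (by positivity) (Set.indicator_nonneg (fun _ _ => zero_le_one) _)
    have h4 : (0 : ℤ) ≤ ((1 : ℕ) : ℤ) * (∅ : Set (Place k (S.L k'))).indicator
        (1 : Place k (S.L k') → ℤ) P :=
      mul_nonneg (by positivity) (Set.indicator_nonneg (fun _ _ => zero_le_one) _)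
    have h5 : (0 : ℤ) ≤ ((1 : ℕ) : ℤ) * |vo P (S.D k')| := by positivity
    push_cast at h4 h5 ⊢
    linarith
  · -- the transcendental case
    obtain ⟨δ, hδ, hA, hB⟩ := hKEY κ₀ S.smf K Fd m w hw hd htr (Inv S.smf D) hPV.inv_span N ι J ω
      Pos Neg hpl hlog hreg x hx E hE
    obtain ⟨T, Gs, hGs, hV⟩ := hCAL k S.smf Fd D n U' ρ' ℓ' A hPV m hd ι J
      (fun i => algebraMap K Fd (ω i E) * δ) N (fun j => (Pos j).image (algebraMap K Fd))
      (fun j => (Neg j).image (algebraMap K Fd)) (by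
        intro P s hs hP
        rcases hA P s hs hP with h1 | ⟨⟨j, h2, h3⟩, h4⟩
        · exact Or.inl h1
        · refine Or.inr ⟨⟨j, ?_, ?_⟩, h4⟩
          · intro y hy
            obtain ⟨x, hx, rfl⟩ := Finset.mem_image.1 hy
            exact h2 x hx
          · intro y hy
            obtain ⟨x, hx, rfl⟩ := Finset.mem_image.1 hy
            exact h3 x hx)
    obtain ⟨l, b, J', hl, hb0, hbW, hint⟩ := hBAL k S.smf Fd D n U' ρ' ℓ' A hPV m hd ι
      (fun i => algebraMap K Fd (ω i E) * δ) fun P s hs hP i => hB P s hs hP i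
    -- a spanning family
    have hWfin : Module.Finite S.smf ↥(W1 S.smf U' ρ' ^ l) := MV.pow_fin MV.W1_fin l
    obtain ⟨q, y, hy⟩ := Submodule.fg_iff_exists_fin_generating_family.1
      (Module.Finite.iff_fg.1 hWfin)
    have hyne : ∃ i0, y i0 ≠ 0 := by
      by_contra hcon
      push Not at hcon
      have h1 : Submodule.span S.smf (Set.range y) = ⊥ := by
        rw [Submodule.span_eq_bot]
        rintro _ ⟨i, rfl⟩
        exact hcon i
      rw [hy] at h1
      rw [h1, Submodule.mem_bot] at hbW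
      exact hb0 hbW
    have hprx : ∀ i, ∃ (C r : ℕ) (c : Fin r → S.MF), (∀ l, c l ∈ S.smf) ∧
        ∀ᶠ k' in (S.U : Filter S.I), ∀ P : Place k (S.L k'),
          -((C : ℤ) * (1 + |vo P (S.D k')| + ∑ l, po (c l) k' P)) ≤
            P.ord (rp ((algebraMap K Fd (ω i E) * δ : Fd) : S.MF) k') := by
      intro i
      refine hPRX k F S q J' (b : S.MF) (fun a => (y a : S.MF)) _
        (fun h => hb0 (Subtype.ext h)) ?_ ?_
      · obtain ⟨i0, hi0⟩ := hyne
        exact ⟨i0, fun h => hi0 (Subtype.ext h)⟩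
      · intro i0 hi0
        obtain ⟨p, hp1, hp2⟩ := hint q y hy i0 (fun h => hi0 (by rw [h]; rfl)) i
        refine ⟨p, hp1, ?_⟩
        have h1 := congrArg (algebraMap Fd S.MF) hp2
        rw [map_zero, Polynomial.hom_eval₂] at h1
        rw [← h1]
        congr 1
        apply MvPolynomial.ringHom_ext
        · intro c
          change aeval _ (MvPolynomial.C c) = algebraMap Fd S.MF (aeval _ (MvPolynomial.C c))
          rw [aeval_C, aeval_C]
          rfl
        · intro v
          change aeval _ (MvPolynomial.X v) = algebraMap Fd S.MF (aeval _ (MvPolynomial.X v))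
          rw [aeval_X, aeval_X]
          rcases v with a | j
          · simp only [Sum.elim_inl]
            rfl
          · simp only [Sum.elim_inr]
            have h2 := coe_iter hcoe (j : ℕ) b
            change S.DM^[(j : ℕ)] (b : S.MF) / (b : S.MF) = ((D^[(j : ℕ)] b / b : Fd) : S.MF)
            rw [← h2]
            rfl
    choose C0 r0 c0 hc0 hpo using hprx
    -- the exceptional set
    let BT : ∀ i, Set (Place k (S.L i)) := fun i => {P | ∃ c ∈ T, ¬ Ge P 0 (rp (c : S.MF) i)}
    let Bg : ∀ i, Set (Place k (S.L i)) := fun i =>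
      {P | ∃ p, ¬ Ge P 0 (rp ((gen1 U' ρ' p : Fd) : S.MF) i)}
    let BG : ∀ i, Set (Place k (S.L i)) := fun i =>
      {P | ∃ G ∈ Gs, ∀ x ∈ G, Ge P 1 (rp ((x : Fd) : S.MF) i)}
    let BD : ∀ i, Set (Place k (S.L i)) := fun i => {P | vo P (S.D i) ≠ 0}
    have hBT : SmS S BT := sms_finset hSMS T (fun c i => {P | ¬ Ge P 0 (rp (c : S.MF) i)})
      fun c _ => hpoles c c.2
    have hBG : SmS S BG := sms_finset hSMS Gs
      (fun G i => {P | ∀ x ∈ G, Ge P 1 (rp ((x : Fd) : S.MF) i)}) fun G hG =>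
        hZG k F S Fd D n U' ρ' ℓ' A hcoe hFob hPV hess m hd hgen G (hGs G hG).1 (hGs G hG).2
    let BB : ∀ i, Set (Place k (S.L i)) := fun i => ((BT i ∪ Bg i) ∪ BG i) ∪ BD i
    have hBB : SmS S BB := hunion _ _ (hunion _ _ (hunion _ _ hBT hgen) hBG) hbad
    have hgpt := hGPT k F S Fd D hcoe _ ι J (gen1 U' ρ') T
      (fun j => (Pos j).image (algebraMap K Fd)) (fun j => (Neg j).image (algebraMap K Fd))
      (fun i => algebraMap K Fd (ω i E) * δ) N (Gs.image fun G => G.image Subtype.val) (by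
        intro V h1 h2 h3
        rcases hV V h1 h2 h3 with h4 | h4 | ⟨G, hG, h4⟩
        · exact Or.inl h4
        · exact Or.inr (Or.inl h4)
        · refine Or.inr (Or.inr ⟨G.image Subtype.val, Finset.mem_image_of_mem _ hG, ?_⟩)
          intro x hx
          obtain ⟨x', hx', rfl⟩ := Finset.mem_image.1 hx
          exact h4 x' hx') BB Z
      (by
        refine Eventually.of_forall fun i P hP => ?_
        by_contra h1
        exact hP (Or.inr h1))
      (by
        intro c hc
        refine Eventually.of_forall fun i P hP => ?_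
        by_contra h1
        exact hP (Or.inl (Or.inl (Or.inl ⟨c, hc, h1⟩))))
      (by
        intro p
        refine Eventually.of_forall fun i P hP => ?_
        by_contra h1
        exact hP (Or.inl (Or.inl (Or.inr ⟨p, h1⟩))))
      (by
        intro G hG
        obtain ⟨G', hG', rfl⟩ := Finset.mem_image.1 hG
        refine Eventually.of_forall fun i P hP => ?_
        by_contra h1
        push Not at h1
        exact hP (Or.inl (Or.inr ⟨G', hG', fun x hx => h1 _ (Finset.mem_image_of_mem _ hx)⟩)))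
      (by
        rintro z ⟨j, h1, h2⟩
        refine hZ z ⟨j, fun x hx => ?_, fun x hx => ?_⟩
        · exact h1 _ (Finset.mem_image_of_mem _ hx)
        · exact h2 _ (Finset.mem_image_of_mem _ hx))
    -- the result
    obtain ⟨r, ⟨e⟩⟩ := Finite.exists_equiv_fin (Σ i, Fin (r0 i))
    have := Fintype.ofFinite ι
    refine ⟨fun i => ψ (ω i E) * (δ : S.MF), (δ : S.MF), fun h => hδ (Subtype.ext h),
      fun i => rfl, ∑ i, C0 i, r, fun l => c0 (e.symm l).1 (e.symm l).2,
      BB, fun l => hc0 _ _, hBB, ?_⟩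
    filter_upwards [hgpt, eventually_all.2 hpo] with k' hk1 hk2 P i
    have hN0 : (0 : ℤ) ≤ (N : ℤ) * (Z k').indicator (1 : Place k (S.L k') → ℤ) P :=
      mul_nonneg (by positivity) (Set.indicator_nonneg (fun _ _ => zero_le_one) _)
    have hs0 : (0 : ℤ) ≤ ∑ l, po (c0 (e.symm l).1 (e.symm l).2) k' P :=
      Finset.sum_nonneg fun _ _ => po_nonneg _ _ _
    have hC0 : (0 : ℤ) ≤ ((∑ i, C0 i : ℕ) : ℤ) := by positivity
    have hB0 : (0 : ℤ) ≤ (BB k').indicator (1 : Place k (S.L k') → ℤ) P :=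
      Set.indicator_nonneg (fun _ _ => zero_le_one) _
    have hv0 : (0 : ℤ) ≤ |vo P (S.D k')| := abs_nonneg _
    have hCs : (0 : ℤ) ≤ ((∑ i, C0 i : ℕ) : ℤ) * ∑ l, po (c0 (e.symm l).1 (e.symm l).2) k' P :=
      mul_nonneg hC0 hs0
    have hCv : (0 : ℤ) ≤ ((∑ i, C0 i : ℕ) : ℤ) * |vo P (S.D k')| := mul_nonneg hC0 hv0
    by_cases hz : P ∈ BB k'
    · have h1 := hk2 i P
      have h2 : (C0 i : ℤ) ≤ ((∑ i, C0 i : ℕ) : ℤ) := by
        exact_mod_cast Finset.single_le_sum (f := C0) (fun _ _ => Nat.zero_le _)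
          (Finset.mem_univ i)
      have h3 : ∑ l, po (c0 i l) k' P ≤ ∑ l, po (c0 (e.symm l).1 (e.symm l).2) k' P := by
        have h4 : ∑ l, po (c0 (e.symm l).1 (e.symm l).2) k' P =
            ∑ i, ∑ l, po (c0 i l) k' P := by
          rw [← Fintype.sum_sigma' (fun i l => po (c0 i l) k' P)]
          exact e.symm.sum_comp fun v => po (c0 v.1 v.2) k' P
        rw [h4]
        exact Finset.single_le_sum (f := fun i => ∑ l, po (c0 i l) k' P)
          (fun _ _ => Finset.sum_nonneg fun _ _ => po_nonneg _ _ _) (Finset.mem_univ i)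
      have h5 : (0 : ℤ) ≤ ∑ l, po (c0 i l) k' P := Finset.sum_nonneg fun _ _ => po_nonneg _ _ _
      rw [Set.indicator_of_mem hz, Pi.one_apply, mul_one]
      have h6 : (C0 i : ℤ) * (1 + |vo P (S.D k')| + ∑ l, po (c0 i l) k' P) ≤
          ((∑ i, C0 i : ℕ) : ℤ) *
            (1 + |vo P (S.D k')| + ∑ l, po (c0 (e.symm l).1 (e.symm l).2) k' P) := by
        apply mul_le_mul h2 (by linarith) (by linarith) hC0
      have h7 : -((C0 i : ℤ) * (1 + |vo P (S.D k')| + ∑ l, po (c0 i l) k' P)) ≤
        P.ord (rp (ψ (ω i E) * (δ : S.MF)) k') := h1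
      rw [mul_add, mul_add, mul_one] at h6
      linarith
    · rw [Set.indicator_of_notMem hz, mul_zero]
      have hge : ∀ {m : ℤ} {a : S.L k'}, m ≤ 0 → Ge P m a → m ≤ P.ord a := by
        rintro m a hm (h1 | h1)
        · rw [h1, P.ord_zero]
          exact hm
        · exact h1
      rcases hk1 P hz with h1 | ⟨h1, h2⟩
      · have h3 : 0 ≤ P.ord (rp (ψ (ω i E) * (δ : S.MF)) k') := hge le_rfl (h1 i)
        linarith
      · have h3 : -(N : ℤ) ≤ P.ord (rp (ψ (ω i E) * (δ : S.MF)) k') := hge (by omega) (h2 i)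
        rw [Set.indicator_of_mem h1, Pi.one_apply, mul_one]
        linarith

end Pool.Agent.U582.NP
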