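import Mathlib
import Pool.Agent.U582.NP.Main
import Pool.Agent.N131.FM.Fin3
import Pool.Agent.NH29.GN.Hg

/-!
Values of functions on varieties of logarithmic general type along sequences of points.
-/

set_option autoImplicit false

namespace Pool.Agent.U582.NP

open FF Filter MvPolynomial Pool.Agent.W603.LV Pool.Agent.W603.PV
open Pool.Agent.N131 Pool.Agent.N131.FM
open Pool.Agent.N131.SV (S_KEY t_KEY)
open Pool.Agent.W602.GT (Divisorial IsPluri RegAt LogAt LogGeneralType)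
open Pool.Agent.N131.FM.Fam (SmS rp po hp ObE SmE mem_obf mem_smf DM_obf DM_smf smf_le_obf mem_hp
  mem_hp_nonunits rp_mf mf_rp)
open Pool.Agent.N131.FV (mo mo_le exists_mo ge_mo mo_finite osc sp exists_basis osc_finite avo
  avo_nonneg avo_finset avo_le)

variable {k F : Type} [Field k] [IsAlgClosed k] [CharZero k] [Field F] [Algebra k F] [IsFF k F]

/-- the main estimate, with all parts -/
theorem main_all (S : Fam k F) {n : ℕ} {g : Fin (n + 1) → S.Sq}
    (hg : ∀ i, LinearIndependent k fun j => g j i)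
    (hOB : ∀ i j, ObE (S := S) fun m => g i m / g j m)
    (hN : SmS S fun i => FV.osc k fun j => g j i)
    {κ₀ : Type} [Field κ₀] [Algebra κ₀ S.smf]
    {K : Type} [Field K] [Algebra κ₀ K] {w : ℕ} (hw : 0 < w) (htr : Algebra.trdeg κ₀ K = w)
    (ψ : K →+* S.MF)
    (hψ0 : ∀ c : κ₀, ψ (algebraMap κ₀ K c) = ((algebraMap κ₀ S.smf c : S.smf) : S.MF))
    (X : Finset K) (hX : IntermediateField.adjoin κ₀ (X : Set K) = ⊤)
    (hXob : ∀ x ∈ X, ψ x ∈ S.obf)
    (hXalg : ∀ x ∈ X, IsAlgebraic (IntermediateField.adjoin S.smf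
      (Set.range fun j => S.mf (g j) / S.mf (g 0))) (ψ x))
    {N : ℕ} {ι J : Type} [Finite ι] [Finite J] (ω : ι → (Fin w → Derivation κ₀ K K) → K)
    (Pos Neg : J → Finset K) (hpl : ∀ i, IsPluri N (ω i))
    (hlog : ∀ P : Place κ₀ K, Divisorial w P → ∀ i, LogAt P (ω i))
    (hreg : ∀ P : Place κ₀ K, Divisorial w P →
      (¬ ∃ j, (∀ x ∈ Pos j, P.Reg x) ∧ ∀ x ∈ Neg j, Ge P 1 x) → ∀ i, RegAt P (ω i))
    (Z : ∀ i, Set (Place k (S.L i))) (hZ : ∀ z : ∀ i, Place k (S.L i),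
      (∃ j, (∀ x ∈ Pos j, ψ x ∈ hp z) ∧
      ∀ x ∈ Neg j, ψ x ∈ (hp z).nonunits) → ∀ᶠ i in (S.U : Filter S.I), z i ∈ Z i)
    {x : Fin w → K} (hx : IsTranscendenceBasis κ₀ x) {E : Fin w → Derivation κ₀ K K}
    (hE : ∀ i j, E i (x j) = if i = j then 1 else 0) :
    ∃ (G : ι → S.MF) (δ : S.MF), δ ≠ 0 ∧ (∀ i, G i = ψ (ω i E) * δ) ∧
      ∃ (C r : ℕ) (c : Fin r → S.MF) (B : ∀ i, Set (Place k (S.L i))),
        (∀ l, c l ∈ S.smf) ∧ SmS S B ∧
        ∀ᶠ i in (S.U : Filter S.I), ∀ P i',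
          -((N : ℤ) * (Z i).indicator (1 : Place k (S.L i) → ℤ) P +
            C * (B i).indicator (1 : Place k (S.L i) → ℤ) P + C * |vo P (S.D i)| +
            C * ∑ l, po (c l) i P) ≤ P.ord (rp (G i') i) :=
  main_seq0 (MV.t_BAL MV.t_INT) (MV.t_CAL MV.t_ORD) t_SMS t_FRB (t_FLD t_MFB)
    (t_ZG MV.t_GCD t_SMS) t_PRX t_GPT t_KEY S hg hOB hN hw htr ψ hψ0 X hX hXob hXalg ω Pos Neg
    hpl hlog hreg Z hZ hx hE

/-- algebraic elements over the image of a field with small values -/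
theorem alg_small (S : Fam k F) {κ₀ : Type} [Field κ₀] [Algebra κ₀ S.smf]
    {K : Type} [Field K] [Algebra κ₀ K] (ψ : K →+* S.MF)
    (hψ0 : ∀ c : κ₀, ψ (algebraMap κ₀ K c) = ((algebraMap κ₀ S.smf c : S.smf) : S.MF))
    (T : Set K) (hT : ∀ t ∈ T, ψ t ∈ S.smf) {x : K}
    (hx : IsAlgebraic (IntermediateField.adjoin κ₀ T) x) : ψ x ∈ S.smf := by
  let W : IntermediateField κ₀ K :=
    { carrier := {x | ψ x ∈ S.smf}
      mul_mem' := fun {a b} ha hb => by
        change ψ (a * b) ∈ S.smf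
        rw [map_mul]
        exact mul_mem ha hb
      one_mem' := by
        change ψ 1 ∈ S.smf
        rw [map_one]
        exact one_mem _
      add_mem' := fun {a b} ha hb => by
        change ψ (a + b) ∈ S.smf
        rw [map_add]
        exact add_mem ha hb
      zero_mem' := by
        change ψ 0 ∈ S.smf
        rw [map_zero]
        exact zero_mem _
      algebraMap_mem' := fun c => by
        change ψ (algebraMap κ₀ K c) ∈ S.smf
        rw [hψ0]
        exact Subtype.property _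
      inv_mem' := fun a ha => by
        change ψ a⁻¹ ∈ S.smf
        rw [map_inv₀]
        exact inv_mem ha }
  have h1 : IntermediateField.adjoin κ₀ T ≤ W := by
    rw [IntermediateField.adjoin_le_iff]
    exact fun t ht => hT t ht
  let σ : IntermediateField.adjoin κ₀ T →+* S.smf :=
    { toFun := fun x => ⟨ψ x, h1 x.2⟩
      map_one' := Subtype.ext (map_one ψ)
      map_mul' := fun x y => Subtype.ext (map_mul ψ (x : K) (y : K))
      map_zero' := Subtype.ext (map_zero ψ)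
      map_add' := fun x y => Subtype.ext (map_add ψ (x : K) (y : K)) }
  refine (t_MFB k F S).2 _ ?_
  obtain ⟨p, hp, hpx⟩ := hx
  refine ⟨p.map σ, (Polynomial.map_ne_zero_iff σ.injective).2 hp, ?_⟩
  rw [Polynomial.aeval_def, Polynomial.eval₂_map]
  have h2 : (algebraMap S.smf S.MF).comp σ =
      (ψ : K →+* S.MF).comp (algebraMap (IntermediateField.adjoin κ₀ T) K) :=
    RingHom.ext fun x => rfl
  rw [h2]
  have h3 := Polynomial.hom_eval₂ p (algebraMap (IntermediateField.adjoin κ₀ T) K) ψ x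
  rw [Polynomial.aeval_def] at hpx
  rw [hpx, map_zero] at h3
  exact h3.symm

/-- **All values are small.** -/
theorem small_of_lgt (S : Fam k F) {n : ℕ} {g : Fin (n + 1) → S.Sq}
    (hg : ∀ i, LinearIndependent k fun j => g j i)
    (hOB : ∀ i j, ObE (S := S) fun m => g i m / g j m)
    (hN : SmS S fun i => FV.osc k fun j => g j i)
    {κ₀ : Type} [Field κ₀] [Algebra κ₀ S.smf]
    {K : Type} [Field K] [Algebra κ₀ K] {w : ℕ} (hw : 0 < w)
    (ψ : K →+* S.MF)
    (hψ0 : ∀ c : κ₀, ψ (algebraMap κ₀ K c) = ((algebraMap κ₀ S.smf c : S.smf) : S.MF))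
    (X : Finset K) (hX : IntermediateField.adjoin κ₀ (X : Set K) = ⊤)
    (hXob : ∀ x ∈ X, ψ x ∈ S.obf)
    (hXalg : ∀ x ∈ X, IsAlgebraic (IntermediateField.adjoin S.smf
      (Set.range fun j => S.mf (g j) / S.mf (g 0))) (ψ x))
    {J : Type} [Finite J] (Pos Neg : J → Finset K)
    (hlgt : LogGeneralType κ₀ K w fun P =>
      ∃ j, (∀ x ∈ Pos j, P.Reg x) ∧ ∀ x ∈ Neg j, Ge P 1 x)
    (Z : ∀ i, Set (Place k (S.L i))) (hZs : SmS S Z) (hZ : ∀ z : ∀ i, Place k (S.L i),
      (∃ j, (∀ x ∈ Pos j, ψ x ∈ hp z) ∧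
      ∀ x ∈ Neg j, ψ x ∈ (hp z).nonunits) → ∀ᶠ i in (S.U : Filter S.I), z i ∈ Z i) :
    ∀ x : K, ψ x ∈ S.smf := by
  classical
  obtain ⟨htr, N, hN0, ω, hpl, hlog, hreg, D, hD0, hind⟩ := hlgt
  have hFc : CharZero F := charZero_of_injective_algebraMap (algebraMap k F).injective
  have hsc : CharZero S.smf := charZero_of_injective_algebraMap (algebraMap F S.smf).injective
  have hκc : CharZero κ₀ :=
    ⟨fun a b h => by
      have h1 := congrArg (algebraMap κ₀ S.smf) h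
      rw [map_natCast, map_natCast] at h1
      exact Nat.cast_injective h1⟩
  obtain ⟨x, hx⟩ := Pool.Agent.W602.GT.basis_of_trdeg htr
  obtain ⟨E, hE⟩ := Pool.Agent.W602.GT.exists_dual hx
  have hE' : ∀ i j, E i (x j) = if i = j then 1 else 0 := by
    intro i j
    have h1 := congrFun (congrFun hE i) j
    rwa [Matrix.of_apply, Matrix.one_apply] at h1
  obtain ⟨G, δ, hδ, hGω, C, r, c, B, hc, hB, hord⟩ := main_all S hg hOB hN hw htr ψ hψ0 X hX hXob
    hXalg ω Pos Neg hpl hlog hreg Z hZ hx hE'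
  -- the forms at the dual frame
  obtain ⟨u, hu⟩ : ∃ u : K, ∀ i, ω i D = u * ω i E :=
    ⟨_, fun i => frame_scale (hpl i) hx hE' D⟩
  have hu0 : u ≠ 0 := by
    rintro rfl
    apply hD0
    rw [hu, zero_mul]
  have hE0 : ω 0 E ≠ 0 := by
    intro h
    apply hD0
    rw [hu, h, mul_zero]
  have hratio : ∀ i, ω i D / ω 0 D = ω i E / ω 0 E := by
    intro i
    rw [hu, hu 0, mul_div_mul_left _ _ hu0]
  have hG0 : G 0 ≠ 0 := by
    rw [hGω]
    refine mul_ne_zero ?_ hδ
    rw [Ne, map_eq_zero]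
    exact hE0
  -- the ratios are small
  let R : S.I → ℤ := fun m => N * (Z m).ncard +
    (C * (B m).ncard + C * avo (S.D m) + C * ∑ l, hgt k (rp (c l) m))
  have hR : S.Sm R := by
    refine Fam.Sm.add (Fam.Sm.mul hZs.small N) (Fam.Sm.add (Fam.Sm.add (Fam.Sm.mul hB.small C)
      (Fam.Sm.mul (a := fun m => avo (S.D m)) S.avo_sm C)) (Fam.Sm.mul (Fam.Sm.sum _ fun l _ => ?_) C))
    have h1 := hc l
    rw [← mf_rp (c l), mem_smf] at h1
    exact h1
  have e1 : ∀ᶠ m in (S.U : Filter S.I), rp (G 0) m ≠ 0 := by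
    have h1 : S.mf (rp (G 0)) ≠ 0 := by rw [mf_rp]; exact hG0
    exact S.mf_ne_zero.1 h1
  have e4 : ∀ᶠ m in (S.U : Filter S.I), ht k (fun i => rp (G i) m) ≤ R m := by
    filter_upwards [e1, hB.fin, hZs.fin, hord] with m h1 h5 h5' h6
    obtain ⟨T, hT⟩ := sum_bd (N := N) (C := C) (S.hDn m) h5' h5 (fun l => rp (c l) m)
    have hz := mo_finite (k := k) (x := fun i => rp (G i) m) ⟨0, h1⟩
    have h7 := hT (T ∪ hz.toFinset) Finset.subset_union_left
    have h8 := ht_prop (k := k) (x := fun i => rp (G i) m)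
      (z := fun i => rp (G i) m)
      ⟨0, h1⟩ ⟨0, h1⟩ (fun i j => mul_comm _ _) (T := T ∪ hz.toFinset)
      (fun P hP => Finset.mem_union_right _ ((Set.Finite.mem_toFinset hz).2 hP))
      (fun P _ i => h6 P i)
    exact h8.trans (le_of_eq h7)
  have hsm : ∀ i, ψ (ω i D / ω 0 D) ∈ S.smf := by
    intro i
    have h1 : ψ (ω i D / ω 0 D) = S.mf (fun m => rp (G i) m / rp (G 0) m) := by
      rw [hratio, map_div₀, ← Fam.mf_div, mf_rp, mf_rp, hGω, hGω 0, mul_div_mul_right _ _ hδ]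
    rw [h1, mem_smf]
    refine Fam.Sm.mono hR ?_
    filter_upwards [e1, e4] with m h2 h3
    exact (ratio_le (x := fun i => rp (G i) m) h2 i).trans h3
  -- the functions are algebraic over the ratios
  have hfin : Algebra.trdeg κ₀ K = w := htr
  have htb : IsTranscendenceBasis κ₀ (fun i : Fin w => ω i.succ D / ω 0 D) := by
    refine hind.isTranscendenceBasis_of_trdeg_le_of_finite ?_
    rw [htr]
    simp
  have halg := htb.isAlgebraic_field
  intro y
  refine alg_small S ψ hψ0 (Set.range fun i : Fin w => ω i.succ D / ω 0 D) ?_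
    (halg.isAlgebraic y)
  rintro _ ⟨i, rfl⟩
  exact hsm _

/-- a point whose coordinates have small ratios has small height -/
theorem not_small (S : Fam k F) {M : ℕ} {f : Fin (M + 1) → S.Sq}
    (hht : ∀ᶠ i in (S.U : Filter S.I), S.h i ≤ ht k (fun j => f j i)) {l0 : Fin (M + 1)}
    (hl0 : S.mf (f l0) ≠ 0) (h : ∀ j, S.mf (f j) / S.mf (f l0) ∈ S.smf) : False := by
  have h1 : S.Sm fun m => ∑ j, hgt k (f j m / f l0 m) := by
    refine Fam.Sm.sum _ fun j _ => ?_
    have h2 := h j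
    rw [Fam.mf_div, mem_smf] at h2
    exact h2
  have e0 := S.mf_ne_zero.1 hl0
  obtain ⟨m, h2, h3, h4, h5⟩ := ((h1 2).and (hht.and (e0.and (S.deg_sm 1)))).exists
  have h6 : ht k (fun j => f j m) ≤ ∑ j, hgt k (f j m / f l0 m) :=
    (Pool.Agent.NH29.GN.hg k (S.L m)).2.2.2.2.2 M (fun j => f j m) l0 h4
  have h7 : (0 : ℤ) < Module.finrank F (S.L m) := by exact_mod_cast Module.finrank_pos
  push_cast at h2 h5
  linarith

end Pool.Agent.U582.NP
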