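import Mathlib
import Pool.Agent.W603.PV.Hgt
import Pool.Agent.W603.LV.Ex

/-!
Statements for the project on `n + 1` general components: integral points over function fields.
-/

set_option autoImplicit false

namespace Pool.Agent.U582.NP

open FF MvPolynomial Pool.Agent.W603.LV Pool.Agent.W603.PV

/-- The point `x` over the function field `L` is in `G = 0` for `G ∈ V`, in `H c = 0` for `c ∈ C`,
not in `H b = 0` for the other `b`, and integral outside of `S` with respect to these. -/
structure Int {k A : Type} [Field k] {n : ℕ} (V : Set (MvPolynomial (Fin (n + 1)) k))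
    (H : A → MvPolynomial (Fin (n + 1)) k) (d : A → ℕ)
    (C : Finset A) {L : Type} [Field L] [Algebra k L] (S : Finset (Place k L))
    (x : Fin (n + 1) → L) : Prop where
  ne : x ≠ 0
  onV : ∀ G ∈ V, aeval x G = 0
  zero : ∀ c ∈ C, aeval x (H c) = 0
  nz : ∀ b, b ∉ C → aeval x (H b) ≠ 0
  ord : ∀ b, b ∉ C → ∀ P : Place k L, P ∉ S → P.ord (aeval x (H b)) = d b * pord P x

/-- The degree bound `pht x ≤ c max (canDeg + |S|) m` for integral points. -/
def Bound {k A : Type} [Field k] {n : ℕ} (V : Set (MvPolynomial (Fin (n + 1)) k))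
    (H : A → MvPolynomial (Fin (n + 1)) k) (d : A → ℕ)
    (C : Finset A) (c : ℕ) (m : ℤ) : Prop :=
  ∀ (L : Type) [Field L] [Algebra k L] [IsFF k L] (S : Finset (Place k L)) (x : Fin (n + 1) → L),
    Int V H d C S x → pht (k := k) x ≤ c * max (canDeg k L + S.card) m

/-- Package WS: the weak bound implies the strong one. -/
def S_WS : Prop :=
  ∀ (k : Type) [Field k] [IsAlgClosed k] [CharZero k] (n : ℕ) (A : Type) [Fintype A]
    (V : Set (MvPolynomial (Fin (n + 1)) k))
    (H : A → MvPolynomial (Fin (n + 1)) k) (d : A → ℕ), (∀ a, (H a).IsHomogeneous (d a)) →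
    (∀ a, 0 < d a) → ∀ C : Finset A, (∃ b, b ∉ C) → ∀ c : ℕ, Bound V H d C c 1 →
    Bound V H d C c 0

end Pool.Agent.U582.NP
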