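import Mathlib
import Pool.Agent.NH29.GN.Stm
import Pool.Agent.W603.PV.Hgt
import Pool.Agent.W602.GT.Defs
import Pool.Agent.W602.GT.SpDefs

/-!
Statement for the project on `n + 1` general components: subvarieties of complements of generic
hypersurface sections are of log general type.
-/

set_option autoImplicit false

namespace Pool.Agent.U582.NP

open FF MvPolynomial Pool.Agent.W603.PV Pool.Agent.NH29.GN
open Pool.Agent.W602.GT (coords LogGeneralType)

/-- Package LG: for coefficients `t` which are algebraically independent over `k0`, a variety of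
dimension `w` in `V ∩ {F_c = 0, c ∈ C}`, off `F_b = 0`, `b ∉ C`, with generic point `y` is of
logarithmic general type. -/
def S_LG : Prop :=
  ∀ (k0 κ K : Type) [Field k0] [Field κ] [Field K] [Algebra k0 κ] [Algebra κ K] [IsAlgClosed κ]
    [CharZero κ] (M n q w : ℕ) (V : Set (MvPolynomial (Fin (M + 1)) k0)),
    (∀ H ∈ V, ∃ e, H.IsHomogeneous e) →
    ∀ ℓ : Fin (n + 1) → MvPolynomial (Fin (M + 1)) k0, (∀ j, (ℓ j).IsHomogeneous 1) →
      NoZero V ℓ → ∀ d : Fin q → ℕ, (∀ i, 1 ≤ d i) → ∀ t : Idx M d → κ,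
      AlgebraicIndependent k0 t → ∀ C : Finset (Fin q), 2 * n + 2 ≤ ∑ b, d b + C.card + w →
      0 < w → Algebra.trdeg κ K = w → ∀ y : Fin (M + 1) → K, y ≠ 0 →
      Algebra.IsAlgebraic (coords κ y) K →
      (∀ H ∈ V, eval₂ ((algebraMap κ K).comp (algebraMap k0 κ)) y H = 0) →
      (∀ c ∈ C, fv t y c = 0) → (∀ b, b ∉ C → fv t y b ≠ 0) →
      LogGeneralType κ K w fun Q : Place κ K =>
        ∃ b, b ∉ C ∧ d b * pord Q y < Q.ord (fv t y b)

end Pool.Agent.U582.NP
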