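import Mathlib
import Pool.Agent.U582.NP.Sml
import Pool.Agent.U582.NP.Cst
import Pool.Agent.U582.NP.Alx
import Pool.Agent.U582.NP.Crv
import Pool.Agent.U582.NP.One
import Pool.Agent.U582.NP.Rl
import Pool.Agent.U582.NP.Spec
import Pool.Agent.U582.NP.Spec3

/-!
There are no sequences of integral points of large heights for coefficients which become
algebraically independent.
-/

set_option autoImplicit false

namespace Pool.Agent.U582.NP

open FF Filter MvPolynomial Pool.Agent.W603.LV Pool.Agent.W603.PV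
open Pool.Agent.N131 Pool.Agent.N131.FM
open Pool.Agent.W602.GT (LogGeneralType coords)
open Pool.Agent.N131.FM.Fam (SmS rp po hp ObE SmE mem_obf mem_smf smf_le_obf mem_hp
  mem_hp_nonunits rp_mf mf_rp)
open Pool.Agent.N131.FV (mo mo_le exists_mo mo_finite osc sp exists_basis osc_finite avo
  avo_nonneg avo_finset avo_le)
open Pool.Agent.NH29.GN (Idx Mon val fv NoZero)
open Pool.Agent.NH29.GN.IntP (frm aeval_frm frm_hom fv_smul)
open Pool.Agent.NH29.GN.Stb (pr pr_surj pr_eq pr_eq_zero closed)

variable {k F : Type} [Field k] [IsAlgClosed k] [CharZero k] [Field F] [Algebra k F] [IsFF k F]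

/-- germs of algebraically independent coefficients -/
theorem germ_indep {k0 : Type} [Field k0] [Algebra k0 k] (S : Fam k F) [Algebra k0 (CF S)]
    (halg : ∀ a, algebraMap k0 (CF S) a = pr S.U k fun _ => algebraMap k0 k a)
    {J : Type} (t : S.I → J → k)
    (ht : ∀ Φ : MvPolynomial J k0, Φ ≠ 0 → ∀ᶠ i in (S.U : Filter S.I), aeval (t i) Φ ≠ 0) :
    AlgebraicIndependent k0 fun p : J => pr S.U k fun i => t i p := by
  rw [algebraicIndependent_iff]
  intro Φ hΦ
  by_contra h0
  have h1 : aeval (fun p : J => pr S.U k fun i => t i p) Φ =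
      pr S.U k fun i => aeval (t i) Φ := by
    have h2 : (fun i => aeval (t i) Φ) =
        eval₂ (RingHom.pi fun _ : S.I => algebraMap k0 k) (fun p i => t i p) Φ := by
      funext i
      have h3 := MvPolynomial.hom_eval₂ Φ (RingHom.pi fun _ : S.I => algebraMap k0 k)
        (Pi.evalRingHom (fun _ : S.I => k) i) (fun p i => t i p)
      exact h3.symm
    rw [h2, MvPolynomial.hom_eval₂, aeval_def]
    congr 1
    ext a
    exact halg a
  rw [h1, pr_eq_zero] at hΦ
  obtain ⟨i, hi1, hi2⟩ := ((ht Φ h0).and hΦ).exists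
  exact hi1 hi2

theorem core (hLG : S_LG) {k0 : Type} [Field k0] [CharZero k0] [Algebra k0 k] {M n q : ℕ}
    {V : Set (MvPolynomial (Fin (M + 1)) k0)} (hV : ∀ H ∈ V, ∃ e, H.IsHomogeneous e)
    {ℓ : Fin (n + 1) → MvPolynomial (Fin (M + 1)) k0} (hℓ : ∀ j, (ℓ j).IsHomogeneous 1)
    (hZ : NoZero V ℓ) (hq : n + 1 ≤ q) {d : Fin q → ℕ} (hd : ∀ i, 1 ≤ d i)
    {C : Finset (Fin q)} (hC : C ≠ Finset.univ)
    (S : Fam k F) (t : S.I → Idx M d → k)
    (ht : ∀ Φ : MvPolynomial (Idx M d) k0, Φ ≠ 0 →
      ∀ᶠ i in (S.U : Filter S.I), aeval (t i) Φ ≠ 0)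
    (T : ∀ i, Finset (Place k (S.L i))) (x : ∀ i, Fin (M + 1) → S.L i)
    (hsz : ∀ w, 0 < w → 2 * n + 2 ≤ ∑ b, d b + C.card + w ∨
      (w = 1 ∧ S.Sm fun i => (Module.finrank (coords k (x i)) (S.L i) : ℤ)))
    (hint : ∀ i, Int (MvPolynomial.map (algebraMap k0 k) '' V) (frm (t i)) d C (T i) (x i))
    (hT : S.Sm fun i => ((T i).card : ℤ))
    (hh : ∀ᶠ i in (S.U : Filter S.I), S.h i = pht k (x i))
    {ν : ℕ} (ε : Fin (ν + 1) → Fin q) (hεC : ∀ j, ε j ∉ C) (hε : ∀ b, b ∉ C → ∃ j, ε j = b)
    (m : Fin q → ℕ) (e : ℕ) (hm : ∀ b, m b * d b = e)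
    (hN : ∀ b b', ∃ N, 0 < N ∧ N * d b' = m b ∧ N * d b = m b')
    {r : ℕ} (hr : ∀ i, Module.finrank k (sp k fun j => fv (t i) (x i) (ε j) ^ m (ε j)) = r) :
    False := by
  classical
  -- the values of the forms
  have hfv : ∀ i b, aeval (x i) (frm (t i) b) = fv (t i) (x i) b := fun i b => aeval_frm _ _ _
  have hnz : ∀ i b, b ∉ C → fv (t i) (x i) b ≠ 0 := fun i b hb => by
    rw [← hfv]
    exact (hint i).nz b hb
  have hord : ∀ i b, b ∉ C → ∀ P : Place k (S.L i), P ∉ T i →
      P.ord (fv (t i) (x i) b) = d b * pord P (x i) := fun i b hb P hP => by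
    rw [← hfv]
    exact (hint i).ord b hb P hP
  -- a coordinate which is not zero
  obtain ⟨xb, hxb⟩ : ∃ xb : Fin (M + 1) → S.MF, ∀ j, xb j = S.mf fun i => x i j := ⟨_, fun _ => rfl⟩
  obtain ⟨l0, hl0⟩ : ∃ l0, xb l0 ≠ 0 := by
    by_contra hcon
    push Not at hcon
    have h1 : ∀ᶠ i in (S.U : Filter S.I), ∀ l, x i l = 0 := by
      rw [eventually_all]
      intro l
      have h2 := hcon l
      rw [hxb] at h2
      exact S.mf_eq_zero.1 h2
    obtain ⟨i, hi⟩ := h1.exists
    exact (hint i).ne (funext hi)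
  -- the systems of units
  let z : ∀ i, Fin (ν + 1) → S.L i := fun i j => fv (t i) (x i) (ε j) ^ m (ε j)
  have hz0 : ∀ i j, z i j ≠ 0 := fun i j => pow_ne_zero _ (hnz i _ (hεC j))
  obtain ⟨g, a, b', hgi, hgs, hga, hgb⟩ := bases (k := k) (L := fun i : S.I => S.L i) z hr
  have hr0 : r ≠ 0 := by
    rintro rfl
    obtain ⟨i⟩ : Nonempty S.I := (S.U : Filter S.I).nonempty_of_neBot
    apply hz0 i 0
    rw [hgb 0 i]
    simp
  obtain ⟨r, rfl⟩ := Nat.exists_eq_succ_of_ne_zero hr0
  let gs : Fin (r + 1) → S.Sq := fun l i => g i l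
  -- the osculation places
  have hNs : SmS S fun i => osc k fun j => gs j i := by
    have h1 : ∀ i, osc k (g i) = osc k (z i) := fun i =>
      (osc_span ⟨0, hz0 i 0⟩ ⟨0, (hgi i).ne_zero 0⟩ (hgs i)).symm
    have h2 : ∀ i, ((osc k (z i)).ncard : ℤ) ≤
        (((1 + 2 * (ν + 1) ^ 2 : ℕ) : ℕ) : ℤ) * ((T i).card + avo (S.D i)) := by
      intro i
      have h3 := osc_le (k := k) (S.hDn i) (hz0 i)
      have h4 : {P : Place k (S.L i) | ∃ j, P.ord (z i j) ≠ mo P (z i)} ⊆ (T i : Set _) := by
        intro P hP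
        by_contra hPT
        have h5 : ∀ j, P.ord (z i j) = e * pord P (x i) := by
          intro j
          change P.ord (fv (t i) (x i) (ε j) ^ m (ε j)) = _
          rw [P.ord_pow, hord i _ (hεC j) P (fun h => hPT h), ← hm (ε j)]
          push_cast
          ring
        obtain ⟨j, hj⟩ := hP
        obtain ⟨c, hc, hcm⟩ := exists_mo P (x := z i) ⟨0, hz0 i 0⟩
        exact hj (by rw [← hcm, h5, h5])
      have h5 := Set.ncard_le_ncard h4 (T i).finite_toSet
      rw [Set.ncard_coe_finset] at h5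
      have h6 : (({P : Place k (S.L i) | ∃ j, P.ord (z i j) ≠ mo P (z i)}.ncard : ℕ) : ℤ) ≤
        (T i).card := by exact_mod_cast h5
      refine h3.trans ?_
      push_cast
      exact mul_le_mul_of_nonneg_left (by linarith) (by positivity)
    constructor
    · exact Eventually.of_forall fun i => osc_finite ⟨0, (hgi i).ne_zero 0⟩
    · refine Fam.Sm.mono (Fam.Sm.mul (Fam.Sm.add hT (b := fun i => avo (S.D i)) S.avo_sm)
        (1 + 2 * (ν + 1) ^ 2)) (Eventually.of_forall fun i => ?_)
      change ((osc k (g i)).ncard : ℤ) ≤ _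
      rw [h1]
      exact h2 i
  -- the constants
  let _ : Algebra (CF S) S.MF := (cst S).toAlgebra
  let _ : Algebra (CF S) S.smf := ((cst S).codRestrict S.smf (cst_sm S)).toAlgebra
  have htw1 : IsScalarTower (CF S) S.smf S.MF := IsScalarTower.of_algebraMap_eq fun _ => rfl
  let _ : Algebra k0 (CF S) :=
    ((pr S.U k).comp (RingHom.pi fun _ => algebraMap k0 k)).toAlgebra
  have hcl : IsAlgClosed (CF S) := closed S.U k
  have hch : CharZero (CF S) := charZero_of_injective_algebraMap (algebraMap k0 (CF S)).injective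
  obtain ⟨tb, htb⟩ : ∃ tb : Idx M d → CF S, ∀ p, tb p = pr S.U k fun i => t i p :=
    ⟨_, fun _ => rfl⟩
  have hind : AlgebraicIndependent k0 tb := by
    have h1 := germ_indep S (fun _ => rfl) t ht
    have h2 : tb = fun p => pr S.U k fun i => t i p := funext htb
    rw [h2]
    exact h1
  have hfvb : ∀ b, fv tb xb b = S.mf fun i => fv (t i) (x i) b := by
    intro b
    have h1 : tb = fun p => pr S.U k fun i => t i p := funext htb
    have h2 : xb = fun j => S.mf fun i => x i j := funext hxb
    rw [h1, h2]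
    exact mf_fv S (fun _ => rfl) t x b
  have hVb : ∀ H ∈ V, eval₂ ((algebraMap (CF S) S.MF).comp (algebraMap k0 (CF S))) xb H = 0 := by
    intro H hH
    have h2 : xb = fun j => S.mf fun i => x i j := funext hxb
    rw [h2, mf_eval S (algebraMap k0 k) H x _ (fun a => cst_pr S _), S.mf_eq_zero]
    refine Eventually.of_forall fun i => ?_
    have h3 := (hint i).onV _ (Set.mem_image_of_mem _ hH)
    rw [aeval_def, eval₂_map] at h3
    exact h3
  have hCb : ∀ c ∈ C, fv tb xb c = 0 := by
    intro c hc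
    rw [hfvb, S.mf_eq_zero]
    refine Eventually.of_forall fun i => ?_
    rw [← hfv]
    exact (hint i).zero c hc
  have hbb : ∀ b, b ∉ C → fv tb xb b ≠ 0 := by
    intro b hb
    rw [hfvb, S.mf_ne_zero]
    exact Eventually.of_forall fun i => hnz i b hb
  -- the field of the point
  let yb : Fin (M + 1) → S.MF := fun j => xb j / xb l0
  let K : IntermediateField (CF S) S.MF := IntermediateField.adjoin (CF S) (Set.range yb)
  let y : Fin (M + 1) → K := fun j => ⟨yb j, IntermediateField.subset_adjoin _ _ ⟨j, rfl⟩⟩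
  let ψ : K →+* S.MF := algebraMap K S.MF
  have hψ0 : ∀ c : CF S, ψ (algebraMap (CF S) K c) = ((algebraMap (CF S) S.smf c : S.smf) : S.MF) :=
    fun _ => rfl
  have hψy : ∀ j, ψ (y j) = xb j / xb l0 := fun _ => rfl
  have hyl0 : y l0 = 1 := Subtype.ext (div_self hl0)
  have hy0 : y ≠ 0 := fun h => one_ne_zero (hyl0.symm.trans (congrFun h l0))
  have hfvy : ∀ b, ψ (fv tb y b) = (xb l0)⁻¹ ^ d b * fv tb xb b := by
    intro b
    have h1 := fv_smul (K := CF S) (L := S.MF) (Ω := S.MF) tb (xb l0)⁻¹ xb b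
    have h2 : (fun j => (xb l0)⁻¹ * algebraMap S.MF S.MF (xb j)) = fun j => ψ (y j) := by
      funext j
      rw [hψy, Algebra.algebraMap_self, RingHom.id_apply, div_eq_mul_inv, mul_comm]
    rw [h2, Algebra.algebraMap_self, RingHom.id_apply] at h1
    rw [← h1]
    unfold fv val
    rw [map_sum]
    refine Finset.sum_congr rfl fun β _ => ?_
    rw [map_mul, map_prod]
    congr 1
  let X : Finset K := Finset.univ.image y
  have hXtop : IntermediateField.adjoin (CF S) (X : Set K) = ⊤ := by
    have h1 : (X : Set K) = Set.range y := by simp [X]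
    rw [h1]
    apply IntermediateField.lift_injective
    rw [IntermediateField.lift_adjoin, IntermediateField.lift_top]
    congr 1
    ext v
    constructor
    · rintro ⟨_, ⟨j, rfl⟩, rfl⟩
      exact ⟨j, rfl⟩
    · rintro ⟨j, rfl⟩
      exact ⟨_, ⟨j, rfl⟩, rfl⟩
  -- bounded heights
  have hyob : ∀ j, ψ (y j) ∈ S.obf := by
    intro j
    rw [hψy, hxb, hxb, Fam.mf_div, mem_obf]
    refine ⟨1, ?_⟩
    have h1 : ∀ᶠ i in (S.U : Filter S.I), x i l0 ≠ 0 := by
      have h2 := hl0
      rw [hxb] at h2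
      exact S.mf_ne_zero.1 h2
    filter_upwards [h1, hh] with i hi1 hi2
    have h3 : hgt k (x i j / x i l0) ≤ pht k (x i) := ratio_le (k := k) (x := x i) hi1 j
    rw [hi2]
    push_cast
    linarith
  have hKob : ∀ v : K, ψ v ∈ S.obf := by
    let W : IntermediateField (CF S) K :=
      { carrier := {v | ψ v ∈ S.obf}
        mul_mem' := fun {a b} ha hb => by
          change ψ (a * b) ∈ S.obf
          rw [map_mul]
          exact mul_mem ha hb
        one_mem' := by
          change ψ 1 ∈ S.obf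
          rw [map_one]
          exact one_mem _
        add_mem' := fun {a b} ha hb => by
          change ψ (a + b) ∈ S.obf
          rw [map_add]
          exact add_mem ha hb
        zero_mem' := by
          change ψ 0 ∈ S.obf
          rw [map_zero]
          exact zero_mem _
        algebraMap_mem' := fun c => by
          change ψ (algebraMap (CF S) K c) ∈ S.obf
          rw [hψ0]
          exact smf_le_obf (Subtype.property _)
        inv_mem' := fun a ha => by
          change ψ a⁻¹ ∈ S.obf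
          rw [map_inv₀]
          exact inv_mem ha }
    intro v
    have h1 : IntermediateField.adjoin (CF S) (X : Set K) ≤ W := by
      rw [IntermediateField.adjoin_le_iff]
      intro w hw
      obtain ⟨j, -, rfl⟩ := Finset.mem_image.1 (Finset.mem_coe.1 hw)
      exact hyob j
    have h2 : v ∈ W := by
      apply h1
      rw [hXtop]
      exact IntermediateField.mem_top
    exact h2
  -- the units
  have hzb : ∀ j, S.mf (fun i => z i j) = fv tb xb (ε j) ^ m (ε j) := by
    intro j
    rw [hfvb, ← map_pow]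
    rfl
  obtain ⟨ζ, hζ⟩ : ∃ ζ : Fin (ν + 1) → K, ∀ j, ζ j = fv tb y (ε j) ^ m (ε j) :=
    ⟨_, fun _ => rfl⟩
  have hzζ : ∀ j, S.mf (fun i => z i j) = xb l0 ^ e * ψ (ζ j) := by
    intro j
    rw [hzb, hζ, map_pow, hfvy, mul_pow, ← pow_mul, mul_comm (d (ε j)), hm, inv_pow,
      mul_inv_cancel_left₀ (pow_ne_zero _ hl0)]
  have hgsz : ∀ l, S.mf (gs l) = ∑ j, cst S (pr S.U k (a l j)) * S.mf fun i => z i j := by
    intro l
    have h1 : gs l = fun i => ∑ j, algebraMap k (S.L i) (a l j i) * z i j := funext fun i =>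
      hga l i
    rw [h1, mf_sum]
    refine Finset.sum_congr rfl fun j _ => ?_
    rw [cst_pr, ← map_mul]
    rfl
  have hzgs : ∀ j, S.mf (fun i => z i j) = ∑ l, cst S (pr S.U k (b' j l)) * S.mf (gs l) := by
    intro j
    have h1 : (fun i => z i j) = fun i => ∑ l, algebraMap k (S.L i) (b' j l i) * gs l i :=
      funext fun i => hgb j i
    rw [h1, mf_sum]
    refine Finset.sum_congr rfl fun l _ => ?_
    rw [cst_pr, ← map_mul]
    rfl
  have hgs0 : ∀ l, S.mf (gs l) ≠ 0 := fun l =>
    S.mf_ne_zero.2 (Eventually.of_forall fun i => (hgi i).ne_zero l)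
  obtain ⟨η, hη⟩ : ∃ η : Fin (r + 1) → K, ∀ l, S.mf (gs l) = xb l0 ^ e * ψ (η l) := by
    refine ⟨fun l => ∑ j, algebraMap (CF S) K (pr S.U k (a l j)) * ζ j, fun l => ?_⟩
    rw [hgsz, map_sum, Finset.mul_sum]
    refine Finset.sum_congr rfl fun j _ => ?_
    rw [hzζ, map_mul]
    change cst S _ * _ = _ * (cst S _ * _)
    ring
  have hOB : ∀ i j, ObE (S := S) fun w => gs i w / gs j w := by
    intro i j
    rw [← mem_obf, ← Fam.mf_div, hη, hη, mul_div_mul_left _ _ (pow_ne_zero _ hl0), ← map_div₀]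
    exact hKob _
  -- algebraicity
  let E : IntermediateField S.smf S.MF := IntermediateField.adjoin S.smf
    (Set.range fun j => S.mf (gs j) / S.mf (gs 0))
  let _ : Algebra (CF S) E := ((algebraMap S.smf E).comp (algebraMap (CF S) S.smf)).toAlgebra
  have htw2 : IsScalarTower (CF S) E S.MF := IsScalarTower.of_algebraMap_eq fun _ => rfl
  have hzE : ∀ j, S.mf (fun i => z i j) / S.mf (gs 0) ∈ E := by
    intro j
    rw [hzgs, Finset.sum_div]
    refine sum_mem fun l _ => ?_
    rw [mul_div_assoc]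
    refine mul_mem ?_ (IntermediateField.subset_adjoin _ _ ⟨l, rfl⟩)
    exact E.algebraMap_mem (⟨_, cst_sm S _⟩ : S.smf)
  have hXalg : ∀ v ∈ X, IsAlgebraic E (ψ v) := by
    intro v hv
    obtain ⟨j, -, rfl⟩ := Finset.mem_image.1 hv
    rw [hψy]
    refine alg_coord (κ := CF S) hV hℓ hZ hq hd hind hC hVb hCb hbb (fun b b1 hb hb1 => ?_) j l0 hl0
    obtain ⟨N, hN0, hN1, hN2⟩ := hN b b1
    obtain ⟨j1, rfl⟩ := hε b hb
    obtain ⟨j2, rfl⟩ := hε b1 hb1
    refine IsAlgebraic.of_pow hN0 ?_
    have h1 : (fv tb xb (ε j1) ^ d (ε j2) / fv tb xb (ε j2) ^ d (ε j1)) ^ N =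
        (S.mf (fun i => z i j1) / S.mf (gs 0)) / (S.mf (fun i => z i j2) / S.mf (gs 0)) := by
      rw [div_div_div_cancel_right₀ (hgs0 0), div_pow, ← pow_mul, ← pow_mul, mul_comm _ N,
        mul_comm _ N, hN1, hN2, hzb, hzb]
    rw [h1]
    exact isAlgebraic_algebraMap (⟨_, div_mem (hzE j1) (hzE j2)⟩ : E)
  -- the dimension
  have hess : Algebra.EssFiniteType (CF S) K := IntermediateField.fg_top_iff.1 ⟨X, hXtop⟩
  obtain ⟨w, hw⟩ : ∃ w : ℕ, Algebra.trdeg (CF S) K = w :=
    Cardinal.lt_aleph0.1 (trdeg_lt_aleph0 (CF S) K)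
  have hsmall : ∀ v : K, ψ v ∈ S.smf := by
    rcases Nat.eq_zero_or_pos w with hw0 | hw0
    · have halg : Algebra.IsAlgebraic (CF S) K := by
        rw [← _root_.trdeg_eq_zero_iff, hw, hw0]
        simp
      intro v
      refine alg_small S ψ hψ0 ∅ (fun t ht => absurd ht (Set.notMem_empty _)) ?_
      exact (halg.isAlgebraic v).tower_top _
    rcases hsz w hw0 with hsz | ⟨hw1, hbir⟩
    swap
    · -- curves over the constants
      rw [hw1] at hw
      have hgen : IntermediateField.adjoin (CF S) (Set.range y) = ⊤ := by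
        rw [← hXtop]
        congr 1
        simp [X]
      obtain ⟨j1, hj1, halg1, hrel⟩ := exists_rel y hgen hw
      choose N f hf0 hf using hrel
      have hmfy : ∀ j, ψ (y j) = S.mf fun i => x i j / x i l0 := fun j => by
        rw [hψy, hxb, hxb, Fam.mf_div]
      have hx0' : ∀ᶠ i in (S.U : Filter S.I), x i l0 ≠ 0 := by
        have h2 := hl0
        rw [hxb] at h2
        exact S.mf_ne_zero.1 h2
      have hsm1 := curve_small S (fun _ => rfl) x hbir hx0' j1
        (fun a h => hj1 (by
          have h2 : y j1 = algebraMap (CF S) K a := by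
            apply ψ.injective
            rw [hmfy, h]
            rfl
          rw [h2]
          exact isAlgebraic_algebraMap a)) N f hf0 (fun j => by
          have h2 := congrArg ψ (hf j)
          rw [map_zero, map_sum] at h2
          rw [← h2]
          refine Finset.sum_congr rfl fun r' _ => ?_
          rw [map_mul, map_pow, ← hmfy j1, ← hmfy j]
          congr 1
          exact Polynomial.aeval_algebraMap_apply S.MF (y j1) (f j r'))
      intro v
      refine alg_small S ψ hψ0 {y j1} ?_ (halg1.isAlgebraic v)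
      intro t' ht'
      rw [Set.mem_singleton_iff.1 ht', hmfy, mem_smf]
      exact hsm1
    · -- logarithmic general type
      have hVy : ∀ H ∈ V, eval₂ ((algebraMap (CF S) K).comp (algebraMap k0 (CF S))) y H = 0 := by
        intro H hH
        obtain ⟨e', he'⟩ := hV H hH
        apply ψ.injective
        rw [map_zero, MvPolynomial.hom_eval₂]
        have h1 := Pool.Agent.NH29.GN.IntP.eval_smul
          ((algebraMap (CF S) S.MF).comp (algebraMap k0 (CF S))) H he' (xb l0)⁻¹ xb
        rw [hVb H hH, mul_zero] at h1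
        rw [← h1]
        have h2 : (fun j => (xb l0)⁻¹ * xb j) = fun j => ψ (y j) := by
          funext j
          rw [hψy, div_eq_mul_inv, mul_comm]
        rw [h2]
        rfl
      have hCy : ∀ c ∈ C, fv tb y c = 0 := by
        intro c hc
        apply ψ.injective
        rw [map_zero, hfvy, hCb c hc, mul_zero]
      have hby : ∀ b, b ∉ C → fv tb y b ≠ 0 := by
        intro b hb h
        have h1 := hfvy b
        rw [h, map_zero] at h1
        exact mul_ne_zero (pow_ne_zero _ (inv_ne_zero hl0)) (hbb b hb) h1.symm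
      have hco : Algebra.IsAlgebraic (coords (CF S) y) K := by
        have h1 : ∀ v : K, v ∈ coords (CF S) y := by
          intro v
          have h2 : IntermediateField.adjoin (CF S) (X : Set K) ≤ coords (CF S) y := by
            rw [IntermediateField.adjoin_le_iff]
            intro u hu
            obtain ⟨j, -, rfl⟩ := Finset.mem_image.1 (Finset.mem_coe.1 hu)
            refine IntermediateField.subset_adjoin _ _ ⟨j, l0, ?_, ?_⟩
            · rw [hyl0]
              exact one_ne_zero
            · rw [hyl0, div_one]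
          apply h2
          rw [hXtop]
          exact IntermediateField.mem_top
        exact ⟨fun v => isAlgebraic_algebraMap (⟨v, h1 v⟩ : coords (CF S) y)⟩
      have hlgt := hLG k0 (CF S) K M n q w V hV ℓ hℓ hZ d hd tb hind C hsz hw0 hw y hy0 hco
        hVy hCy hby
      let J : Type := {l : Fin (M + 1) // y l ≠ 0} × {b : Fin q // b ∉ C}
      let Pos : J → Finset K := fun p => Finset.univ.image fun j => y j / y p.1.1
      let Neg : J → Finset K := fun p => {fv tb y p.2.1 / y p.1.1 ^ d p.2.1}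
      have hlgt' : LogGeneralType (CF S) K w fun P =>
          ∃ j, (∀ x ∈ Pos j, P.Reg x) ∧ ∀ x ∈ Neg j, Ge P 1 x := by
        refine lgt_mono ?_ hlgt
        rintro P ⟨b, hb, hlt⟩
        obtain ⟨l, hl, h1, h2⟩ := bd_pos ⟨l0, by rw [hyl0]; exact one_ne_zero⟩ d (fv tb y) b
          (hby b hb) hlt
        refine ⟨(⟨l, hl⟩, ⟨b, hb⟩), ?_, ?_⟩
        · intro v hv
          obtain ⟨j, -, rfl⟩ := Finset.mem_image.1 hv
          exact h1 j
        · intro v hv
          rw [Finset.mem_singleton.1 hv]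
          exact h2
      have hZs : SmS S fun i => (T i : Set (Place k (S.L i))) := by
        constructor
        · exact Eventually.of_forall fun i => (T i).finite_toSet
        · refine Fam.Sm.mono hT (Eventually.of_forall fun i => ?_)
          rw [Set.ncard_coe_finset]
      refine small_of_lgt S (g := gs) (fun i => hgi i) hOB hNs hw0 ψ hψ0 X hXtop
        (fun v _ => hKob v) hXalg Pos Neg hlgt' (fun i => (T i : Set (Place k (S.L i)))) hZs ?_
      rintro zz ⟨⟨⟨l, hl⟩, ⟨b, hb⟩⟩, h1, h2⟩
      have hxl : xb l ≠ 0 := by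
        intro h
        apply hl
        apply ψ.injective
        rw [map_zero, hψy, h, zero_div]
      have hxl' : ∀ᶠ i in (S.U : Filter S.I), x i l ≠ 0 := by
        rw [hxb] at hxl
        exact S.mf_ne_zero.1 hxl
      have h3 : ∀ᶠ i in (S.U : Filter S.I), ∀ j, Ge (zz i) 0 (x i j / x i l) := by
        rw [eventually_all]
        intro j
        have h4 := h1 (y j / y l) (Finset.mem_image_of_mem _ (Finset.mem_univ j))
        rw [map_div₀, hψy, hψy, div_div_div_cancel_right₀ hl0, hxb, hxb, Fam.mf_div, mem_hp] at h4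
        exact h4
      have h4 : ∀ᶠ i in (S.U : Filter S.I), Ge (zz i) 1 (fv (t i) (x i) b / x i l ^ d b) := by
        have h5 := h2 _ (Finset.mem_singleton_self _)
        have h6 : ψ (fv tb y b / y l ^ d b) =
            S.mf fun i => fv (t i) (x i) b / x i l ^ d b := by
          rw [map_div₀, hfvy, map_pow, hψy, inv_pow, div_pow, hfvb, hxb l]
          have h7 : (S.mf fun i => x i l) ^ d b = S.mf fun i => x i l ^ d b := by
            rw [← map_pow]
            rfl
          rw [h7, ← Fam.mf_div]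
          have h8 : xb l0 ^ d b ≠ 0 := pow_ne_zero _ hl0
          field_simp
        rw [h6, mem_hp_nonunits] at h5
        exact h5
      filter_upwards [hxl', h3, h4] with i hi1 hi2 hi3
      by_contra hcon
      have h5 := bd_neg (hnz i b hb) hi1 hi2 hi3
      rw [hord i b hb _ hcon] at h5
      exact lt_irrefl _ h5
  -- the contradiction
  refine not_small S (M := M) (f := fun j i => x i j) ?_ (l0 := l0) ?_ ?_
  · filter_upwards [hh] with i hi
    rw [hi]
    exact le_rfl
  · rw [← hxb]
    exact hl0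
  · intro j
    rw [← hxb, ← hxb, ← hψy]
    exact hsmall _

end Pool.Agent.U582.NP
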