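import Pool.Agent.U582.NP.PkgLG
import Pool.Agent.U582.NP.GcL

/-!
Subvarieties of complements of generic hypersurface sections are of log general type, over a field
of constants which is relatively algebraically closed.
-/

set_option autoImplicit false

namespace Pool.Agent.U582.NP

open FF MvPolynomial Pool.Agent.W603.PV Pool.Agent.NH29.GN
open Pool.Agent.W602.GT (coords LogGeneralType)

/-- Package LG: for coefficients `t` which are algebraically independent over `k0`, a variety of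
dimension `w` in `V ∩ {F_c = 0, c ∈ C}`, off `F_b = 0`, `b ∉ C`, with generic point `y` is of
logarithmic general type. -/
theorem lg_rel {k0 κ K : Type} [Field k0] [Field κ] [Field K] [Algebra k0 κ] [Algebra κ K]
    [CharZero κ] (hKc : ∀ z : K, IsAlgebraic κ z → ∃ r, algebraMap κ K r = z) {M n q w : ℕ}
    {V : Set (MvPolynomial (Fin (M + 1)) k0)} (hV : ∀ H ∈ V, ∃ e, H.IsHomogeneous e)
    {ℓ : Fin (n + 1) → MvPolynomial (Fin (M + 1)) k0} (hℓ : ∀ j, (ℓ j).IsHomogeneous 1)
    (hN : NoZero V ℓ) {d : Fin q → ℕ} {t : Idx M d → κ}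
    (ht : AlgebraicIndependent k0 t) {C : Finset (Fin q)}
    (hnum : 2 * n + 2 ≤ ∑ b, d b + C.card + w)
    (hw : 0 < w) (htr : Algebra.trdeg κ K = w) {y : Fin (M + 1) → K} (hy : y ≠ 0)
    (halg : Algebra.IsAlgebraic (coords κ y) K)
    (hyV : ∀ H ∈ V, eval₂ ((algebraMap κ K).comp (algebraMap k0 κ)) y H = 0)
    (hyC : ∀ c ∈ C, fv t y c = 0) (hyn : ∀ b, b ∉ C → fv t y b ≠ 0) :
    LogGeneralType κ K w fun Q : Place κ K =>
      ∃ b, b ∉ C ∧ d b * pord Q y < Q.ord (fv t y b) := by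
  classical
  obtain ⟨c0, hc0⟩ := Function.ne_iff.1 hy
  obtain ⟨j0, hj0⟩ : ∃ j0 : ∀ a, Mon M (d a), j0 = fun a =>
    ⟨Finsupp.single 0 (d a), Finsupp.degree_single _ _⟩ := ⟨_, rfl⟩
  have h1 := Pool.Agent.U582.NP.Gc.cyc_general (k0 := k0) (K := κ) (L := K) hKc (n := M) (m := n)
    (w := w) (A := Fin q) (dg := d) V hV (LG.dimLE V hV ℓ hℓ hN) (J := fun a => Mon M (d a))
    (fun _ I => monomial I.1 1) (fun _ I => isHomogeneous_monomial _ I.2)
    (fun a I => t ⟨a, I⟩) j0 (fun a => LG.ne_zero_of_indep ht _)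
    (LG.ratios t ht j0) c0 (fun _ I hI => ⟨⟨I, Pool.Agent.TH145.GD.deg_St hI⟩, rfl⟩)
    (F := fun a => ∑ j : Mon M (d a), MvPolynomial.C (t ⟨a, j⟩) *
      map (algebraMap k0 κ) (monomial j.1 1)) (fun a => rfl) C (fun _ => 0)
    (fun a ha => Or.inr rfl) hw (by
      simp only [Nat.div_zero, Finset.sum_const_zero, add_zero]
      exact hnum) htr y hc0 halg (by
      intro H hH
      have h2 := hyV H hH
      rw [← eval₂_map] at h2
      exact h2) (by
      intro a ha
      rw [LG.aeval_form]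
      exact hyC a ha) (by
      intro a ha
      rw [LG.aeval_form]
      exact hyn a ha) (fun _ => 0) (fun a ha h => absurd rfl h)
  have h2 : (fun Q : Place κ K => ∃ a, a ∉ C ∧ (0 : ℕ) = 0 ∧
      d a * pord Q y < Q.ord (aeval y (∑ j : Mon M (d a), MvPolynomial.C (t ⟨a, j⟩) *
        map (algebraMap k0 κ) (monomial j.1 1)))) = fun Q : Place κ K => ∃ b, b ∉ C ∧
      d b * pord Q y < Q.ord (fv t y b) := by
    funext Q
    refine propext ⟨?_, ?_⟩
    · rintro ⟨a, ha, -, h⟩
      rw [LG.aeval_form] at h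
      exact ⟨a, ha, h⟩
    · rintro ⟨a, ha, h⟩
      exact ⟨a, ha, rfl, by rw [LG.aeval_form]; exact h⟩
  rwa [h2] at h1

end Pool.Agent.U582.NP
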