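import Mathlib
import Pool.Agent.U582.NP.Core
import Pool.Agent.U582.NP.GcP

/-!
There are no sequences of integral points of large heights for moving forms, whose coefficients
are small and become algebraically independent over the constants.
-/

set_option autoImplicit false

namespace Pool.Agent.U582.NP

open FF Filter MvPolynomial Pool.Agent.W603.LV Pool.Agent.W603.PV
open Pool.Agent.N131 Pool.Agent.N131.FM
open Pool.Agent.W602.GT (LogGeneralType coords)
open Pool.Agent.N131.FM.Fam (SmS rp po hp ObE SmE mem_obf mem_smf smf_le_obf mem_hp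
  mem_hp_nonunits rp_mf mf_rp)
open Pool.Agent.N131.FV (mo mo_le exists_mo mo_finite osc sp exists_basis osc_finite avo
  avo_nonneg avo_finset avo_le)
open Pool.Agent.NH29.GN (Idx Mon val fv NoZero)
open Pool.Agent.NH29.GN.IntP (frm aeval_frm frm_hom fv_smul)
open Pool.Agent.NH29.GN.Stb (pr pr_surj pr_eq pr_eq_zero closed)

variable {k F : Type} [Field k] [IsAlgClosed k] [CharZero k] [Field F] [Algebra k F] [IsFF k F]

omit [IsAlgClosed k] [CharZero k] [IsFF k F] in
/-- the value of a polynomial with fixed coefficients -/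
theorem mf_evalG (S : Fam k F) {J : Type} {R : Type} [CommRing R] (f : R →+* k)
    (G : MvPolynomial J R) (x : ∀ i, J → S.L i) (φ : R →+* S.MF)
    (hφ : ∀ a, φ a = S.mf fun i => algebraMap k (S.L i) (f a)) :
    eval₂ φ (fun j => S.mf fun i => x i j) G =
      S.mf fun i => eval₂ ((algebraMap k (S.L i)).comp f) (x i) G := by
  have h1 : (fun i => eval₂ ((algebraMap k (S.L i)).comp f) (x i) G) =
      eval₂ (((RingHom.pi fun i => algebraMap k (S.L i)) : k →+* S.Sq).comp f)
        (fun j i => x i j) G := by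
    funext i
    have h2 := MvPolynomial.hom_eval₂ G
      (((RingHom.pi fun i => algebraMap k (S.L i)) : k →+* S.Sq).comp f)
      (Pi.evalRingHom (fun i => S.L i) i) (fun j i => x i j)
    exact h2.symm
  rw [h1, MvPolynomial.hom_eval₂]
  congr 1
  ext a
  exact hφ a

/-- the value of a form with moving coefficients -/
theorem mf_fvM (S : Fam k F) {M q : ℕ} {d : Fin q → ℕ}
    (t : ∀ i, Idx M d → S.L i) (tb : Idx M d → S.smf)
    (htb : ∀ p, (tb p : S.MF) = S.mf fun i => t i p)
    (x : ∀ i, Fin (M + 1) → S.L i) (b : Fin q) :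
    fv (K := S.smf) (L := S.MF) tb (fun j => S.mf fun i => x i j) b =
      S.mf fun i => fv (K := S.L i) (L := S.L i) (t i) (x i) b := by
  unfold fv val
  rw [mf_sum]
  refine Finset.sum_congr rfl fun β _ => ?_
  have h0 : algebraMap S.smf S.MF (tb ⟨b, β⟩) = S.mf fun i => t i ⟨b, β⟩ := htb _
  rw [h0]
  have h1 : (fun i => algebraMap (S.L i) (S.L i) (t i ⟨b, β⟩) * ∏ j, x i j ^ β.1 j) =
      (fun i => t i ⟨b, β⟩) * fun i => ∏ j, x i j ^ β.1 j := rfl
  rw [h1, map_mul, mf_prod]
  congr 1

theorem coreM {k0 : Type} [Field k0] [CharZero k0] [Algebra k0 k] {M n q : ℕ}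
    {V : Set (MvPolynomial (Fin (M + 1)) k0)} (hV : ∀ H ∈ V, ∃ e, H.IsHomogeneous e)
    {ℓ : Fin (n + 1) → MvPolynomial (Fin (M + 1)) k0} (hℓ : ∀ j, (ℓ j).IsHomogeneous 1)
    (hZ : NoZero V ℓ) (hq : n + 1 ≤ q) {d : Fin q → ℕ} (hd : ∀ i, 1 ≤ d i)
    {C : Finset (Fin q)} (hC : C ≠ Finset.univ) (hsz : 2 * n + 1 ≤ ∑ b, d b + C.card)
    (S : Fam k F) (t : ∀ i, Idx M d → S.L i)
    (ht : ∀ Φ : MvPolynomial (Idx M d) k0, Φ ≠ 0 → ∀ᶠ i in (S.U : Filter S.I),
      eval₂ ((algebraMap k (S.L i)).comp (algebraMap k0 k)) (t i) Φ ≠ 0)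
    (hts : ∀ p, S.Sm fun i => hgt k (t i p))
    (T : ∀ i, Finset (Place k (S.L i))) (x : ∀ i, Fin (M + 1) → S.L i) (hne : ∀ i, x i ≠ 0)
    (hxV : ∀ i, ∀ H ∈ V, eval₂ ((algebraMap k (S.L i)).comp (algebraMap k0 k)) (x i) H = 0)
    (hxC : ∀ i, ∀ c ∈ C, fv (K := S.L i) (L := S.L i) (t i) (x i) c = 0)
    (hnz : ∀ i b, b ∉ C → fv (K := S.L i) (L := S.L i) (t i) (x i) b ≠ 0)
    (hord : ∀ i b, b ∉ C → ∀ P : Place k (S.L i), P ∉ T i →
      P.ord (fv (K := S.L i) (L := S.L i) (t i) (x i) b) = d b * pord P (x i))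
    (hT : S.Sm fun i => ((T i).card : ℤ))
    (hh : ∀ᶠ i in (S.U : Filter S.I), S.h i = pht k (x i))
    {ν : ℕ} (ε : Fin (ν + 1) → Fin q) (hεC : ∀ j, ε j ∉ C) (hε : ∀ b, b ∉ C → ∃ j, ε j = b)
    (m : Fin q → ℕ) (e : ℕ) (hm : ∀ b, m b * d b = e)
    (hN : ∀ b b', ∃ N, 0 < N ∧ N * d b' = m b ∧ N * d b = m b')
    {r : ℕ} (hr : ∀ i, Module.finrank k
      (sp k fun j => fv (K := S.L i) (L := S.L i) (t i) (x i) (ε j) ^ m (ε j)) = r) :
    False := by
  classical
  -- a coordinate which is not zero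
  obtain ⟨xb, hxb⟩ : ∃ xb : Fin (M + 1) → S.MF, ∀ j, xb j = S.mf fun i => x i j := ⟨_, fun _ => rfl⟩
  obtain ⟨l0, hl0⟩ : ∃ l0, xb l0 ≠ 0 := by
    by_contra hcon
    push Not at hcon
    have h1 : ∀ᶠ i in (S.U : Filter S.I), ∀ l, x i l = 0 := by
      rw [eventually_all]
      intro l
      have h2 := hcon l
      rw [hxb] at h2
      exact S.mf_eq_zero.1 h2
    obtain ⟨i, hi⟩ := h1.exists
    exact hne i (funext hi)
  -- the systems of units
  let z : ∀ i, Fin (ν + 1) → S.L i := fun i j =>
    fv (K := S.L i) (L := S.L i) (t i) (x i) (ε j) ^ m (ε j)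
  have hz0 : ∀ i j, z i j ≠ 0 := fun i j => pow_ne_zero _ (hnz i _ (hεC j))
  obtain ⟨g, a, b', hgi, hgs, hga, hgb⟩ := bases (k := k) (L := fun i : S.I => S.L i) z hr
  have hr0 : r ≠ 0 := by
    rintro rfl
    obtain ⟨i⟩ : Nonempty S.I := (S.U : Filter S.I).nonempty_of_neBot
    apply hz0 i 0
    rw [hgb 0 i]
    simp
  obtain ⟨r, rfl⟩ := Nat.exists_eq_succ_of_ne_zero hr0
  let gs : Fin (r + 1) → S.Sq := fun l i => g i l
  -- the osculation places
  have hNs : SmS S fun i => osc k fun j => gs j i := by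
    have h1 : ∀ i, osc k (g i) = osc k (z i) := fun i =>
      (osc_span ⟨0, hz0 i 0⟩ ⟨0, (hgi i).ne_zero 0⟩ (hgs i)).symm
    have h2 : ∀ i, ((osc k (z i)).ncard : ℤ) ≤
        (((1 + 2 * (ν + 1) ^ 2 : ℕ) : ℕ) : ℤ) * ((T i).card + avo (S.D i)) := by
      intro i
      have h3 := osc_le (k := k) (S.hDn i) (hz0 i)
      have h4 : {P : Place k (S.L i) | ∃ j, P.ord (z i j) ≠ mo P (z i)} ⊆ (T i : Set _) := by
        intro P hP
        by_contra hPT
        have h5 : ∀ j, P.ord (z i j) = e * pord P (x i) := by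
          intro j
          change P.ord (fv (K := S.L i) (L := S.L i) (t i) (x i) (ε j) ^ m (ε j)) = _
          rw [P.ord_pow, hord i _ (hεC j) P (fun h => hPT h), ← hm (ε j)]
          push_cast
          ring
        obtain ⟨j, hj⟩ := hP
        obtain ⟨c, hc, hcm⟩ := exists_mo P (x := z i) ⟨0, hz0 i 0⟩
        exact hj (by rw [← hcm, h5, h5])
      have h5 := Set.ncard_le_ncard h4 (T i).finite_toSet
      rw [Set.ncard_coe_finset] at h5
      have h6 : (({P : Place k (S.L i) | ∃ j, P.ord (z i j) ≠ mo P (z i)}.ncard : ℕ) : ℤ) ≤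
        (T i).card := by exact_mod_cast h5
      refine h3.trans ?_
      push_cast
      exact mul_le_mul_of_nonneg_left (by linarith) (by positivity)
    constructor
    · exact Eventually.of_forall fun i => osc_finite ⟨0, (hgi i).ne_zero 0⟩
    · refine Fam.Sm.mono (Fam.Sm.mul (Fam.Sm.add hT (b := fun i => avo (S.D i)) S.avo_sm)
        (1 + 2 * (ν + 1) ^ 2)) (Eventually.of_forall fun i => ?_)
      change ((osc k (g i)).ncard : ℤ) ≤ _
      rw [h1]
      exact h2 i
  -- the coefficients
  let _ : Algebra k0 S.smf :=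
    ((algebraMap F S.smf).comp ((algebraMap k F).comp (algebraMap k0 k))).toAlgebra
  have hFc : CharZero F := charZero_of_injective_algebraMap (algebraMap k F).injective
  have hch : CharZero S.smf := charZero_of_injective_algebraMap (algebraMap F S.smf).injective
  have hk0 : ∀ a : k0, ((algebraMap k0 S.smf a : S.smf) : S.MF) =
      S.mf fun i => algebraMap k (S.L i) (algebraMap k0 k a) := by
    intro a
    have h1 : ((algebraMap k0 S.smf a : S.smf) : S.MF) =
        S.mf fun i => algebraMap F (S.L i) (algebraMap k F (algebraMap k0 k a)) := rfl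
    rw [h1]
    congr 1
    funext i
    exact (IsScalarTower.algebraMap_apply k F (S.L i) _).symm
  obtain ⟨tb, htb⟩ : ∃ tb : Idx M d → S.smf, ∀ p, (tb p : S.MF) = S.mf fun i => t i p :=
    ⟨fun p => ⟨S.mf fun i => t i p, mem_smf.2 (hts p)⟩, fun _ => rfl⟩
  have hind : AlgebraicIndependent k0 tb := by
    rw [algebraicIndependent_iff]
    intro Φ hΦ
    by_contra h0
    have h1 := congrArg (algebraMap S.smf S.MF) hΦ
    rw [map_zero, aeval_def, MvPolynomial.hom_eval₂] at h1
    have h2 : (fun p => algebraMap S.smf S.MF (tb p)) = fun p => S.mf fun i => t i p :=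
      funext htb
    rw [h2, mf_evalG S (algebraMap k0 k) Φ t _ (fun a => hk0 a), S.mf_eq_zero] at h1
    obtain ⟨i, hi1, hi2⟩ := ((ht Φ h0).and h1).exists
    exact hi1 hi2
  have hfvb : ∀ b, fv (K := S.smf) (L := S.MF) tb xb b =
      S.mf fun i => fv (K := S.L i) (L := S.L i) (t i) (x i) b := by
    intro b
    have h2 : xb = fun j => S.mf fun i => x i j := funext hxb
    rw [h2]
    exact mf_fvM S t tb htb x b
  have hVb : ∀ H ∈ V, eval₂ ((algebraMap S.smf S.MF).comp (algebraMap k0 S.smf)) xb H = 0 := by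
    intro H hH
    have h2 : xb = fun j => S.mf fun i => x i j := funext hxb
    rw [h2, mf_evalG S (algebraMap k0 k) H x _ (fun a => hk0 a), S.mf_eq_zero]
    exact Eventually.of_forall fun i => hxV i H hH
  have hCb : ∀ c ∈ C, fv (K := S.smf) (L := S.MF) tb xb c = 0 := by
    intro c hc
    rw [hfvb, S.mf_eq_zero]
    exact Eventually.of_forall fun i => hxC i c hc
  have hbb : ∀ b, b ∉ C → fv (K := S.smf) (L := S.MF) tb xb b ≠ 0 := by
    intro b hb
    rw [hfvb, S.mf_ne_zero]
    exact Eventually.of_forall fun i => hnz i b hb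
  -- the field of the point
  let yb : Fin (M + 1) → S.MF := fun j => xb j / xb l0
  let K : IntermediateField S.smf S.MF := IntermediateField.adjoin S.smf (Set.range yb)
  let y : Fin (M + 1) → K := fun j => ⟨yb j, IntermediateField.subset_adjoin _ _ ⟨j, rfl⟩⟩
  let ψ : K →+* S.MF := algebraMap K S.MF
  have hψ0 : ∀ c : S.smf, ψ (algebraMap S.smf K c) = ((algebraMap S.smf S.smf c : S.smf) : S.MF) :=
    fun _ => rfl
  have hψy : ∀ j, ψ (y j) = xb j / xb l0 := fun _ => rfl
  have hyl0 : y l0 = 1 := Subtype.ext (div_self hl0)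
  have hy0 : y ≠ 0 := fun h => one_ne_zero (hyl0.symm.trans (congrFun h l0))
  have hfvy : ∀ b, ψ (fv tb y b) = (xb l0)⁻¹ ^ d b * fv tb xb b := by
    intro b
    have h1 := fv_smul (K := S.smf) (L := S.MF) (Ω := S.MF) tb (xb l0)⁻¹ xb b
    have h2 : (fun j => (xb l0)⁻¹ * algebraMap S.MF S.MF (xb j)) = fun j => ψ (y j) := by
      funext j
      rw [hψy, Algebra.algebraMap_self, RingHom.id_apply, div_eq_mul_inv, mul_comm]
    rw [h2, Algebra.algebraMap_self, RingHom.id_apply] at h1
    rw [← h1]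
    unfold fv val
    rw [map_sum]
    refine Finset.sum_congr rfl fun β _ => ?_
    rw [map_mul, map_prod]
    congr 1
  let X : Finset K := Finset.univ.image y
  have hXtop : IntermediateField.adjoin S.smf (X : Set K) = ⊤ := by
    have h1 : (X : Set K) = Set.range y := by simp [X]
    rw [h1]
    apply IntermediateField.lift_injective
    rw [IntermediateField.lift_adjoin, IntermediateField.lift_top]
    congr 1
    ext v
    constructor
    · rintro ⟨_, ⟨j, rfl⟩, rfl⟩
      exact ⟨j, rfl⟩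
    · rintro ⟨j, rfl⟩
      exact ⟨_, ⟨j, rfl⟩, rfl⟩
  -- bounded heights
  have hyob : ∀ j, ψ (y j) ∈ S.obf := by
    intro j
    rw [hψy, hxb, hxb, Fam.mf_div, mem_obf]
    refine ⟨1, ?_⟩
    have h1 : ∀ᶠ i in (S.U : Filter S.I), x i l0 ≠ 0 := by
      have h2 := hl0
      rw [hxb] at h2
      exact S.mf_ne_zero.1 h2
    filter_upwards [h1, hh] with i hi1 hi2
    have h3 : hgt k (x i j / x i l0) ≤ pht k (x i) := ratio_le (k := k) (x := x i) hi1 j
    rw [hi2]
    push_cast
    linarith
  have hKob : ∀ v : K, ψ v ∈ S.obf := by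
    let W : IntermediateField S.smf K :=
      { carrier := {v | ψ v ∈ S.obf}
        mul_mem' := fun {a b} ha hb => by
          change ψ (a * b) ∈ S.obf
          rw [map_mul]
          exact mul_mem ha hb
        one_mem' := by
          change ψ 1 ∈ S.obf
          rw [map_one]
          exact one_mem _
        add_mem' := fun {a b} ha hb => by
          change ψ (a + b) ∈ S.obf
          rw [map_add]
          exact add_mem ha hb
        zero_mem' := by
          change ψ 0 ∈ S.obf
          rw [map_zero]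
          exact zero_mem _
        algebraMap_mem' := fun c => by
          change ψ (algebraMap S.smf K c) ∈ S.obf
          rw [hψ0]
          exact smf_le_obf (Subtype.property _)
        inv_mem' := fun a ha => by
          change ψ a⁻¹ ∈ S.obf
          rw [map_inv₀]
          exact inv_mem ha }
    intro v
    have h1 : IntermediateField.adjoin S.smf (X : Set K) ≤ W := by
      rw [IntermediateField.adjoin_le_iff]
      intro w hw
      obtain ⟨j, -, rfl⟩ := Finset.mem_image.1 (Finset.mem_coe.1 hw)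
      exact hyob j
    have h2 : v ∈ W := by
      apply h1
      rw [hXtop]
      exact IntermediateField.mem_top
    exact h2
  -- the units
  have hzb : ∀ j, S.mf (fun i => z i j) = fv tb xb (ε j) ^ m (ε j) := by
    intro j
    rw [hfvb, ← map_pow]
    rfl
  obtain ⟨ζ, hζ⟩ : ∃ ζ : Fin (ν + 1) → K, ∀ j, ζ j = fv tb y (ε j) ^ m (ε j) :=
    ⟨_, fun _ => rfl⟩
  have hzζ : ∀ j, S.mf (fun i => z i j) = xb l0 ^ e * ψ (ζ j) := by
    intro j
    rw [hzb, hζ, map_pow, hfvy, mul_pow, ← pow_mul, mul_comm (d (ε j)), hm, inv_pow,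
      mul_inv_cancel_left₀ (pow_ne_zero _ hl0)]
  have hgsz : ∀ l, S.mf (gs l) = ∑ j, cst S (pr S.U k (a l j)) * S.mf fun i => z i j := by
    intro l
    have h1 : gs l = fun i => ∑ j, algebraMap k (S.L i) (a l j i) * z i j := funext fun i =>
      hga l i
    rw [h1, mf_sum]
    refine Finset.sum_congr rfl fun j _ => ?_
    rw [cst_pr, ← map_mul]
    rfl
  have hzgs : ∀ j, S.mf (fun i => z i j) = ∑ l, cst S (pr S.U k (b' j l)) * S.mf (gs l) := by
    intro j
    have h1 : (fun i => z i j) = fun i => ∑ l, algebraMap k (S.L i) (b' j l i) * gs l i :=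
      funext fun i => hgb j i
    rw [h1, mf_sum]
    refine Finset.sum_congr rfl fun l _ => ?_
    rw [cst_pr, ← map_mul]
    rfl
  have hgs0 : ∀ l, S.mf (gs l) ≠ 0 := fun l =>
    S.mf_ne_zero.2 (Eventually.of_forall fun i => (hgi i).ne_zero l)
  obtain ⟨η, hη⟩ : ∃ η : Fin (r + 1) → K, ∀ l, S.mf (gs l) = xb l0 ^ e * ψ (η l) := by
    refine ⟨fun l => ∑ j, algebraMap S.smf K ⟨cst S (pr S.U k (a l j)), cst_sm S _⟩ * ζ j, fun l => ?_⟩
    rw [hgsz, map_sum, Finset.mul_sum]
    refine Finset.sum_congr rfl fun j _ => ?_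
    rw [hzζ, map_mul]
    change cst S _ * _ = _ * (cst S _ * _)
    ring
  have hOB : ∀ i j, ObE (S := S) fun w => gs i w / gs j w := by
    intro i j
    rw [← mem_obf, ← Fam.mf_div, hη, hη, mul_div_mul_left _ _ (pow_ne_zero _ hl0), ← map_div₀]
    exact hKob _
  -- algebraicity
  let E : IntermediateField S.smf S.MF := IntermediateField.adjoin S.smf
    (Set.range fun j => S.mf (gs j) / S.mf (gs 0))
  have hzE : ∀ j, S.mf (fun i => z i j) / S.mf (gs 0) ∈ E := by
    intro j
    rw [hzgs, Finset.sum_div]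
    refine sum_mem fun l _ => ?_
    rw [mul_div_assoc]
    refine mul_mem ?_ (IntermediateField.subset_adjoin _ _ ⟨l, rfl⟩)
    exact E.algebraMap_mem (⟨_, cst_sm S _⟩ : S.smf)
  have hXalg : ∀ v ∈ X, IsAlgebraic E (ψ v) := by
    intro v hv
    obtain ⟨j, -, rfl⟩ := Finset.mem_image.1 hv
    rw [hψy]
    refine alg_coord (κ := S.smf) hV hℓ hZ hq hd hind hC hVb hCb hbb (fun b b1 hb hb1 => ?_) j l0 hl0
    obtain ⟨N, hN0, hN1, hN2⟩ := hN b b1
    obtain ⟨j1, rfl⟩ := hε b hb
    obtain ⟨j2, rfl⟩ := hε b1 hb1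
    refine IsAlgebraic.of_pow hN0 ?_
    have h1 : (fv tb xb (ε j1) ^ d (ε j2) / fv tb xb (ε j2) ^ d (ε j1)) ^ N =
        (S.mf (fun i => z i j1) / S.mf (gs 0)) / (S.mf (fun i => z i j2) / S.mf (gs 0)) := by
      rw [div_div_div_cancel_right₀ (hgs0 0), div_pow, ← pow_mul, ← pow_mul, mul_comm _ N,
        mul_comm _ N, hN1, hN2, hzb, hzb]
    rw [h1]
    exact isAlgebraic_algebraMap (⟨_, div_mem (hzE j1) (hzE j2)⟩ : E)
  -- the dimension
  have hess : Algebra.EssFiniteType S.smf K := IntermediateField.fg_top_iff.1 ⟨X, hXtop⟩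
  obtain ⟨w, hw⟩ : ∃ w : ℕ, Algebra.trdeg S.smf K = w :=
    Cardinal.lt_aleph0.1 (trdeg_lt_aleph0 S.smf K)
  have hsmall : ∀ v : K, ψ v ∈ S.smf := by
    rcases Nat.eq_zero_or_pos w with hw0 | hw0
    · have halg : Algebra.IsAlgebraic S.smf K := by
        rw [← _root_.trdeg_eq_zero_iff, hw, hw0]
        simp
      intro v
      refine alg_small S ψ hψ0 ∅ (fun t ht => absurd ht (Set.notMem_empty _)) ?_
      exact (halg.isAlgebraic v).tower_top _
    · -- logarithmic general type
      have hVy : ∀ H ∈ V, eval₂ ((algebraMap S.smf K).comp (algebraMap k0 S.smf)) y H = 0 := by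
        intro H hH
        obtain ⟨e', he'⟩ := hV H hH
        apply ψ.injective
        rw [map_zero, MvPolynomial.hom_eval₂]
        have h1 := Pool.Agent.NH29.GN.IntP.eval_smul
          ((algebraMap S.smf S.MF).comp (algebraMap k0 S.smf)) H he' (xb l0)⁻¹ xb
        rw [hVb H hH, mul_zero] at h1
        rw [← h1]
        have h2 : (fun j => (xb l0)⁻¹ * xb j) = fun j => ψ (y j) := by
          funext j
          rw [hψy, div_eq_mul_inv, mul_comm]
        rw [h2]
        rfl
      have hCy : ∀ c ∈ C, fv tb y c = 0 := by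
        intro c hc
        apply ψ.injective
        rw [map_zero, hfvy, hCb c hc, mul_zero]
      have hby : ∀ b, b ∉ C → fv tb y b ≠ 0 := by
        intro b hb h
        have h1 := hfvy b
        rw [h, map_zero] at h1
        exact mul_ne_zero (pow_ne_zero _ (inv_ne_zero hl0)) (hbb b hb) h1.symm
      have hco : Algebra.IsAlgebraic (coords S.smf y) K := by
        have h1 : ∀ v : K, v ∈ coords S.smf y := by
          intro v
          have h2 : IntermediateField.adjoin S.smf (X : Set K) ≤ coords S.smf y := by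
            rw [IntermediateField.adjoin_le_iff]
            intro u hu
            obtain ⟨j, -, rfl⟩ := Finset.mem_image.1 (Finset.mem_coe.1 hu)
            refine IntermediateField.subset_adjoin _ _ ⟨j, l0, ?_, ?_⟩
            · rw [hyl0]
              exact one_ne_zero
            · rw [hyl0, div_one]
          apply h2
          rw [hXtop]
          exact IntermediateField.mem_top
        exact ⟨fun v => isAlgebraic_algebraMap (⟨v, h1 v⟩ : coords S.smf y)⟩
      have hKc : ∀ z : K, IsAlgebraic S.smf z → ∃ r, algebraMap S.smf K r = z := by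
        intro v hv
        have h1 : IsAlgebraic S.smf (v : S.MF) := hv.algebraMap
        exact ⟨⟨(v : S.MF), (t_MFB k F S).2 _ h1⟩, rfl⟩
      have hlgt := lg_rel hKc hV hℓ hZ hind (by omega : 2 * n + 2 ≤ ∑ b, d b + C.card + w) hw0 hw
        hy0 hco hVy hCy hby
      let J : Type := {l : Fin (M + 1) // y l ≠ 0} × {b : Fin q // b ∉ C}
      let Pos : J → Finset K := fun p => Finset.univ.image fun j => y j / y p.1.1
      let Neg : J → Finset K := fun p => {fv tb y p.2.1 / y p.1.1 ^ d p.2.1}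
      have hlgt' : LogGeneralType S.smf K w fun P =>
          ∃ j, (∀ x ∈ Pos j, P.Reg x) ∧ ∀ x ∈ Neg j, Ge P 1 x := by
        refine lgt_mono ?_ hlgt
        rintro P ⟨b, hb, hlt⟩
        obtain ⟨l, hl, h1, h2⟩ := bd_pos ⟨l0, by rw [hyl0]; exact one_ne_zero⟩ d (fv tb y) b
          (hby b hb) hlt
        refine ⟨(⟨l, hl⟩, ⟨b, hb⟩), ?_, ?_⟩
        · intro v hv
          obtain ⟨j, -, rfl⟩ := Finset.mem_image.1 hv
          exact h1 j
        · intro v hv
          rw [Finset.mem_singleton.1 hv]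
          exact h2
      have hZs : SmS S fun i => (T i : Set (Place k (S.L i))) := by
        constructor
        · exact Eventually.of_forall fun i => (T i).finite_toSet
        · refine Fam.Sm.mono hT (Eventually.of_forall fun i => ?_)
          rw [Set.ncard_coe_finset]
      refine small_of_lgt S (g := gs) (fun i => hgi i) hOB hNs hw0 ψ hψ0 X hXtop
        (fun v _ => hKob v) hXalg Pos Neg hlgt' (fun i => (T i : Set (Place k (S.L i)))) hZs ?_
      rintro zz ⟨⟨⟨l, hl⟩, ⟨b, hb⟩⟩, h1, h2⟩
      have hxl : xb l ≠ 0 := by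
        intro h
        apply hl
        apply ψ.injective
        rw [map_zero, hψy, h, zero_div]
      have hxl' : ∀ᶠ i in (S.U : Filter S.I), x i l ≠ 0 := by
        rw [hxb] at hxl
        exact S.mf_ne_zero.1 hxl
      have h3 : ∀ᶠ i in (S.U : Filter S.I), ∀ j, Ge (zz i) 0 (x i j / x i l) := by
        rw [eventually_all]
        intro j
        have h4 := h1 (y j / y l) (Finset.mem_image_of_mem _ (Finset.mem_univ j))
        rw [map_div₀, hψy, hψy, div_div_div_cancel_right₀ hl0, hxb, hxb, Fam.mf_div, mem_hp] at h4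
        exact h4
      have h4 : ∀ᶠ i in (S.U : Filter S.I), Ge (zz i) 1 (fv (t i) (x i) b / x i l ^ d b) := by
        have h5 := h2 _ (Finset.mem_singleton_self _)
        have h6 : ψ (fv tb y b / y l ^ d b) =
            S.mf fun i => fv (t i) (x i) b / x i l ^ d b := by
          rw [map_div₀, hfvy, map_pow, hψy, inv_pow, div_pow, hfvb, hxb l]
          have h7 : (S.mf fun i => x i l) ^ d b = S.mf fun i => x i l ^ d b := by
            rw [← map_pow]
            rfl
          rw [h7, ← Fam.mf_div]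
          have h8 : xb l0 ^ d b ≠ 0 := pow_ne_zero _ hl0
          field_simp
        rw [h6, mem_hp_nonunits] at h5
        exact h5
      filter_upwards [hxl', h3, h4] with i hi1 hi2 hi3
      by_contra hcon
      have h5 := bd_neg (hnz i b hb) hi1 hi2 hi3
      rw [hord i b hb _ hcon] at h5
      exact lt_irrefl _ h5
  -- the contradiction
  refine not_small S (M := M) (f := fun j i => x i j) ?_ (l0 := l0) ?_ ?_
  · filter_upwards [hh] with i hi
    rw [hi]
    exact le_rfl
  · rw [← hxb]
    exact hl0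
  · intro j
    rw [← hxb, ← hxb, ← hψy]
    exact hsmall _

end Pool.Agent.U582.NP
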