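import Mathlib
import Pool.Agent.U582.NP.Spec
import Pool.Agent.N131.FV.Good

/-!
Statement for the project on `n + 1` general components: a sequence of function fields over one
rational function field.
-/

set_option autoImplicit false

namespace Pool.Agent.U582.NP

open FF Filter MvPolynomial Pool.Agent.W603.LV Pool.Agent.W603.PV
open Pool.Agent.N131.FV (avo)

/-- Package FAM: the function fields `L i` are finite extensions, of small degrees and with small
different, of one function field `F`. -/
def S_FAM : Prop :=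
  ∀ (k : Type) [Field k] [IsAlgClosed k] [CharZero k] (I : Type) (U : Ultrafilter I)
    (L : I → Type) [∀ i, Field (L i)] [∀ i, Algebra k (L i)] [∀ i, IsFF k (L i)]
    (S : ∀ i, Finset (Place k (L i))) (h : I → ℤ),
    (∀ m : ℕ, ∀ᶠ i in (U : Filter I), (m : ℤ) * max (canDeg k (L i) + (S i).card) 1 ≤ h i) →
    ∃ (F : Type) (_ : Field F) (_ : Algebra k F) (_ : IsFF k F) (aF : ∀ i, Algebra F (L i))
      (_ : ∀ i, IsScalarTower k F (L i)) (_ : ∀ i, FiniteDimensional F (L i))
      (D0 : Derivation k F F) (D : ∀ i, Derivation k (L i) (L i)),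
      D0 ≠ 0 ∧ (∀ i x, D i (algebraMap F (L i) x) = algebraMap F (L i) (D0 x)) ∧
      (∀ i, D i ≠ 0) ∧
      (∀ m : ℕ, ∀ᶠ i in (U : Filter I), (m : ℤ) * Module.finrank F (L i) ≤ h i) ∧
      ∀ m : ℕ, ∀ᶠ i in (U : Filter I), (m : ℤ) * avo (D i) ≤ h i

end Pool.Agent.U582.NP
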