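import Mathlib
import Pool.Agent.U582.NP.Spec2
import Pool.Agent.N131.FV.Hs
import Pool.Agent.Y741.USmall

/-!
A sequence of function fields over one rational function field.
-/

set_option autoImplicit false

namespace Pool.Agent.U582.NP

open FF Filter MvPolynomial Pool.Agent.W603.LV Pool.Agent.W603.PV
open Pool.Agent.N131.FV (avo avo_le exists_ext)
open scoped IntermediateField

section disc

variable {k F : Type} [Field k] [IsAlgClosed k] [CharZero k] [Field F] [Algebra k F] [IsFF k F]

/-- The degree of the different is at most the canonical degree plus a constant multiple of the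
degree of the extension. -/
theorem disc_le_canDeg : ∃ C : ℕ, ∀ (L : Type) [Field L] [Algebra k L] [Algebra F L]
    [IsScalarTower k F L] [FiniteDimensional F L],
      disc k F L ≤ canDeg k L + C * Module.finrank F L := by
  classical
  have hF : CharZero F := charZero_of_injective_algebraMap (algebraMap k F).injective
  obtain ⟨D, hD⟩ := exists_der (k := k) (K := F)
  set V : Finset (Place k F) := (vo_finite hD).toFinset with hV
  have hVmem : ∀ v, vo v D ≠ 0 → v ∈ V := fun v hv => by simp [hV, hv]
  refine ⟨(∑ v ∈ V, |vo v D| * hgt k (unif v)).toNat, ?_⟩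
  intro L _ _ _ _ _
  have hL : IsFF k L := isFF_of_finite (F := F)
  obtain ⟨D', hDD'⟩ := exists_ext_der (L := L) D
  have hD' : D' ≠ 0 := by
    rintro rfl
    apply hD
    ext x
    have := hDD' x
    rw [Derivation.coe_zero, Pi.zero_apply, eq_comm, map_eq_zero] at this
    rw [this]; rfl
  set T : Finset (Place k L) := (vo_finite hD').toFinset ∪ (ram_finite (F := F)).toFinset ∪
    (finite_over_set (L := L) (vo_finite hD)).toFinset with hT
  have h1 := canDeg_finset hD' T fun P hP => by simp [hT, hP]
  have h2 : disc k F L = ∑ P ∈ T, ((ram F P : ℤ) - 1) := by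
    unfold disc
    rw [finsum_eq_sum_of_support_subset (s := T)]
    intro P hP
    have hP' : (ram F P : ℤ) - 1 ≠ 0 := hP
    simp only [hT, Finset.coe_union, Set.Finite.coe_toFinset, Set.mem_union, Set.mem_ofPred_eq]
    exact Or.inl (Or.inr hP')
  have h3 : canDeg k L = ∑ P ∈ T, ((ram F P : ℤ) - 1) -
      ∑ P ∈ T, (ram F P : ℤ) * vo (under F P) D := by
    rw [← Finset.sum_sub_distrib]
    have h4 : canDeg k L = - ∑ P ∈ T, vo P D' := by rw [h1, neg_neg]
    rw [h4, ← Finset.sum_neg_distrib]
    refine Finset.sum_congr rfl fun P _ => ?_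
    rw [vo_under hD hD' hDD' P]
    ring
  have h4 : ∑ P ∈ T, (ram F P : ℤ) * vo (under F P) D ≤
      ∑ P ∈ T, (ram F P : ℤ) * |vo (under F P) D| :=
    Finset.sum_le_sum fun P _ => mul_le_mul_of_nonneg_left (le_abs_self _) (by positivity)
  have h5 : ∑ P ∈ T, (ram F P : ℤ) * |vo (under F P) D| ≤
      Module.finrank F L * ∑ v ∈ V, |vo v D| * hgt k (unif v) := by
    have h6 : ∑ P ∈ T, (ram F P : ℤ) * |vo (under F P) D| ≤
        ∑ P ∈ T.filter (fun P => under F P ∈ V), (ram F P : ℤ) * |vo (under F P) D| := by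
      rw [Finset.sum_filter]
      refine Finset.sum_le_sum fun P _ => ?_
      split_ifs with h
      · exact le_rfl
      · have h7 : vo (under F P) D = 0 := by
          by_contra hcon
          exact h (hVmem _ hcon)
        rw [h7]; simp
    refine h6.trans ?_
    rw [← Finset.sum_fiberwise_of_maps_to (t := V) (g := fun P => under F P)
      (fun P hP => (Finset.mem_filter.1 hP).2), Finset.mul_sum]
    refine Finset.sum_le_sum fun v _ => ?_
    have h9 : ∑ P ∈ (T.filter (fun P => under F P ∈ V)).filter (fun P => under F P = v),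
        (ram F P : ℤ) * |vo (under F P) D| = (∑ P ∈ (T.filter (fun P => under F P ∈ V)).filter
          (fun P => under F P = v), (ram F P : ℤ)) * |vo v D| := by
      rw [Finset.sum_mul]
      refine Finset.sum_congr rfl fun P hP => ?_
      rw [(Finset.mem_filter.1 hP).2]
    rw [h9]
    have h10 := sum_ram_le (L := L) v (ord_unif v) ((T.filter (fun P => under F P ∈ V)).filter
      (fun P => under F P = v)) fun P hP => (Finset.mem_filter.1 hP).2
    have h11 := mul_le_mul_of_nonneg_right h10 (abs_nonneg (vo v D))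
    linarith
  have h12 : (0 : ℤ) ≤ ∑ v ∈ V, |vo v D| * hgt k (unif v) :=
    Finset.sum_nonneg fun v _ => mul_nonneg (abs_nonneg _) (hgt_nonneg _)
  rw [Int.toNat_of_nonneg h12, h3, h2]
  linarith

end disc

section rat

variable {k : Type} [Field k]

theorem isFF_rat [CharZero k] : IsFF k (RatFunc k) := by
  refine IsFF.of_finite (f := (RatFunc.X : RatFunc k)) RatFunc.transcendental_X ?_
  rw [RatFunc.adjoin_X]
  refine ⟨⟨{1}, ?_⟩⟩
  rw [eq_top_iff]
  intro x _
  have h : x = (⟨x, IntermediateField.mem_top⟩ : (⊤ : IntermediateField k (RatFunc k))) •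
      (1 : RatFunc k) := by
    rw [IntermediateField.smul_def, smul_eq_mul, mul_one]
  rw [h]
  exact Submodule.smul_mem _ _ (Submodule.subset_span (by simp))

/-- A function field as an extension of the rational function field. -/
theorem exists_alg [IsAlgClosed k] [CharZero k] {L : Type} [Field L] [Algebra k L] [IsFF k L]
    {t : L} (ht : Transcendental k t) :
    ∃ (_ : Algebra (RatFunc k) L) (_ : IsScalarTower k (RatFunc k) L)
      (_ : FiniteDimensional (RatFunc k) L), (Module.finrank (RatFunc k) L : ℤ) = hgt k t := by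
  obtain ⟨e, -⟩ : ∃ e : RatFunc k ≃ₐ[k] k⟮t⟯, e = RatFunc.algEquivOfTranscendental t ht :=
    ⟨_, rfl⟩
  let φ : RatFunc k →ₐ[k] L := (k⟮t⟯.val).comp (e : RatFunc k →ₐ[k] k⟮t⟯)
  let a : Algebra (RatFunc k) L := φ.toRingHom.toAlgebra
  have hfin : FiniteDimensional k⟮t⟯ L := IsFF.finite ht
  refine ⟨a, IsScalarTower.of_algebraMap_eq fun x => (φ.commutes x).symm, ?_, ?_⟩
  · refine Module.Finite.of_equiv_equiv e.symm.toRingEquiv (RingEquiv.refl L) ?_
    ext x
    change φ (e.symm x) = (x : L)
    change ((e (e.symm x) : k⟮t⟯) : L) = x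
    rw [AlgEquiv.apply_symm_apply]
  · rw [hgt_eq_finrank ht]
    congr 1
    refine Algebra.finrank_eq_of_equiv_equiv e.toRingEquiv (RingEquiv.refl L) ?_
    ext x
    rfl

end rat

theorem t_FAM : S_FAM := by
  intro k _ _ _ I U L _ _ _ S h hh
  have hFF : IsFF k (RatFunc k) := isFF_rat
  choose t ht hgt' using fun i => Pool.Agent.Y741.exists_small k (L i)
  choose a hst hfin hrank using fun i => exists_alg (ht i)
  obtain ⟨D0, hD0⟩ := exists_der (k := k) (K := RatFunc k)
  have hext : ∀ i, ∃ D' : Derivation k (L i) (L i),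
      ∀ x, D' (algebraMap (RatFunc k) (L i) x) = algebraMap (RatFunc k) (L i) (D0 x) := fun i =>
    exists_ext D0
  choose D hD using hext
  obtain ⟨C, hC⟩ := avo_le hD0
  obtain ⟨C', hC'⟩ := disc_le_canDeg (k := k) (F := RatFunc k)
  have h1 : ∀ i, (Module.finrank (RatFunc k) (L i) : ℤ) ≤
      3 * max (canDeg k (L i) + (S i).card) 1 := by
    intro i
    rw [hrank i]
    refine (hgt' i).trans ?_
    have h2 := Int.natCast_nonneg (S i).card
    omega
  have h2 : ∀ i, avo (D i) ≤ (1 + 3 * (C + C') : ℕ) * max (canDeg k (L i) + (S i).card) 1 := by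
    intro i
    have h3 := (hC (L i) (D i) (hD i)).2
    have h4 := hC' (L i)
    have h5 := h1 i
    have h6 := Int.natCast_nonneg (S i).card
    have h7 : canDeg k (L i) ≤ max (canDeg k (L i) + (S i).card) 1 := by omega
    have h8 := mul_le_mul_of_nonneg_left h5 (Int.natCast_nonneg (C + C'))
    push_cast at h8 ⊢
    nlinarith
  refine ⟨RatFunc k, inferInstance, inferInstance, hFF, a, hst, hfin, D0, D, hD0, hD,
    fun i => (hC (L i) (D i) (hD i)).1, fun m => ?_, fun m => ?_⟩
  · filter_upwards [hh (m * 3)] with i hi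
    have h3 := mul_le_mul_of_nonneg_left (h1 i) (Int.natCast_nonneg m)
    push_cast at hi
    linarith
  · filter_upwards [hh (m * (1 + 3 * (C + C')))] with i hi
    have h3 := mul_le_mul_of_nonneg_left (h2 i) (Int.natCast_nonneg m)
    push_cast at hi h3
    linarith

end Pool.Agent.U582.NP
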