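import Mathlib
import Pool.Agent.U582.NP.Core
import Pool.Agent.U582.NP.Spec2
import Pool.Agent.Y741.USmall
import Pool.Agent.W603.PV.Ext

/-!
The degree bound for integral points, for Zariski-general coefficients.
-/

set_option autoImplicit false

namespace Pool.Agent.U582.NP

open FF Filter MvPolynomial Pool.Agent.W603.LV Pool.Agent.W603.PV
open Pool.Agent.N131 Pool.Agent.N131.FM
open Pool.Agent.N131.FV (sp)
open Pool.Agent.W602.GT (coords)
open Pool.Agent.NH29.GN (Idx Mon val fv NoZero)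
open Pool.Agent.NH29.GN.IntP (frm aeval_frm frm_hom fv_smul)

theorem canDeg_ge_neg_two (k L : Type) [Field k] [IsAlgClosed k] [CharZero k] [Field L]
    [Algebra k L] [IsFF k L] : -2 ≤ canDeg k L := by
  have hL : CharZero L := charZero_of_injective_algebraMap (algebraMap k L).injective
  obtain ⟨t, ht, h1⟩ := Pool.Agent.Y741.exists_small k L
  have h2 := canDeg_ge (k := k) ht
  omega

/-- data of an integral point -/
structure Dat (k0 k : Type) [Field k0] [Field k] [Algebra k0 k] {M q : ℕ}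
    (V : Set (MvPolynomial (Fin (M + 1)) k0)) (d : Fin q → ℕ) (C : Finset (Fin q)) :
    Type 1 where
  t : Idx M d → k
  L : Type
  fld : Field L
  alg : Algebra k L
  isff : IsFF k L
  S : Finset (Place k L)
  x : Fin (M + 1) → L
  int : Int (MvPolynomial.map (algebraMap k0 k) '' V) (frm t) d C S x

instance {k0 k : Type} [Field k0] [Field k] [Algebra k0 k] {M q : ℕ}
    {V : Set (MvPolynomial (Fin (M + 1)) k0)} {d : Fin q → ℕ} {C : Finset (Fin q)}
    (p : Dat k0 k V d C) : Field p.L := p.fld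

instance {k0 k : Type} [Field k0] [Field k] [Algebra k0 k] {M q : ℕ}
    {V : Set (MvPolynomial (Fin (M + 1)) k0)} {d : Fin q → ℕ} {C : Finset (Fin q)}
    (p : Dat k0 k V d C) : Algebra k p.L := p.alg

instance {k0 k : Type} [Field k0] [Field k] [Algebra k0 k] {M q : ℕ}
    {V : Set (MvPolynomial (Fin (M + 1)) k0)} {d : Fin q → ℕ} {C : Finset (Fin q)}
    (p : Dat k0 k V d C) : IsFF k p.L := p.isff

/-- the degree of the map to the image if `β` holds, and `0` otherwise -/
noncomputable def mdeg (β : Prop) [Decidable β] (k : Type) {L : Type} [Field k] [Field L]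
    [Algebra k L] {M : ℕ} (x : Fin (M + 1) → L) : ℤ :=
  if β then (Module.finrank (coords k x) L : ℤ) else 0

theorem weak (hFAM : S_FAM) (hLG : S_LG) {k0 k : Type} [Field k0] [CharZero k0] [Field k]
    [Algebra k0 k] [IsAlgClosed k] [CharZero k] {M n q : ℕ}
    {V : Set (MvPolynomial (Fin (M + 1)) k0)} (hV : ∀ H ∈ V, ∃ e, H.IsHomogeneous e)
    {ℓ : Fin (n + 1) → MvPolynomial (Fin (M + 1)) k0} (hℓ : ∀ j, (ℓ j).IsHomogeneous 1)
    (hZ : NoZero V ℓ) (hq : n + 1 ≤ q) {d : Fin q → ℕ} (hd : ∀ i, 1 ≤ d i)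
    {C : Finset (Fin q)} (hC : C ≠ Finset.univ) (β : Prop)
    [Decidable β]
    (hsz : ∀ w, 0 < w → 2 * n + 2 ≤ ∑ b, d b + C.card + w ∨ (w = 1 ∧ β)) :
    ∃ Φ : MvPolynomial (Idx M d) k0, Φ ≠ 0 ∧ ∃ c : ℕ, ∀ t : Idx M d → k, aeval t Φ ≠ 0 →
      ∀ (L : Type) [Field L] [Algebra k L] [IsFF k L] (S : Finset (Place k L))
        (x : Fin (M + 1) → L), Int (MvPolynomial.map (algebraMap k0 k) '' V) (frm t) d C S x →
        pht k x ≤ c * max (max (canDeg k L + S.card) 1) (mdeg β k x) := by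
  classical
  by_contra hcon
  push Not at hcon
  -- the counterexamples
  let Ix : Type := ℕ × Finset {Φ : MvPolynomial (Idx M d) k0 // Φ ≠ 0}
  have h1 : ∀ i : Ix, ∃ p : Dat k0 k V d C, aeval p.t (∏ Φ ∈ i.2, Φ.1) ≠ 0 ∧
      (i.1 : ℤ) * max (max (canDeg k p.L + p.S.card) 1) (mdeg β k p.x) < pht k p.x := by
    intro i
    obtain ⟨t, ht, hB⟩ := hcon (∏ Φ ∈ i.2, Φ.1) (Finset.prod_ne_zero_iff.2 fun Φ _ => Φ.2) i.1
    obtain ⟨L, i1, i2, i3, S, x, h2, h3⟩ := hB
    exact ⟨⟨t, L, i1, i2, i3, S, x, h2⟩, ht, h3⟩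
  choose p hp1 hp2 using h1
  let U : Ultrafilter Ix := Ultrafilter.of atTop
  have hU : ∀ {P : Ix → Prop}, (∀ᶠ i in (atTop : Filter Ix), P i) → ∀ᶠ i in (U : Filter Ix), P i :=
    fun h => h.filter_mono (Ultrafilter.of_le _)
  have hgen : ∀ Φ : MvPolynomial (Idx M d) k0, Φ ≠ 0 →
      ∀ᶠ i in (U : Filter Ix), aeval (p i).t Φ ≠ 0 := by
    intro Φ hΦ
    apply hU
    filter_upwards [eventually_ge_atTop ((0, {⟨Φ, hΦ⟩}) : Ix)] with i hi
    intro h0
    apply hp1 i
    rw [map_prod]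
    have h2 : (⟨Φ, hΦ⟩ : {Φ : MvPolynomial (Idx M d) k0 // Φ ≠ 0}) ∈ i.2 :=
      hi.2 (Finset.mem_singleton_self _)
    exact Finset.prod_eq_zero h2 h0
  have hlarge : ∀ m : ℕ, ∀ᶠ i in (U : Filter Ix),
      (m : ℤ) * max (max (canDeg k (p i).L + (p i).S.card) 1) (mdeg β k (p i).x) ≤
        pht k (p i).x := by
    intro m
    apply hU
    filter_upwards [eventually_ge_atTop ((m, ∅) : Ix)] with i hi
    have h2 : (m : ℤ) ≤ i.1 := by exact_mod_cast hi.1
    refine le_trans (mul_le_mul_of_nonneg_right h2 ?_) (hp2 i).le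
    exact le_trans zero_le_one ((le_max_right _ _).trans (le_max_left _ _))
  -- the indices outside of `C`
  obtain ⟨b₀, hb₀⟩ : ∃ b₀, b₀ ∉ C := by
    by_contra h
    push Not at h
    exact hC (Finset.eq_univ_iff_forall.2 h)
  obtain ⟨ν, hν⟩ : ∃ ν : ℕ, Fintype.card {b : Fin q // b ∉ C} = ν + 1 :=
    Nat.exists_eq_succ_of_ne_zero (Fintype.card_pos_iff.2 ⟨⟨b₀, hb₀⟩⟩).ne'
  let es := (Fintype.equivFinOfCardEq hν).symm
  let ε : Fin (ν + 1) → Fin q := fun j => (es j).1
  have hεC : ∀ j, ε j ∉ C := fun j => (es j).2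
  have hε : ∀ b, b ∉ C → ∃ j, ε j = b := fun b hb => ⟨es.symm ⟨b, hb⟩, by simp [ε]⟩
  obtain ⟨P, hP⟩ : ∃ P : ℕ, P = ∏ b, d b := ⟨_, rfl⟩
  have hP0 : 0 < P := by
    rw [hP]
    exact Finset.prod_pos fun b _ => hd b
  have hPd : ∀ b, P / d b * d b = P := fun b => Nat.div_mul_cancel (by
    rw [hP]
    exact Finset.dvd_prod_of_mem d (Finset.mem_univ b))
  have hPd0 : ∀ b, 0 < P / d b := fun b => Nat.pos_of_ne_zero fun h => by
    have h2 := hPd b
    rw [h, zero_mul] at h2
    omega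
  let m : Fin q → ℕ := fun b => P * (P / d b)
  have hm : ∀ b, m b * d b = P * P := fun b => by
    change P * (P / d b) * d b = P * P
    rw [mul_assoc, hPd]
  have hN : ∀ b b', ∃ N, 0 < N ∧ N * d b' = m b ∧ N * d b = m b' := by
    intro b b'
    refine ⟨P / d b * (P / d b'), Nat.mul_pos (hPd0 b) (hPd0 b'), ?_, ?_⟩
    · change P / d b * (P / d b') * d b' = P * (P / d b)
      rw [mul_assoc, hPd, mul_comm]
    · change P / d b * (P / d b') * d b = P * (P / d b')
      rw [mul_comm (P / d b), mul_assoc, hPd, mul_comm]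
  -- the dimension of the systems
  let rk : Dat k0 k V d C → ℕ := fun p =>
    Module.finrank k (sp k fun j => fv p.t p.x (ε j) ^ m (ε j))
  have hrk : ∀ p, rk p < ν + 2 := by
    intro p
    have h2 := finrank_range_le_card (R := k) (fun j : Fin (ν + 1) => fv p.t p.x (ε j) ^ m (ε j))
    rw [Fintype.card_fin] at h2
    exact Nat.lt_succ_of_le h2
  obtain ⟨r, hr⟩ : ∃ r : Fin (ν + 2), ∀ᶠ i in (U : Filter Ix), rk (p i) = r := by
    rw [← Ultrafilter.eventually_exists_iff]
    exact Eventually.of_forall fun i => ⟨⟨rk (p i), hrk _⟩, rfl⟩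
  obtain ⟨i0, hi0⟩ := hr.exists
  let p' : Ix → Dat k0 k V d C := fun i => if rk (p i) = r then p i else p i0
  have hp' : ∀ᶠ i in (U : Filter Ix), p' i = p i := hr.mono fun i hi => if_pos hi
  have hr' : ∀ i, rk (p' i) = r := by
    intro i
    by_cases h : rk (p i) = r
    · change rk (if rk (p i) = r then p i else p i0) = r
      rw [if_pos h]
      exact h
    · change rk (if rk (p i) = r then p i else p i0) = r
      rw [if_neg h]
      exact hi0
  have hlarge' : ∀ m : ℕ, ∀ᶠ i in (U : Filter Ix),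
      (m : ℤ) * max (canDeg k (p' i).L + (p' i).S.card) 1 ≤ pht k (p' i).x := by
    intro m
    filter_upwards [hlarge m, hp'] with i h2 h3
    rw [h3]
    exact (mul_le_mul_of_nonneg_left (le_max_left _ _) (Int.natCast_nonneg m)).trans h2
  have hlarge2 : ∀ m : ℕ, ∀ᶠ i in (U : Filter Ix),
      (m : ℤ) * mdeg β k (p' i).x ≤ pht k (p' i).x := by
    intro m
    filter_upwards [hlarge m, hp'] with i h2 h3
    rw [h3]
    exact (mul_le_mul_of_nonneg_left (le_max_right _ _) (Int.natCast_nonneg m)).trans h2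
  obtain ⟨F, fF, aF0, ffF, aF, tw, fin, D0, D, hD0, hD, hDn, hdeg, havo⟩ :=
    hFAM k Ix U (fun i => (p' i).L) (fun i => (p' i).S) (fun i => pht k (p' i).x) hlarge'
  let S : Fam k F :=
    { I := Ix
      U := U
      L := fun i => (p' i).L
      fld := fun i => (p' i).fld
      algk := fun i => (p' i).alg
      algF := aF
      tow := tw
      fin := fin
      isff := fun i => (p' i).isff
      D0 := D0
      D := D
      hD0 := hD0
      hD := hD
      hDn := hDn
      h := fun i => pht k (p' i).x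
      deg_sm := hdeg
      avo_sm := havo }
  refine core hLG hV hℓ hZ hq hd hC S (fun i => (p' i).t) (fun Φ hΦ => ?_)
    (fun i => (p' i).S) (fun i => (p' i).x) (fun w hw => (hsz w hw).imp id fun h =>
      ⟨h.1, fun m => by
        refine (hlarge2 m).mono fun i hi => ?_
        unfold mdeg at hi
        rw [if_pos h.2] at hi
        exact hi⟩) (fun i => (p' i).int) (fun m => ?_)
    (Eventually.of_forall fun i => rfl) ε hεC hε m (P * P) hm hN (r := r) hr'
  · have h2 : ∀ᶠ i in (U : Filter Ix), aeval (p' i).t Φ ≠ 0 := by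
      filter_upwards [hgen Φ hΦ, hp'] with i h2 h3
      rw [h3]
      exact h2
    exact h2
  · have h2 : ∀ᶠ i in (U : Filter Ix), (m : ℤ) * ((p' i).S.card : ℤ) ≤ pht k (p' i).x := by
      filter_upwards [hlarge' (m * 3)] with i h2
      refine le_trans ?_ h2
      have h3 := canDeg_ge_neg_two k (p' i).L
      have h4 : ((p' i).S.card : ℤ) ≤ 3 * max (canDeg k (p' i).L + (p' i).S.card) 1 := by
        rcases le_total (canDeg k (p' i).L + ((p' i).S.card : ℤ)) 1 with h5 | h5
        · rw [max_eq_right h5]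
          omega
        · rw [max_eq_left h5]
          omega
      have h5 := mul_le_mul_of_nonneg_left h4 (Int.natCast_nonneg m)
      push_cast
      linarith
    exact h2

end Pool.Agent.U582.NP
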