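import Pool.Agent.U582.NP.Spec3
import Pool.Agent.NH29.GN.Alg
import Pool.Agent.TH145.GL.Main

/-!
Project GC, package LG: subvarieties of complements of generic hypersurface sections are of log
general type (helper535).
-/

set_option autoImplicit false

namespace Pool.Agent.U582.NP.LG

open MvPolynomial Pool.Agent.NH29.GN Pool.Agent.TH145.MG
open Pool.Agent.W602.GT (coords)

/-- The transcendence degree of a field which is algebraic over a field generated by `n` elements. -/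
theorem trdeg_le {k Ω : Type} [Field k] [Field Ω] [Algebra k Ω] (C : IntermediateField k Ω)
    {J : Type} [Finite J] (g : J → Ω) (h : ∀ z ∈ C, z ∈ cl k (Set.range g)) :
    Algebra.trdeg k C ≤ Nat.card J := by
  obtain ⟨s, hs⟩ := exists_isTranscendenceBasis k C
  rw [← hs.cardinalMk_eq_trdeg]
  by_contra hcon
  rw [not_le] at hcon
  have h1 : ((Nat.card J + 1 : ℕ) : Cardinal) ≤ Cardinal.mk s := by
    rw [Nat.cast_add, Nat.cast_one, ← Cardinal.succ_natCast]
    exact Order.succ_le_of_lt hcon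
  rw [← Cardinal.mk_fin, Cardinal.le_def] at h1
  obtain ⟨φ⟩ := h1
  have h2 := hs.1.comp φ φ.injective
  have h3 : AlgebraicIndependent k (fun i : Fin (Nat.card J + 1) => ((φ i : C) : Ω)) :=
    h2.map' (f := C.val) C.val.injective
  have h4 := card_le _ h3 g fun i => h _ (φ i : C).2
  rw [Nat.card_fin] at h4
  omega

theorem dimLE {k : Type} [Field k] {M n : ℕ} (V : Set (MvPolynomial (Fin (M + 1)) k))
    (hV : ∀ H ∈ V, ∃ e, H.IsHomogeneous e) (ℓ : Fin (n + 1) → MvPolynomial (Fin (M + 1)) k)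
    (hℓ : ∀ j, (ℓ j).IsHomogeneous 1) (hN : NoZero V ℓ) : DimLE k V n := by
  classical
  intro Ω _ _ x hx0 hxV
  -- some linear form does not vanish
  obtain ⟨j, hj⟩ : ∃ j, aeval x (ℓ j) ≠ 0 := by
    by_contra hcon
    push Not at hcon
    apply hx0
    funext a
    obtain ⟨e, he⟩ := hN a
    have h1 : Ideal.span (V ∪ Set.range ℓ) ≤ RingHom.ker (aeval x : MvPolynomial _ k →ₐ[k] Ω) := by
      rw [Ideal.span_le]
      rintro P (hP | ⟨j, rfl⟩)
      · exact hxV P hP
      · exact hcon j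
    have h2 := h1 he
    rw [RingHom.mem_ker, map_pow, aeval_X] at h2
    exact eq_zero_of_pow_eq_zero h2
  obtain ⟨c, hc⟩ : ∃ c, c = (aeval x (ℓ j))⁻¹ := ⟨_, rfl⟩
  have hc0 : c ≠ 0 := by rw [hc]; exact inv_ne_zero hj
  obtain ⟨x', hx'⟩ : ∃ x' : Fin (M + 1) → Ω, x' = c • x := ⟨_, rfl⟩
  have hxℓ : ∀ i, aeval x' (ℓ i) = c * aeval x (ℓ i) := fun i => by
    rw [hx', aeval_smul (hℓ i), pow_one]
  have hx'V : ∀ H ∈ V, aeval x' H = 0 := fun H hH => by
    obtain ⟨e, he⟩ := hV H hH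
    rw [hx', aeval_smul he, hxV H hH, mul_zero]
  have hone : aeval x' (ℓ j) = 1 := by rw [hxℓ, hc, inv_mul_cancel₀ hj]
  obtain ⟨g, hg⟩ : ∃ g : {i : Fin (n + 1) // i ≠ j} → Ω, ∀ i, g i = aeval x' (ℓ i) :=
    ⟨_, fun _ => rfl⟩
  have hcard : Nat.card {i : Fin (n + 1) // i ≠ j} = n := by
    rw [Nat.card_eq_fintype_card, Fintype.card_subtype_compl, Fintype.card_fin]
    simp
  let E := IntermediateField.adjoin k (Set.range g)
  have halg : ∀ a, IsAlgebraic E (x' a) := by
    have h1 := alg E Ω M ((map (algebraMap k E)) '' V) (by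
      rintro _ ⟨H, hH, rfl⟩
      obtain ⟨e, he⟩ := hV H hH
      exact ⟨e, he.map _⟩) (Fin (n + 1)) (fun i => map (algebraMap k E) (ℓ i)) (fun _ => 1)
      (fun _ => le_rfl) (fun i => (hℓ i).map _) (by
        intro a
        obtain ⟨e, he⟩ := hN a
        refine ⟨e, ?_⟩
        have h2 := Ideal.mem_map_of_mem (map (algebraMap k E)) he
        rw [Ideal.map_span, Set.image_union, ← Set.range_comp, map_pow, map_X] at h2
        exact h2) x' (by
        rintro _ ⟨H, hH, rfl⟩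
        rw [aeval_map_algebraMap]
        exact hx'V H hH) (by
        intro i
        rw [aeval_map_algebraMap]
        by_cases hi : i = j
        · subst hi
          exact ⟨1, by rw [hone, map_one]⟩
        · exact ⟨⟨g ⟨i, hi⟩, IntermediateField.subset_adjoin _ _ ⟨_, rfl⟩⟩, (hg ⟨i, hi⟩).symm⟩)
    exact h1
  have hcl : ∀ a, x' a ∈ cl k (Set.range g) := fun a => mem_cl.2 (halg a)
  have h3 : coords k x ≤ cl k (Set.range g) := by
    unfold coords
    rw [IntermediateField.adjoin_le_iff]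
    rintro _ ⟨i, i', hi', rfl⟩
    have : x i / x i' = x' i / x' i' := by
      rw [hx', Pi.smul_apply, Pi.smul_apply, smul_eq_mul, smul_eq_mul, mul_div_mul_left _ _ hc0]
    rw [this]
    exact div_mem (hcl i) (hcl i')
  have h4 := trdeg_le (coords k x) g fun z hz => h3 hz
  rwa [hcard] at h4

theorem ne_zero_of_indep {k κ : Type} [Field k] [Field κ] [Algebra k κ] {ι : Type} {t : ι → κ}
    (ht : AlgebraicIndependent k t) (p : ι) : t p ≠ 0 := by
  intro h
  have h6 : Transcendental k (t p) := ht.transcendental p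
  rw [h] at h6
  exact h6 (by
    have := isAlgebraic_algebraMap (R := k) (A := κ) 0
    rwa [map_zero] at this)

theorem ratios {k κ : Type} [Field k] [Field κ] [Algebra k κ] {M q : ℕ} {d : Fin q → ℕ}
    (t : Idx M d → κ) (ht : AlgebraicIndependent k t) (j0 : ∀ a, Mon M (d a)) :
    AlgebraicIndependent k fun p : Σ a, {j : Mon M (d a) // j ≠ j0 a} =>
      t ⟨p.1, p.2.1⟩ / t ⟨p.1, j0 p.1⟩ := by
  classical
  obtain ⟨s, hs⟩ : ∃ s : Idx M d → κ, ∀ p, s p =
    if p.2 = j0 p.1 then t p else t p / t ⟨p.1, j0 p.1⟩ := ⟨_, fun _ => rfl⟩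
  have h1 : AlgebraicIndependent k s := by
    refine indep_of_mem t s ht fun p => ?_
    by_cases hp : p.2 = j0 p.1
    · have : t p = s p := by rw [hs, if_pos hp]
      rw [this]
      exact subset_cl ⟨p, rfl⟩
    · have h2 : t p = s p * s ⟨p.1, j0 p.1⟩ := by
        rw [hs, if_neg hp, hs, if_pos rfl, div_mul_cancel₀ _ (ne_zero_of_indep ht _)]
      rw [h2]
      exact mul_mem (subset_cl ⟨p, rfl⟩) (subset_cl ⟨_, rfl⟩)
  have h2 := h1.comp (fun p : Σ a, {j : Mon M (d a) // j ≠ j0 a} => (⟨p.1, p.2.1⟩ : Idx M d)) (by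
    rintro ⟨a, ⟨I, hI⟩⟩ ⟨a', ⟨I', hI'⟩⟩ h
    have e1 : a = a' := congrArg Sigma.fst h
    subst e1
    have e2 : I = I' := eq_of_heq (Sigma.mk.inj_iff.1 h).2
    subst e2
    rfl)
  have h3 : (s ∘ fun p : Σ a, {j : Mon M (d a) // j ≠ j0 a} => (⟨p.1, p.2.1⟩ : Idx M d)) =
      fun p => t ⟨p.1, p.2.1⟩ / t ⟨p.1, j0 p.1⟩ := by
    funext p
    rw [Function.comp_apply, hs, if_neg p.2.2]
  rwa [h3] at h2

theorem aeval_form {κ K : Type} [Field κ] [Field K] [Algebra κ K] {k0 : Type} [Field k0]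
    [Algebra k0 κ] {M q : ℕ} {d : Fin q → ℕ} (t : Idx M d → κ) (y : Fin (M + 1) → K) (a : Fin q) :
    aeval y (∑ j : Mon M (d a), MvPolynomial.C (t ⟨a, j⟩) *
      map (algebraMap k0 κ) (monomial j.1 1)) = fv t y a := by
  rw [map_sum]
  unfold fv Pool.Agent.NH29.GN.val
  refine Finset.sum_congr rfl fun j _ => ?_
  rw [map_monomial, map_one, C_mul_monomial, mul_one, aeval_monomial, Finsupp.prod_fintype]
  intro i
  exact pow_zero _

end Pool.Agent.U582.NP.LG

namespace Pool.Agent.U582.NP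

open FF MvPolynomial Pool.Agent.W603.PV Pool.Agent.NH29.GN
open Pool.Agent.W602.GT (coords LogGeneralType)

theorem t_LG : S_LG := by
  intro k0 κ K _ _ _ _ _ _ _ M n q w V hV ℓ hℓ hN d hd t ht C hnum hw htr y hy halg hyV hyC hyn
  classical
  obtain ⟨c0, hc0⟩ := Function.ne_iff.1 hy
  obtain ⟨j0, hj0⟩ : ∃ j0 : ∀ a, Mon M (d a), j0 = fun a =>
    ⟨Finsupp.single 0 (d a), Finsupp.degree_single _ _⟩ := ⟨_, rfl⟩
  have h1 := Pool.Agent.TH145.GL.cyc_general (k0 := k0) (K := κ) (L := K) (n := M) (m := n)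
    (w := w) (A := Fin q) (dg := d) V hV (LG.dimLE V hV ℓ hℓ hN) (J := fun a => Mon M (d a))
    (fun _ I => monomial I.1 1) (fun _ I => isHomogeneous_monomial _ I.2)
    (fun a I => t ⟨a, I⟩) j0 (fun a => LG.ne_zero_of_indep ht _)
    (LG.ratios t ht j0) c0 (fun _ I hI => ⟨⟨I, Pool.Agent.TH145.GD.deg_St hI⟩, rfl⟩)
    (F := fun a => ∑ j : Mon M (d a), MvPolynomial.C (t ⟨a, j⟩) *
      map (algebraMap k0 κ) (monomial j.1 1)) (fun a => rfl) C (fun _ => 0)
    (fun a ha => Or.inr rfl) hw (by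
      simp only [Nat.div_zero, Finset.sum_const_zero, add_zero]
      exact hnum) htr y hc0 halg (by
      intro H hH
      have h2 := hyV H hH
      rw [← eval₂_map] at h2
      exact h2) (by
      intro a ha
      rw [LG.aeval_form]
      exact hyC a ha) (by
      intro a ha
      rw [LG.aeval_form]
      exact hyn a ha) (fun _ => 0) (fun a ha h => absurd rfl h)
  have h2 : (fun Q : Place κ K => ∃ a, a ∉ C ∧ (0 : ℕ) = 0 ∧
      d a * pord Q y < Q.ord (aeval y (∑ j : Mon M (d a), MvPolynomial.C (t ⟨a, j⟩) *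
        map (algebraMap k0 κ) (monomial j.1 1)))) = fun Q : Place κ K => ∃ b, b ∉ C ∧
      d b * pord Q y < Q.ord (fv t y b) := by
    funext Q
    refine propext ⟨?_, ?_⟩
    · rintro ⟨a, ha, -, h⟩
      rw [LG.aeval_form] at h
      exact ⟨a, ha, h⟩
    · rintro ⟨a, ha, h⟩
      exact ⟨a, ha, rfl, by rw [LG.aeval_form]; exact h⟩
  rwa [h2] at h1

end Pool.Agent.U582.NP
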