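import Pool.Agent.U582.NP.Spec
import Pool.Agent.TH143.LG.Laur
import Pool.Agent.W603.PV.Ext
import Pool.Agent.Y735.EL.Dup

/-!
Package WS (helper337): the weak bound implies the strong one.
-/

set_option autoImplicit false

namespace Pool.Agent.U582.NP

open FF MvPolynomial Pool.Agent.W603.LV Pool.Agent.W603.PV Pool.Agent.W619.PQ
open scoped IntermediateField

/-- transfer of integral points along a map which keeps regularity -/
theorem ws_transfer {k A : Type} [Field k] [Fintype A] {n : ℕ}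
    {V : Set (MvPolynomial (Fin (n + 1)) k)}
    {H : A → MvPolynomial (Fin (n + 1)) k} {d : A → ℕ} (hH : ∀ a, (H a).IsHomogeneous (d a))
    (hd : ∀ a, 0 < d a) {C : Finset A} (hC : ∃ b, b ∉ C)
    {L L' : Type} [Field L] [Algebra k L] [Field L'] [Algebra k L'] {S : Finset (Place k L)}
    {S' : Finset (Place k L')} (σ : L →ₐ[k] L')
    (hσ : ∀ f : L, (∀ z : Place k L, z ∉ S → Ge z 0 f) → ∀ z : Place k L', z ∉ S' → Ge z 0 (σ f))
    {x : Fin (n + 1) → L} (hx : Int V H d C S x) : Int V H d C S' (fun i => σ (x i)) := by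
  classical
  have hev : ∀ p : MvPolynomial (Fin (n + 1)) k, aeval (fun i => σ (x i)) p = σ (aeval x p) := by
    intro p
    exact (MvPolynomial.comp_aeval_apply x σ p).symm
  have hex : ∃ i, x i ≠ 0 := by
    by_contra hcon
    push Not at hcon
    exact hx.ne (funext hcon)
  obtain ⟨B, hB⟩ : ∃ B : Finset A, B = Finset.univ.filter (fun b => b ∉ C) := ⟨_, rfl⟩
  have hBm : ∀ b, b ∈ B ↔ b ∉ C := by intro b; rw [hB]; simp
  obtain ⟨G, hG⟩ : ∃ G : L, G = ∏ b ∈ B, aeval x (H b) := ⟨_, rfl⟩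
  obtain ⟨D, hD⟩ : ∃ D : ℕ, D = ∑ b ∈ B, d b := ⟨_, rfl⟩
  have hD0 : 0 < D := by
    obtain ⟨b, hb⟩ := hC
    rw [hD]
    exact Finset.sum_pos (fun b _ => hd b) ⟨b, (hBm b).2 hb⟩
  have hG0 : G ≠ 0 := by
    rw [hG]
    exact Finset.prod_ne_zero_iff.2 fun b hb => hx.nz b ((hBm b).1 hb)
  have hreg : ∀ j, ∀ z : Place k L, z ∉ S → Ge z 0 (x j ^ D / G) := by
    intro j z hz
    by_cases hj : x j = 0
    · left
      rw [hj, zero_pow hD0.ne', zero_div]
    · right
      rw [z.ord_div (pow_ne_zero _ hj) hG0, z.ord_pow, hG,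
        Pool.Agent.W619.PQ.ord_prod B z _ fun b hb => hx.nz b ((hBm b).1 hb)]
      rw [Finset.sum_congr rfl fun b hb => hx.ord b ((hBm b).1 hb) z hz, ← Finset.sum_mul]
      have h1 : (∑ b ∈ B, (d b : ℤ)) = D := by rw [hD]; push_cast; rfl
      rw [h1]
      have h2 := pord_le z hj
      nlinarith [Int.natCast_nonneg D]
  refine ⟨?_, ?_, ?_, ?_, ?_⟩
  · intro h0
    obtain ⟨i, hi⟩ := hex
    have := congrFun h0 i
    exact hi ((map_eq_zero σ).1 this)
  · intro G hG
    rw [hev, hx.onV G hG, map_zero]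
  · intro c hc
    rw [hev, hx.zero c hc, map_zero]
  · intro b hb
    rw [hev]
    exact (map_ne_zero σ).2 (hx.nz b hb)
  · intro b hb z hz
    have hex' : ∃ i, (fun i => σ (x i)) i ≠ 0 := by
      obtain ⟨i, hi⟩ := hex
      exact ⟨i, (map_ne_zero σ).2 hi⟩
    obtain ⟨j, hj, hjo⟩ := exists_pord z hex'
    have h1 := hσ _ (hreg j) z hz
    rw [map_div₀, map_pow] at h1
    have hG1 : σ G ≠ 0 := (map_ne_zero σ).2 hG0
    have h2 := h1.resolve_left (div_ne_zero (pow_ne_zero _ hj) hG1)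
    rw [z.ord_div (pow_ne_zero _ hj) hG1, z.ord_pow, hG, map_prod,
      Pool.Agent.W619.PQ.ord_prod B z _ fun b hb => (map_ne_zero σ).2 (hx.nz b ((hBm b).1 hb))] at h2
    have h3 : ∀ b ∈ B, 0 ≤ z.ord (σ (aeval x (H b))) - d b * pord z (fun i => σ (x i)) := by
      intro b hb
      have h4 := ge_form z (fun i => σ (x i)) (hH b) (fun α _ => Ge.const _)
      rw [hev] at h4
      have := h4.resolve_left ((map_ne_zero σ).2 (hx.nz b ((hBm b).1 hb)))
      omega
    have h5 : ∑ b ∈ B, (z.ord (σ (aeval x (H b))) - d b * pord z (fun i => σ (x i))) = 0 := by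
      refine le_antisymm ?_ (Finset.sum_nonneg h3)
      rw [Finset.sum_sub_distrib, ← Finset.sum_mul]
      have h1 : (∑ b ∈ B, (d b : ℤ)) = D := by rw [hD]; push_cast; rfl
      rw [h1]
      have h6 : z.ord (σ (x j)) = pord z (fun i => σ (x i)) := hjo
      rw [h6] at h2
      omega
    have h6 := (Finset.sum_eq_zero_iff_of_nonneg h3).1 h5 b ((hBm b).2 hb)
    rw [hev]
    omega

section
variable {k : Type} [Field k] [CharZero k] [IsAlgClosed k] {L : Type} [Field L] [Algebra k L]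
  [IsFF k L] {n : ℕ}

theorem ws_le_pht (f : Fin (n + 1) → L) {l j : Fin (n + 1)} (hl : f l ≠ 0) (hj : f j ≠ 0) :
    hgt k (f j / f l) ≤ pht k f := by
  classical
  obtain ⟨T, hT⟩ := exists_supp (k := k) Finset.univ f
  have h1 : ∀ j, ∀ P : Place k L, P.ord (f j) ≠ 0 → P ∈ T := fun j => hT j (Finset.mem_univ j)
  have h1' : ∀ P : Place k L, P.ord (f j / f l) ≠ 0 → P ∈ T := by
    intro P hP
    by_contra hcon
    apply hP
    have h2 : P.ord (f j) = 0 := by by_contra h; exact hcon (h1 j P h)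
    have h3 : P.ord (f l) = 0 := by by_contra h; exact hcon (h1 l P h)
    rw [P.ord_div hj hl, h2, h3]; rfl
  have h2 : pht k f = ∑ P ∈ T, (- pord P f) := by
    unfold pht
    rw [finsum_eq_sum_of_support_subset (s := T), Finset.sum_neg_distrib]
    intro P hP
    by_contra hcon
    apply hP
    obtain ⟨j, hj, h⟩ := exists_pord P ⟨l, hl⟩
    simp only
    rw [← h]
    by_contra h'; exact hcon (h1 j P h')
  have h3 : ∑ P ∈ T, P.ord (f l) = 0 := sum_ord_finset _ T (h1 l)
  have h4 : ∑ P ∈ T, (- pord P f) = ∑ P ∈ T, (- pord P f + P.ord (f l)) := by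
    rw [Finset.sum_add_distrib, h3, add_zero]
  rw [h2, h4, hgt_finset _ T h1']
  refine Finset.sum_le_sum fun P _ => ?_
  have e1 := pord_le P hj
  have e2 := pord_le P hl
  rw [P.ord_div hj hl]
  omega

theorem ws_exists_transc {x : Fin (n + 1) → L} (hx : x ≠ 0) (h : 0 < pht k x) :
    ∃ j l : Fin (n + 1), x j ≠ 0 ∧ x l ≠ 0 ∧ Transcendental k (x j / x l) := by
  obtain ⟨l, hl⟩ : ∃ i, x i ≠ 0 := by
    by_contra hcon
    push Not at hcon
    exact hx (funext hcon)
  have h1 := pht_le (k := k) x hl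
  by_contra hcon
  push Not at hcon
  have h2 : ∑ j, hgt k (x j / x l) = 0 := by
    refine Finset.sum_eq_zero fun j _ => ?_
    apply hgt_algebraic
    by_cases hj : x j = 0
    · rw [hj, zero_div]
      exact isAlgebraic_zero
    · have := hcon j l hj hl
      unfold Transcendental at this
      push Not at this
      exact this
  omega

theorem ws_exists_place : Nonempty (Place k L) := by
  obtain ⟨f, hf⟩ := IsFF.exists_transcendental (k := k) (K := L)
  obtain ⟨P, _⟩ := Pool.Agent.Y735.EL.exists_zero hf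
  exact ⟨P⟩

end

section
variable {k : Type} [Field k] [CharZero k] [IsAlgClosed k]

instance ws_isFF_ratFunc : IsFF k (RatFunc k) := by
  refine IsFF.of_finite (f := (RatFunc.X : RatFunc k)) RatFunc.transcendental_X ?_
  rw [RatFunc.adjoin_X]
  refine ⟨⟨{1}, ?_⟩⟩
  rw [eq_top_iff]
  intro x _
  have h : x = (⟨x, IntermediateField.mem_top⟩ : (⊤ : IntermediateField k (RatFunc k))) •
      (1 : RatFunc k) := by
    rw [IntermediateField.smul_def, smul_eq_mul, mul_one]
  rw [h]
  exact Submodule.smul_mem _ _ (Submodule.subset_span (by simp))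

variable (k) in
/-- The zero and the pole of the coordinate on the projective line. -/
noncomputable def wsZeroInf : Finset (Place k (RatFunc k)) :=
  (finite_support (k := k) (RatFunc.X : RatFunc k)).toFinset

omit [IsAlgClosed k] in
theorem ws_not_mem {z : Place k (RatFunc k)} (hz : z ∉ wsZeroInf k) :
    z.ord (RatFunc.X : RatFunc k) = 0 := by
  by_contra h
  exact hz (by
    unfold wsZeroInf
    simpa using h)

theorem ws_exists_gm {M : Type} [Field M] [Algebra k M] [IsFF k M] (S : Finset (Place k M))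
    (hS : S.Nonempty) (h : canDeg k M + S.card ≤ 0) (m : ℕ) (hm : 0 < m) :
    ∃ σ : M →ₐ[k] RatFunc k,
      (∀ f : M, (∀ z : Place k M, z ∉ S → Ge z 0 f) →
        ∀ z : Place k (RatFunc k), z ∉ wsZeroInf k → Ge z 0 (σ f)) ∧
      ∀ f : M, Transcendental k f → (m : ℤ) ≤ hgt k (σ f) := by
  obtain ⟨t, ht, hlau⟩ := Pool.Agent.TH143.LG.laurent hS h
  have htr : Transcendental k t := transcendental_of_top ht
  obtain ⟨Y, hY⟩ : ∃ Y : RatFunc k, Y = RatFunc.X ^ m := ⟨_, rfl⟩
  have hX0 : (RatFunc.X : RatFunc k) ≠ 0 := RatFunc.X_ne_zero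
  have hYtr : Transcendental k Y := by
    rw [hY]
    exact RatFunc.transcendental_X.pow hm
  obtain ⟨e1, he1⟩ : ∃ e1 : RatFunc k ≃ₐ[k] k⟮t⟯, ((e1 RatFunc.X : k⟮t⟯) : M) = t :=
    ⟨RatFunc.algEquivOfTranscendental t htr, by simp⟩
  obtain ⟨e2, he2⟩ : ∃ e2 : RatFunc k ≃ₐ[k] k⟮Y⟯, ((e2 RatFunc.X : k⟮Y⟯) : RatFunc k) = Y :=
    ⟨RatFunc.algEquivOfTranscendental Y hYtr, by simp⟩
  let e3 : M ≃ₐ[k] k⟮t⟯ :=
    (IntermediateField.topEquiv.symm).trans (IntermediateField.equivOfEq ht.symm)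
  have he3 : ∀ x : M, ((e3 x : k⟮t⟯) : M) = x := fun x => rfl
  let σ : M →ₐ[k] RatFunc k :=
    (k⟮Y⟯.val.comp (e2 : RatFunc k →ₐ[k] k⟮Y⟯)).comp
      ((e1.symm : k⟮t⟯ →ₐ[k] RatFunc k).comp (e3 : M →ₐ[k] k⟮t⟯))
  have hσ : ∀ x, σ x = ((e2 (e1.symm (e3 x)) : k⟮Y⟯) : RatFunc k) := fun x => rfl
  have hσt : σ t = Y := by
    have h1 : e3 t = e1 RatFunc.X := Subtype.ext (by rw [he3, he1])
    rw [hσ, h1, AlgEquiv.symm_apply_apply, he2]
  have hσm : ∀ x, σ x ∈ k⟮Y⟯ := fun x => by
    rw [hσ]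
    exact Subtype.property _
  have hreg : ∀ f : M, (∀ z : Place k M, z ∉ S → Ge z 0 f) →
      ∀ z : Place k (RatFunc k), z ∉ wsZeroInf k → Ge z 0 (σ f) := by
    intro f hf z hz
    obtain ⟨l, p, hp⟩ := hlau f fun P hP => by
      by_contra hcon
      rcases hf P hcon with h | h
      · rw [h, P.ord_zero] at hP
        exact lt_irrefl _ hP
      · omega
    have h1 := congrArg σ hp
    rw [map_mul, map_pow, hσt, ← Polynomial.aeval_algHom_apply, hσt] at h1
    have hzX := ws_not_mem hz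
    have hzY : z.ord Y = 0 := by rw [hY, z.ord_pow, hzX, mul_zero]
    have hY0 : Y ≠ 0 := by
      rw [hY]
      exact pow_ne_zero _ hX0
    by_cases h0 : σ f = 0
    · exact Or.inl h0
    · right
      have h2 : Ge z 0 (Polynomial.aeval Y p) :=
        Pool.Agent.TH143.LG.ge_aeval (Or.inr hzY.ge) p
      rw [← h1] at h2
      have h3 := h2.resolve_left (mul_ne_zero h0 (pow_ne_zero _ hY0))
      rw [z.ord_mul h0 (pow_ne_zero _ hY0), z.ord_pow, hzY, mul_zero, add_zero] at h3
      exact h3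
  refine ⟨σ, hreg, fun f hf => ?_⟩
  have hσf : Transcendental k (σ f) := by
    intro halg
    exact hf ((isAlgebraic_algHom_iff σ σ.injective).1 halg)
  have hle : k⟮σ f⟯ ≤ k⟮Y⟯ := by
    rw [IntermediateField.adjoin_le_iff, Set.singleton_subset_iff]
    exact hσm f
  have : FiniteDimensional k⟮σ f⟯ (RatFunc k) := IsFF.finite hσf
  have h1 := IntermediateField.finrank_le_of_le_left hle
  have h2 := hgt_eq_finrank (k := k) hσf
  have h3 := hgt_eq_finrank (k := k) hYtr
  have h4 : hgt k Y = m * hgt k (RatFunc.X : RatFunc k) := by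
    rw [hY, hgt_pow hX0]
  have h5 := hgt_eq_finrank (k := k) (RatFunc.transcendental_X (K := k))
  have : FiniteDimensional k⟮(RatFunc.X : RatFunc k)⟯ (RatFunc k) :=
    IsFF.finite RatFunc.transcendental_X
  have h6 : 0 < Module.finrank k⟮(RatFunc.X : RatFunc k)⟯ (RatFunc k) := Module.finrank_pos
  have h7 : (m : ℤ) ≤ m * hgt k (RatFunc.X : RatFunc k) := by
    rw [h5]
    have h8 : (1 : ℤ) ≤ Module.finrank k⟮(RatFunc.X : RatFunc k)⟯ (RatFunc k) := by
      exact_mod_cast h6
    nlinarith [Int.natCast_nonneg m]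
  rw [h2]
  rw [← h4, h3] at h7
  refine h7.trans ?_
  exact_mod_cast h1

omit [CharZero k] [IsAlgClosed k] in
theorem ws_iterate {L : Type} [Field L] [Algebra k L] [IsFF k L] (φ : L →ₐ[k] L) (N : ℕ)
    (hφ : ∀ f, hgt k (φ f) = N * hgt k f) (r : ℕ) : ∃ ψ : L →ₐ[k] L, ∀ f, hgt k (ψ f) = N ^ r * hgt k f := by
  induction r with
  | zero => exact ⟨AlgHom.id k L, fun f => by simp⟩
  | succ r ih =>
    obtain ⟨ψ, hψ⟩ := ih
    refine ⟨φ.comp ψ, fun f => ?_⟩
    rw [AlgHom.comp_apply, hφ, hψ]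
    ring

end

theorem t_WS : S_WS := by
  intro k _ _ _ n A _ V H d hH hd C hC c hweak L _ _ _ S x hx
  by_cases hbig : 1 ≤ canDeg k L + S.card
  · have h1 := hweak L S x hx
    rw [max_eq_left hbig] at h1
    rw [max_eq_left (by omega)]
    exact h1
  have hle : canDeg k L + S.card ≤ 0 := by omega
  rw [max_eq_right hle, mul_zero]
  by_contra hpos
  push Not at hpos
  obtain ⟨j, l, hj, hl, htr⟩ := ws_exists_transc hx.ne hpos
  -- the case of a nonempty set
  have main : ∀ S' : Finset (Place k L), S ⊆ S' → S'.Nonempty → canDeg k L + S'.card ≤ 0 → False := by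
    intro S' hSS hne hle'
    have hx' : Int V H d C S' x := ⟨hx.ne, hx.onV, hx.zero, hx.nz, fun b hb P hP => hx.ord b hb P fun h => hP (hSS h)⟩
    obtain ⟨K0, hK0⟩ : ∃ K0 : ℤ, K0 = c * max (canDeg k (RatFunc k) + (wsZeroInf k).card) 1 := ⟨_, rfl⟩
    obtain ⟨σ, hσ1, hσ2⟩ := ws_exists_gm S' hne hle' (K0.toNat + 1) (Nat.succ_pos _)
    have h1 := ws_transfer hH hd hC σ hσ1 hx'
    have h2 := hweak (RatFunc k) (wsZeroInf k) _ h1
    rw [← hK0] at h2
    have h3 := ws_le_pht (k := k) (fun i => σ (x i)) (l := l) (j := j) ((map_ne_zero σ).2 hl)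
      ((map_ne_zero σ).2 hj)
    have h4 := hσ2 _ htr
    rw [map_div₀] at h4
    have h5 : ((K0.toNat + 1 : ℕ) : ℤ) ≤ K0 := h4.trans (h3.trans h2)
    have h6 := Int.self_le_toNat K0
    push_cast at h5
    omega
  by_cases hS : S.Nonempty
  · exact main S (Finset.Subset.refl _) hS hle
  rw [Finset.not_nonempty_iff_eq_empty] at hS
  subst hS
  rw [Finset.card_empty, Nat.cast_zero, add_zero] at hle
  by_cases h0 : canDeg k L = 0
  · obtain ⟨φ, N, hN, hφ⟩ := Pool.Agent.Y735.EL.exists_dup (k := k) (F := L) h0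
    obtain ⟨ψ, hψ⟩ := ws_iterate φ N hφ c
    have hreg : ∀ f : L, (∀ z : Place k L, z ∉ (∅ : Finset (Place k L)) → Ge z 0 f) →
        ∀ z : Place k L, z ∉ (∅ : Finset (Place k L)) → Ge z 0 (ψ f) := by
      intro f hf z _
      have h1 : hgt k f ≤ 0 := by
        unfold hgt
        have h2 : (fun P : Place k L => max (-P.ord f) 0) = fun _ => 0 := by
          funext P
          rcases hf P (by simp) with h | h
          · rw [h, P.ord_zero]; simp
          · exact max_eq_right (by omega)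
        rw [h2, finsum_zero]
      obtain ⟨e, he⟩ := const_of_hgt (k := k) h1
      rw [he, AlgHom.commutes]
      exact Ge.const e
    have h1 := ws_transfer hH hd hC ψ hreg hx
    have h2 := hweak L ∅ _ h1
    rw [h0, Finset.card_empty, Nat.cast_zero, add_zero, max_eq_right zero_le_one, mul_one] at h2
    have h3 := ws_le_pht (k := k) (fun i => ψ (x i)) (l := l) (j := j) ((map_ne_zero ψ).2 hl)
      ((map_ne_zero ψ).2 hj)
    have h4 := hψ (x j / x l)
    rw [map_div₀] at h4
    have h5 : 1 ≤ hgt k (x j / x l) := by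
      rw [hgt_eq_finrank htr]
      have : FiniteDimensional k⟮x j / x l⟯ L := IsFF.finite htr
      have h6 : 0 < Module.finrank k⟮x j / x l⟯ L := Module.finrank_pos
      exact_mod_cast h6
    have h6 : (N : ℤ) ^ c ≤ c := by
      have h7 : (N : ℤ) ^ c ≤ N ^ c * hgt k (x j / x l) := by
        have : (0 : ℤ) ≤ (N : ℤ) ^ c := by positivity
        nlinarith
      rw [← h4] at h7
      exact h7.trans (h3.trans h2)
    have h7 : N ^ c ≤ c := by exact_mod_cast h6
    have h8 : c < 2 ^ c := Nat.lt_two_pow_self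
    have h9 : 2 ^ c ≤ N ^ c := Nat.pow_le_pow_left hN c
    omega
  · obtain ⟨P0⟩ := ws_exists_place (k := k) (L := L)
    refine main {P0} (Finset.empty_subset _) (Finset.singleton_nonempty _) ?_
    rw [Finset.card_singleton]
    push_cast
    omega

end Pool.Agent.U582.NP

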