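import Mathlib
import Pool.Agent.U582.NP.Wk
import Pool.Agent.U582.NP.PkgWS

/-!
The strong form of the degree bound, for all strata, and the bound for the degrees of the images.
-/

set_option autoImplicit false

namespace Pool.Agent.U582.NP

open FF Filter MvPolynomial Pool.Agent.W603.LV Pool.Agent.W603.PV
open Pool.Agent.W602.GT (coords)
open Pool.Agent.NH29.GN (Idx Mon val fv NoZero)
open Pool.Agent.NH29.GN.IntP (frm aeval_frm frm_hom fv_smul)

/-- the degree of the map to the image is positive for points which are not constant -/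
theorem one_le_finrank {k L : Type} [Field k] [IsAlgClosed k] [CharZero k] [Field L]
    [Algebra k L] [IsFF k L] {M : ℕ} {x : Fin (M + 1) → L} (hx : x ≠ 0) (h : 0 < pht k x) :
    1 ≤ Module.finrank (coords k x) L := by
  obtain ⟨j, l, hj, hl, htr⟩ := ws_exists_transc hx h
  have hfin : FiniteDimensional (IntermediateField.adjoin k {x j / x l}) L := IsFF.finite htr
  have hle : IntermediateField.adjoin k {x j / x l} ≤ coords k x := by
    rw [IntermediateField.adjoin_le_iff, Set.singleton_subset_iff]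
    exact IntermediateField.subset_adjoin _ _ ⟨j, l, hl, rfl⟩
  let _ : Algebra (IntermediateField.adjoin k {x j / x l}) (coords k x) :=
    (IntermediateField.inclusion hle).toRingHom.toAlgebra
  have hst : IsScalarTower (IntermediateField.adjoin k {x j / x l}) (coords k x) L :=
    IsScalarTower.of_algebraMap_eq fun _ => rfl
  have h2 : FiniteDimensional (coords k x) L :=
    Module.Finite.of_restrictScalars_finite (IntermediateField.adjoin k {x j / x l}) _ _
  exact Module.finrank_pos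

theorem strong (hFAM : S_FAM) (hLG : S_LG) (hWS : S_WS) {k0 k : Type} [Field k0] [CharZero k0]
    [Field k] [Algebra k0 k] [IsAlgClosed k] [CharZero k] {M n q : ℕ}
    {V : Set (MvPolynomial (Fin (M + 1)) k0)} (hV : ∀ H ∈ V, ∃ e, H.IsHomogeneous e)
    {ℓ : Fin (n + 1) → MvPolynomial (Fin (M + 1)) k0} (hℓ : ∀ j, (ℓ j).IsHomogeneous 1)
    (hZ : NoZero V ℓ) (hq : n + 1 ≤ q) {d : Fin q → ℕ} (hd : ∀ i, 1 ≤ d i) :
    ∃ Φ : MvPolynomial (Idx M d) k0, Φ ≠ 0 ∧ ∃ c : ℕ, ∀ t : Idx M d → k, aeval t Φ ≠ 0 →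
      ∀ C : Finset (Fin q), C ≠ Finset.univ →
        (2 * n + 1 ≤ ∑ b, d b + C.card →
          Bound (MvPolynomial.map (algebraMap k0 k) '' V) (frm t) d C c 0) ∧
        (2 * n ≤ ∑ b, d b + C.card →
          ∀ (L : Type) [Field L] [Algebra k L] [IsFF k L] (S : Finset (Place k L))
            (x : Fin (M + 1) → L), Int (MvPolynomial.map (algebraMap k0 k) '' V) (frm t) d C S x →
            pht k x ≤ c * max (canDeg k L + S.card) (Module.finrank (coords k x) L : ℤ)) := by
  classical
  have h1 : ∀ C : Finset (Fin q), ∃ Φ : MvPolynomial (Idx M d) k0, Φ ≠ 0 ∧ ∃ c : ℕ,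
      C ≠ Finset.univ → 2 * n + 1 ≤ ∑ b, d b + C.card → ∀ t : Idx M d → k, aeval t Φ ≠ 0 →
      Bound (MvPolynomial.map (algebraMap k0 k) '' V) (frm t) d C c 0 := by
    intro C
    by_cases hC : C ≠ Finset.univ ∧ 2 * n + 1 ≤ ∑ b, d b + C.card
    · obtain ⟨Φ, hΦ, c, hc⟩ := weak hFAM hLG (k := k) hV hℓ hZ hq hd hC.1 False
        (fun w hw => Or.inl (by have := hC.2; omega))
      refine ⟨Φ, hΦ, c, fun _ _ t ht => ?_⟩
      refine hWS k M (Fin q) _ (frm t) d (fun a => frm_hom t a) hd C ?_ c ?_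
      · by_contra h
        push Not at h
        exact hC.1 (Finset.eq_univ_iff_forall.2 h)
      · intro L _ _ _ S x hx
        have h3 := hc t ht L S x hx
        unfold mdeg at h3
        rw [if_neg not_false, max_eq_left (le_trans zero_le_one (le_max_right _ _))] at h3
        exact h3
    · refine ⟨1, one_ne_zero, 0, fun h2 h3 => absurd ⟨h2, h3⟩ hC⟩
  have h2 : ∀ C : Finset (Fin q), ∃ Φ : MvPolynomial (Idx M d) k0, Φ ≠ 0 ∧ ∃ c : ℕ,
      C ≠ Finset.univ → 2 * n ≤ ∑ b, d b + C.card → ∀ t : Idx M d → k, aeval t Φ ≠ 0 →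
      ∀ (L : Type) [Field L] [Algebra k L] [IsFF k L] (S : Finset (Place k L))
        (x : Fin (M + 1) → L), Int (MvPolynomial.map (algebraMap k0 k) '' V) (frm t) d C S x →
        pht k x ≤ c * max (canDeg k L + S.card) (Module.finrank (coords k x) L : ℤ) := by
    intro C
    by_cases hC : C ≠ Finset.univ ∧ 2 * n ≤ ∑ b, d b + C.card
    · obtain ⟨Φ, hΦ, c, hc⟩ := weak hFAM hLG (k := k) hV hℓ hZ hq hd hC.1 True
        (fun w hw => by
          have h3 := hC.2
          rcases Nat.lt_or_ge 1 w with h4 | h4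
          · exact Or.inl (by omega)
          · exact Or.inr ⟨by omega, trivial⟩)
      refine ⟨Φ, hΦ, c, fun _ _ t ht L _ _ _ S x hx => ?_⟩
      have h3 := hc t ht L S x hx
      unfold mdeg at h3
      rw [if_pos trivial] at h3
      rcases le_or_gt (pht k x) 0 with h4 | h4
      · exact h4.trans (mul_nonneg (Int.natCast_nonneg _)
          (le_trans (Int.natCast_nonneg _) (le_max_right _ _)))
      · have h5 : (1 : ℤ) ≤ (Module.finrank (coords k x) L : ℤ) := by
          exact_mod_cast one_le_finrank hx.ne h4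
        rwa [max_assoc, max_eq_right h5] at h3
    · refine ⟨1, one_ne_zero, 0, fun h2 h3 => absurd ⟨h2, h3⟩ hC⟩
  choose Φ hΦ c hc using h1
  choose Ψ hΨ c' hc' using h2
  refine ⟨(∏ C, Φ C) * ∏ C, Ψ C, mul_ne_zero (Finset.prod_ne_zero_iff.2 fun C _ => hΦ C)
    (Finset.prod_ne_zero_iff.2 fun C _ => hΨ C), (∑ C, c C) + ∑ C, c' C,
    fun t ht C hC => ?_⟩
  rw [map_mul, map_prod, map_prod] at ht
  have ht1 := Finset.prod_ne_zero_iff.1 (left_ne_zero_of_mul ht) C (Finset.mem_univ C)
  have ht2 := Finset.prod_ne_zero_iff.1 (right_ne_zero_of_mul ht) C (Finset.mem_univ C)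
  have hs1 : c C ≤ ∑ C, c C :=
    Finset.single_le_sum (f := c) (fun _ _ => Nat.zero_le _) (Finset.mem_univ C)
  have hs2 : c' C ≤ ∑ C, c' C :=
    Finset.single_le_sum (f := c') (fun _ _ => Nat.zero_le _) (Finset.mem_univ C)
  refine ⟨fun hsz L _ _ _ S x hx => ?_, fun hsz L _ _ _ S x hx => ?_⟩
  · refine (hc C hC hsz t ht1 L S x hx).trans ?_
    refine mul_le_mul_of_nonneg_right ?_ (le_max_right _ _)
    exact_mod_cast hs1.trans (Nat.le_add_right _ _)
  · refine (hc' C hC hsz t ht2 L S x hx).trans ?_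
    refine mul_le_mul_of_nonneg_right ?_ (le_trans (Int.natCast_nonneg _) (le_max_right _ _))
    exact_mod_cast hs2.trans (Nat.le_add_left _ _)

end Pool.Agent.U582.NP
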