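import Mathlib
import Pool.Agent.U582.NP.MWk
import Pool.Agent.U582.NP.Str
import Pool.Agent.U582.NP.PkgLG
import Pool.Agent.U582.GV.Main

/-!
The height bound for integral points, for all strata of Zariski-general moving forms.
-/

set_option autoImplicit false

namespace Pool.Agent.U582.NP

open FF Filter MvPolynomial Pool.Agent.W603.LV Pool.Agent.W603.PV
open Pool.Agent.NH29.GN (Idx Mon val fv NoZero)
open Pool.Agent.NH29.GN.IntP (frm aeval_frm frm_hom fv_smul)
open Pool.Agent.U582.GV (Mvg)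

/-- one stratum -/
theorem mov_oneK {k K : Type} [Field k] [CharZero k] [Field K] [Algebra k K] [IsAlgClosed K]
    [CharZero K] {M n q : ℕ}
    {V : Set (MvPolynomial (Fin (M + 1)) k)} (hV : ∀ H ∈ V, ∃ e, H.IsHomogeneous e)
    {ℓ : Fin (n + 1) → MvPolynomial (Fin (M + 1)) k} (hℓ : ∀ j, (ℓ j).IsHomogeneous 1)
    (hN : NoZero V ℓ) (hq : n + 1 ≤ q) {d : Fin q → ℕ} (hd : ∀ i, 1 ≤ d i)
    {C : Finset (Fin q)} (hC : C ≠ Finset.univ) (hsz : 2 * n + 1 ≤ ∑ b, d b + C.card) :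
    ∃ (Φ : MvPolynomial (Idx M d) k) (c : ℕ), Φ ≠ 0 ∧
      ∀ (E : Type) [Field E] [Algebra K E] [IsFF K E] [Algebra k E] [IsScalarTower k K E]
      (t : Idx M d → E), aeval t Φ ≠ 0 → ∀ (S : Finset (Place K E))
      (x : Fin (M + 1) → E), Mvg K V t C S x →
      pht K x ≤ c * (max (canDeg K E + S.card) 0 + ∑ i, hgt K (t i)) := by
  classical
  obtain ⟨Φ₁, hΦ₁, c₁, h1⟩ := weakM t_FAM (k := K) hV hℓ hN hq hd hC hsz
  obtain ⟨Φ₂, hΦ₂, c₂, h2⟩ := strong t_FAM t_LG t_WS (k := K) hV hℓ hN hq hd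
  refine ⟨Φ₁ * Φ₂, 2 * c₁ + c₂, mul_ne_zero hΦ₁ hΦ₂, fun E _ _ _ _ _ t ht S x hx => ?_⟩
  rw [map_mul] at ht
  have ht1 := left_ne_zero_of_mul ht
  have ht2 := right_ne_zero_of_mul ht
  have hst : (algebraMap K E).comp (algebraMap k K) = algebraMap k E :=
    (IsScalarTower.algebraMap_eq k K E).symm
  obtain ⟨H, hH⟩ : ∃ H, H = ∑ i, hgt K (t i) := ⟨_, rfl⟩
  obtain ⟨χ, hχ⟩ : ∃ χ, χ = canDeg K E + (S.card : ℤ) := ⟨_, rfl⟩
  have hH0 : 0 ≤ H := by
    rw [hH]
    exact Finset.sum_nonneg fun i _ => hgt_nonneg _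
  rw [← hH, ← hχ]
  have hm0 : 0 ≤ max χ 0 := le_max_right _ _
  rcases lt_or_ge (0 : ℤ) H with h3 | h3
  · -- coefficients which are not constant
    have h4 := h1 E t (by rw [hst]; exact ht1) S x
      ⟨hx.ne, fun G hG => by rw [hst]; exact hx.onV G hG, hx.onC, hx.off, hx.int⟩
    rw [← hH, ← hχ] at h4
    refine h4.trans ?_
    have h5 : max χ 1 ≤ max χ 0 + H :=
      max_le ((le_max_left _ _).trans (le_add_of_nonneg_right hH0)) (by linarith)
    have h6 : (0 : ℤ) ≤ c₁ := Int.natCast_nonneg _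
    have h7 : (0 : ℤ) ≤ c₂ := Int.natCast_nonneg _
    have h8 : 0 ≤ max χ 0 + H := by linarith
    calc (c₁ : ℤ) * (max χ 1 + H) ≤ c₁ * (2 * (max χ 0 + H)) :=
          mul_le_mul_of_nonneg_left (by linarith) h6
      _ ≤ (2 * c₁ + c₂ : ℕ) * (max χ 0 + H) := by
          push_cast
          nlinarith [mul_nonneg h7 h8]
  · -- constant coefficients
    have h4 : ∀ i, hgt K (t i) ≤ 0 := by
      intro i
      have h5 : hgt K (t i) ≤ ∑ i, hgt K (t i) :=
        Finset.single_le_sum (f := fun i => hgt K (t i)) (fun _ _ => hgt_nonneg _)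
          (Finset.mem_univ i)
      rw [← hH] at h5
      exact h5.trans h3
    choose t0 ht0 using fun i => const_of_hgt (h4 i)
    have hfv : ∀ b, aeval x (frm t0 b) = fv (K := E) (L := E) t x b := by
      intro b
      rw [aeval_frm]
      unfold fv val
      refine Finset.sum_congr rfl fun β _ => ?_
      rw [ht0]
      rfl
    have hΦ : aeval t0 Φ₂ ≠ 0 := by
      intro h0
      apply ht2
      have h5 := congrArg (algebraMap K E) h0
      rw [map_zero, aeval_def, hom_eval₂, hst] at h5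
      rw [aeval_def, ← h5]
      congr 1
      funext i
      exact ht0 i
    have h5 := ((h2 t0 hΦ C hC).1 hsz) E S x
      { ne := hx.ne
        onV := by
          rintro _ ⟨G, hG, rfl⟩
          rw [aeval_def, eval₂_map, hst]
          exact hx.onV G hG
        zero := fun c hc => by
          rw [hfv]
          exact hx.onC c hc
        nz := fun b hb => by
          rw [hfv]
          exact hx.off b hb
        ord := fun b hb P hP => by
          rw [hfv]
          exact hx.int b hb P hP }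
    rw [← hχ] at h5
    refine h5.trans ?_
    have h6 : (0 : ℤ) ≤ c₁ := Int.natCast_nonneg _
    have h7 : (0 : ℤ) ≤ c₂ := Int.natCast_nonneg _
    push_cast
    nlinarith [mul_nonneg h6 hm0, mul_nonneg h6 hH0, mul_nonneg h7 hH0]

/-- all strata, normalised coefficients -/
theorem mov_strataK {k K : Type} [Field k] [CharZero k] [Field K] [Algebra k K] [IsAlgClosed K]
    [CharZero K] {M n q : ℕ}
    {V : Set (MvPolynomial (Fin (M + 1)) k)} (hV : ∀ H ∈ V, ∃ e, H.IsHomogeneous e)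
    {ℓ : Fin (n + 1) → MvPolynomial (Fin (M + 1)) k} (hℓ : ∀ j, (ℓ j).IsHomogeneous 1)
    (hN : NoZero V ℓ) (hq : n + 1 ≤ q) {d : Fin q → ℕ} (hd : ∀ i, 1 ≤ d i) :
    ∃ (Φ : MvPolynomial (Idx M d) k) (c : ℕ), Φ ≠ 0 ∧
      ∀ (E : Type) [Field E] [Algebra K E] [IsFF K E] [Algebra k E] [IsScalarTower k K E]
      (t : Idx M d → E), aeval t Φ ≠ 0 → ∀ C : Finset (Fin q), C ≠ Finset.univ →
      2 * n + 1 ≤ ∑ b, d b + C.card → ∀ (S : Finset (Place K E)) (x : Fin (M + 1) → E),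
      Mvg K V t C S x →
      pht K x ≤ c * (max (canDeg K E + S.card) 0 + ∑ i, hgt K (t i)) := by
  classical
  have h1 : ∀ C : Finset (Fin q), ∃ (Φ : MvPolynomial (Idx M d) k) (c : ℕ), Φ ≠ 0 ∧
      (C ≠ Finset.univ → 2 * n + 1 ≤ ∑ b, d b + C.card →
      ∀ (E : Type) [Field E] [Algebra K E] [IsFF K E] [Algebra k E] [IsScalarTower k K E]
      (t : Idx M d → E), aeval t Φ ≠ 0 → ∀ (S : Finset (Place K E))
      (x : Fin (M + 1) → E), Mvg K V t C S x →
      pht K x ≤ c * (max (canDeg K E + S.card) 0 + ∑ i, hgt K (t i))) := by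
    intro C
    by_cases hC : C ≠ Finset.univ ∧ 2 * n + 1 ≤ ∑ b, d b + C.card
    · obtain ⟨Φ, c, h1, h2⟩ := mov_oneK (K := K) hV hℓ hN hq hd hC.1 hC.2
      exact ⟨Φ, c, h1, fun _ _ => h2⟩
    · exact ⟨1, 0, one_ne_zero, fun h h' => absurd ⟨h, h'⟩ hC⟩
  choose Φ c h1 h2 using h1
  refine ⟨∏ C, Φ C, ∑ C, c C, Finset.prod_ne_zero_iff.2 fun C _ => h1 C,
    fun E _ _ _ _ _ t ht C hCu hsz S x hx => ?_⟩
  rw [map_prod, Finset.prod_ne_zero_iff] at ht
  refine (h2 C hCu hsz E t (ht C (Finset.mem_univ _)) S x hx).trans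
    (mul_le_mul_of_nonneg_right ?_
      (add_nonneg (le_max_right _ _) (Finset.sum_nonneg fun i _ => hgt_nonneg _)))
  exact_mod_cast Finset.single_le_sum (f := c) (fun _ _ => Nat.zero_le _) (Finset.mem_univ C)

end Pool.Agent.U582.NP
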