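import Mathlib
import Pool.Agent.U582.NP.MStr

/-!
The height bound for integral points on the complements of Zariski-general moving forms.
-/

set_option autoImplicit false

namespace Pool.Agent.U582.NP

open MvPolynomial FF
open Pool.Agent.NH29.GN (Idx Mon fv NoZero)
open Pool.Agent.W603.LV Pool.Agent.W603.PV
open Pool.Agent.U582.GV

/-- integral points outside of `S`, arbitrary coefficients -/
theorem mov_allK {k K : Type} [Field k] [CharZero k] [Field K] [Algebra k K] [IsAlgClosed K]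
    [CharZero K] {M n q : ℕ}
    {V : Set (MvPolynomial (Fin (M + 1)) k)} (hV : ∀ H ∈ V, ∃ e, H.IsHomogeneous e)
    {ℓ : Fin (n + 1) → MvPolynomial (Fin (M + 1)) k} (hℓ : ∀ j, (ℓ j).IsHomogeneous 1)
    (hN : NoZero V ℓ) (hq : n + 1 ≤ q) {d : Fin q → ℕ} (hd : ∀ i, 1 ≤ d i) :
    ∃ (Φ : MvPolynomial (Idx M d) k) (c : ℕ), Φ ≠ 0 ∧
      ∀ (L : Type) [Field L] [Algebra K L] [IsFF K L] [Algebra k L] [IsScalarTower k K L]
      (D : Fin q → MvPolynomial (Fin (M + 1)) L), (∀ b, (D b).IsHomogeneous (d b)) →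
      aeval (fun s : Idx M d => coeff s.2.1 (D s.1)) Φ ≠ 0 → ∀ C : Finset (Fin q),
      C ≠ Finset.univ → 2 * n + 1 ≤ ∑ b, d b + C.card →
      ∀ (S : Finset (Place K L)) (x : Fin (M + 1) → L), x ≠ 0 →
      (∀ H ∈ V, aeval x H = 0) → (∀ c ∈ C, aeval x (D c) = 0) →
      (∀ b, b ∉ C → aeval x (D b) ≠ 0) →
      (∀ b, b ∉ C → ∀ P ∉ S, contact P (D b) (d b) x = 0) →
      (∀ b, D b ≠ 0) ∧
      pht K x ≤ c * (max (canDeg K L + S.card) 0 + ∑ b, formHeight K (D b)) := by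
  classical
  obtain ⟨Φ₀, c₀, h0, h1⟩ := mov_strataK (K := K) hV hℓ hN hq hd
  obtain ⟨Φ, B, h2, h3⟩ := Pool.Agent.NH29.GN.prj k M q d Φ₀ h0
  refine ⟨Φ, c₀ * (1 + Fintype.card (Idx M d)), h2,
    fun L _ _ _ _ _ D hD hΦ C hC hsz S x hx hxV hxC hxb hS => ?_⟩
  have hL : CharZero L := charZero_of_injective_algebraMap (algebraMap k L).injective
  obtain ⟨t, ht⟩ : ∃ t : Idx M d → L, t = fun s : Idx M d => coeff s.2.1 (D s.1) := ⟨_, rfl⟩
  rw [← ht] at hΦ
  obtain ⟨ht0, ht1⟩ := h3 L t hΦ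
  obtain ⟨l, hl, hl0⟩ := ht1 (fun b => (t ⟨b, Pool.Agent.NH29.GN.Hi.mon0 M (d b)⟩)⁻¹)
    fun b => inv_ne_zero (ht0 _)
  obtain ⟨e, he⟩ : ∃ e : Fin q → L, e = fun b =>
    (l b : L) * (t ⟨b, Pool.Agent.NH29.GN.Hi.mon0 M (d b)⟩)⁻¹ := ⟨_, rfl⟩
  have hlK : ∀ b, (l b : K) ≠ 0 := fun b => by
    have := (hl b).1
    exact_mod_cast (by omega : l b ≠ 0)
  have hlL : ∀ b, (l b : L) ≠ 0 := fun b => by
    have := (hl b).1
    exact_mod_cast (by omega : l b ≠ 0)
  have he0 : ∀ b, e b ≠ 0 := fun b => by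
    rw [he]
    exact mul_ne_zero (hlL b) (inv_ne_zero (ht0 _))
  obtain ⟨D', hD'⟩ : ∃ D' : Fin q → MvPolynomial (Fin (M + 1)) L, D' = fun b => MvPolynomial.C (e b) * D b :=
    ⟨_, rfl⟩
  obtain ⟨t', ht'⟩ : ∃ t' : Idx M d → L, t' = fun s => e s.1 * t s := ⟨_, rfl⟩
  have hΦ0 : aeval t' Φ₀ ≠ 0 := by
    rw [ht', he]
    exact hl0
  have hD0 : ∀ b, D b ≠ 0 := by
    intro b hb
    have h4 := ht0 ⟨b, Pool.Agent.NH29.GN.Hi.mon0 M (d b)⟩
    rw [ht] at h4
    apply h4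
    change coeff _ (D b) = 0
    rw [hb, coeff_zero]
  have hnorm : ∀ b, (∀ β, hgt K ((D' b).coeff β) ≤ formHeight K (D b)) ∧
      ∃ N : Finset (Place K L), (∀ P ∉ N, gaussOrd P (D' b) = 0) ∧
        (N.card : ℤ) ≤ formHeight K (D b) := by
    intro b
    have h8 : coeff (Pool.Agent.NH29.GN.Hi.mon0 M (d b)).1 (D' b) = algebraMap K L (l b : K) := by
      have h6 : t ⟨b, Pool.Agent.NH29.GN.Hi.mon0 M (d b)⟩ ≠ 0 := ht0 _
      have h9 : coeff (Pool.Agent.NH29.GN.Hi.mon0 M (d b)).1 (D b) =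
          t ⟨b, Pool.Agent.NH29.GN.Hi.mon0 M (d b)⟩ := by rw [ht]
      have h10 : D' b = MvPolynomial.C (e b) * D b := by rw [hD']
      have h11 : e b = (l b : L) * (t ⟨b, Pool.Agent.NH29.GN.Hi.mon0 M (d b)⟩)⁻¹ := by rw [he]
      rw [h10, coeff_C_mul, h9, h11, mul_assoc, inv_mul_cancel₀ h6, mul_one, map_natCast]
    obtain ⟨-, h4, h5⟩ := normalised (K := K) (hlK b) h8
    have h7 : formHeight K (D' b) = formHeight K (D b) := by
      rw [hD']
      exact formHeight_smul (hD0 b) (he0 b)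
    rw [h7] at h4 h5
    exact ⟨h4, h5⟩
  choose hn1 N hn2 hn3 using hnorm
  have hfv : ∀ b, fv (K := L) (L := L) t' x b = e b * aeval x (D b) := by
    intro b
    rw [ht', Pool.Agent.NH29.GN.Hi.fv_scale t e x b, ht]
    congr 1
    rw [aeval_def]
    exact (Pool.Agent.NH29.GN.Stc.eval₂_form (algebraMap L L) x (hD b)).symm
  have hfh : ∀ b, 0 ≤ formHeight K (D b) := fun b => formHeight_nonneg (hD0 b)
  have hfh' : ∀ b, formHeight K (D b) ≤ ∑ b, formHeight K (D b) := fun b =>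
    Finset.single_le_sum (f := fun b => formHeight K (D b)) (fun b _ => hfh b) (Finset.mem_univ b)
  have hfh0 : 0 ≤ ∑ b, formHeight K (D b) := Finset.sum_nonneg fun b _ => hfh b
  obtain ⟨S', hS'⟩ : ∃ S', S' = S ∪ Finset.univ.biUnion N := ⟨_, rfl⟩
  have hcard : (S'.card : ℤ) ≤ S.card + ∑ b, formHeight K (D b) := by
    have h4 : S'.card ≤ S.card + ∑ b, (N b).card := by
      rw [hS']
      exact (Finset.card_union_le _ _).trans (Nat.add_le_add_left Finset.card_biUnion_le _)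
    have h5 : ((∑ b, (N b).card : ℕ) : ℤ) ≤ ∑ b, formHeight K (D b) := by
      push_cast
      exact Finset.sum_le_sum fun b _ => hn3 b
    have h6 : (S'.card : ℤ) ≤ S.card + ((∑ b, (N b).card : ℕ) : ℤ) := by exact_mod_cast h4
    linarith
  have h4 := h1 L t' hΦ0 C hC hsz S' x ⟨hx, hxV, fun c hc => by rw [hfv, hxC c hc, mul_zero],
    fun b hb => by
      rw [hfv]
      exact mul_ne_zero (he0 b) (hxb b hb),
    fun b hb Q hQ => by
      rw [hS', Finset.mem_union, not_or] at hQ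
      have h5 := hS b hb Q hQ.1
      rw [← contact_smul Q (hD0 b) (he0 b) (d b) (hxb b hb)] at h5
      have h6 : gaussOrd Q (MvPolynomial.C (e b) * D b) = 0 := by
        have h7 := hn2 b Q fun h => hQ.2 (Finset.mem_biUnion.2 ⟨b, Finset.mem_univ b, h⟩)
        rwa [hD'] at h7
      unfold contact at h5
      rw [h6, map_mul, aeval_C, Algebra.algebraMap_self, RingHom.id_apply] at h5
      rw [hfv]
      omega⟩
  refine ⟨hD0, h4.trans ?_⟩
  have h5 : ∑ i, hgt K (t' i) ≤ Fintype.card (Idx M d) * ∑ b, formHeight K (D b) := by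
    have h6 : ∀ i, hgt K (t' i) ≤ ∑ b, formHeight K (D b) := by
      rintro ⟨b, β⟩
      refine le_trans ?_ (hfh' b)
      have h7 := hn1 b β.1
      rw [hD'] at h7
      rw [ht', ht]
      change hgt K (e b * coeff β.1 (D b)) ≤ _
      change hgt K (coeff β.1 (MvPolynomial.C (e b) * D b)) ≤ _ at h7
      rwa [coeff_C_mul] at h7
    refine (Finset.sum_le_sum fun i _ => h6 i).trans (le_of_eq ?_)
    rw [Finset.sum_const, Finset.card_univ, nsmul_eq_mul]
  obtain ⟨X, hX⟩ : ∃ X, X = max (canDeg K L + S.card) 0 := ⟨_, rfl⟩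
  have hX0 : 0 ≤ X := by rw [hX]; exact le_max_right _ _
  have h6 : max (canDeg K L + S'.card) 0 ≤ X + ∑ b, formHeight K (D b) := by
    refine max_le ?_ (add_nonneg hX0 hfh0)
    have : canDeg K L + S.card ≤ X := by rw [hX]; exact le_max_left _ _
    linarith
  rw [← hX]
  generalize hY : ∑ b, formHeight K (D b) = Y at *
  have h7 : (0 : ℤ) ≤ c₀ := Int.natCast_nonneg _
  have h8 : (0 : ℤ) ≤ Fintype.card (Idx M d) := Int.natCast_nonneg _
  calc (c₀ : ℤ) * (max (canDeg K L + S'.card) 0 + ∑ i, hgt K (t' i))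
      ≤ c₀ * ((X + Y) + Fintype.card (Idx M d) * Y) :=
        mul_le_mul_of_nonneg_left (add_le_add h6 h5) h7
    _ ≤ c₀ * ((1 + Fintype.card (Idx M d)) * (X + Y)) := by
        refine mul_le_mul_of_nonneg_left ?_ h7
        nlinarith [mul_nonneg h8 hX0]
    _ = (c₀ * (1 + Fintype.card (Idx M d)) : ℕ) * (X + Y) := by
        push_cast
        ring

end Pool.Agent.U582.NP
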