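import Pool.Agent.U582.GK.Orb

/-!
From curves in the complement to orbifold curves, with a general second term.
-/

set_option autoImplicit false

namespace Pool.Agent.U582.NP

open MvPolynomial FF Pool.Agent.W603.LV Pool.Agent.W603.PV Pool.Agent.U582.GK

variable {K L : Type} [Field K] [IsAlgClosed K] [CharZero K] [Field L] [Algebra K L] [IsFF K L]
  {M : ℕ}

/-- from curves in the complement to orbifold curves -/
theorem orbm {q B₀ : ℕ} (μ : ℤ) (hμ : 0 ≤ μ) (d : Fin q → ℕ) (hd : ∀ b, 0 < d b)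
    (C : Finset (Fin q))
    (hC : C ≠ Finset.univ) (y : Fin q → L) {x : Fin (M + 1) → L} (hx : x ≠ 0)
    (hge : ∀ b, b ∉ C → ∀ P : Place K L, d b * pord P x ≤ P.ord (y b)) (S : Finset (Place K L))
    (hm : ∀ b, b ∉ C → ∀ P ∉ S, P.ord (y b) = d b * pord P x ∨
      d b * pord P x + (2 * B₀ * ∑ b, d b + 1 : ℕ) ≤ P.ord (y b))
    (h : ∀ N : Finset (Place K L), (∀ b, b ∉ C → ∀ P ∉ N, P.ord (y b) = d b * pord P x) →
      pht K x ≤ B₀ * max (canDeg K L + N.card) μ) :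
    pht K x ≤ (2 * B₀ * ∑ b, d b + 1 : ℕ) * max (canDeg K L + S.card) μ := by
  classical
  obtain ⟨h0, N, hN, hcard⟩ := card_bound d hd C hC y hx hge S hm
  have h1 := h (S ∪ N) fun b hb P hP => by
    rw [Finset.mem_union, not_or] at hP
    exact hN b hb P hP.1 hP.2
  have h2 : ((S ∪ N).card : ℤ) ≤ S.card + N.card := by exact_mod_cast Finset.card_union_le S N
  obtain ⟨D, hD⟩ : ∃ D : ℤ, D = ((∑ b, d b : ℕ) : ℤ) := ⟨_, rfl⟩
  have hD1 : 1 ≤ D := by
    obtain ⟨b, -, hb⟩ := Finset.exists_of_ssubset (Finset.ssubset_univ_iff.2 hC)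
    rw [hD]
    have : 1 ≤ ∑ b, d b := (hd b).trans_le
      (Finset.single_le_sum (f := d) (fun _ _ => Nat.zero_le _) (Finset.mem_univ b))
    exact_mod_cast this
  obtain ⟨X, hX⟩ : ∃ X, X = max (canDeg K L + S.card) μ := ⟨_, rfl⟩
  have hXμ : μ ≤ X := by rw [hX]; exact le_max_right _ _
  have hX0 : 0 ≤ X := hμ.trans hXμ
  have h3 : max (canDeg K L + (S ∪ N).card) μ ≤ X + N.card := by
    have h4 : (0 : ℤ) ≤ N.card := Int.natCast_nonneg _
    refine max_le ?_ (by linarith)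
    have : canDeg K L + S.card ≤ X := by rw [hX]; exact le_max_left _ _
    omega
  have h4 : pht K x ≤ B₀ * X + B₀ * N.card := by
    have h5 := mul_le_mul_of_nonneg_left h3 (Int.natCast_nonneg B₀)
    linarith
  have hcast : ((2 * B₀ * ∑ b, d b + 1 : ℕ) : ℤ) = 2 * B₀ * D + 1 := by
    rw [hD]
    push_cast
    ring
  rw [hcast] at hcard ⊢
  rw [← hD] at hcard
  rw [← hX]
  have hNn : (0 : ℤ) ≤ N.card := Int.natCast_nonneg _
  have hB : (0 : ℤ) ≤ B₀ := Int.natCast_nonneg _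
  -- `2 B₀ |N| ≤ pht`
  have h6 : 2 * B₀ * (N.card : ℤ) ≤ pht K x := by
    by_contra hcon
    push Not at hcon
    have h7 : D * pht K x < D * (2 * B₀ * (N.card : ℤ)) :=
      mul_lt_mul_of_pos_left hcon (by omega)
    nlinarith
  have h8 : pht K x ≤ 2 * (B₀ * X) := by linarith
  have h9 : 2 * (B₀ * X) ≤ (2 * B₀ * D + 1) * X := by
    have h10 : (0 : ℤ) ≤ B₀ * X := mul_nonneg hB hX0
    have h11 : B₀ * X ≤ B₀ * X * D := le_mul_of_one_le_right h10 hD1
    nlinarith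
  linarith

end Pool.Agent.U582.NP
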